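import Pool.Agent.T6.H4.Cusp.Psi
import Pool.Agent.H713R2.Main1

set_option autoImplicit false

/-! # Abel sums of the Laurent coefficients at the cusp -/

open Complex Metric Set Filter Topology Pool.Agent.H712R2 Pool.Agent.H713R2 N62a1eb23

namespace Pool.Agent.T6.H4.Cusp

variable {ψ : ℂ → ℂ} {b : ℕ → ℂ}

theorem hasSum_b (hb : HasLaurent ψ b) {x : ℂ} (hx : ‖x‖ < 1)
    (hx0 : x ≠ 0) : HasSum (fun m => b m * x ^ m) (ψ (x⁻¹) - x⁻¹) := by
  have h1 : 1 < ‖x⁻¹‖ := one_lt_norm_inv (mem_ball_zero_iff.2 hx) hx0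
  have h2 := hb _ h1
  have e1 : (fun m => b m * x ^ m) = fun m => b m / (x⁻¹) ^ m := by
    funext m
    rw [inv_pow, div_inv_eq_mul]
  rw [e1]
  exact h2

noncomputable def G0 (b : ℕ → ℂ) (x : ℂ) : ℂ := ∑' m, b m * x ^ m

theorem summable_b (hb : HasLaurent ψ b) {r : ℝ} (hr0 : 0 ≤ r)
    (hr : r < 1) : Summable (fun m => ‖b m‖ * r ^ m) := by
  set r' : ℝ := (1 + r) / 2 with hr'
  have h1 : r < r' := by rw [hr']; linarith
  have h2 : r' < 1 := by rw [hr']; linarith
  have h3 : 0 < r' := by linarith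
  have h4 := (hasSum_b hb (x := (r' : ℂ)) (by
    rw [Complex.norm_real, Real.norm_eq_abs, abs_of_pos h3]; exact h2)
    (by exact_mod_cast h3.ne')).summable
  have h5 := h4.tendsto_atTop_zero
  obtain ⟨M, hM⟩ := h5.norm.bddAbove_range
  have hM' : ∀ m, ‖b m‖ * r' ^ m ≤ M := by
    intro m
    have := hM (mem_range_self m)
    rw [norm_mul, norm_pow, Complex.norm_real, Real.norm_eq_abs, abs_of_pos h3] at this
    exact this
  have h6 : Summable (fun m : ℕ => M * (r / r') ^ m) := by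
    apply Summable.mul_left
    apply summable_geometric_of_lt_one (by positivity)
    rw [div_lt_one h3]
    exact h1
  refine Summable.of_nonneg_of_le (fun m => by positivity) (fun m => ?_) h6
  have h7 : r ^ m = r' ^ m * (r / r') ^ m := by
    rw [← mul_pow]
    congr 1
    field_simp
  rw [h7, ← mul_assoc]
  exact mul_le_mul_of_nonneg_right (hM' m) (by positivity)

theorem G0_diff (hb : HasLaurent ψ b) : DifferentiableOn ℂ (G0 b) (ball 0 1) := by
  intro x hx
  rw [mem_ball_zero_iff] at hx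
  obtain ⟨r, hr1, hr2⟩ := exists_between hx
  have h1 : DifferentiableOn ℂ (G0 b) (ball 0 r) := by
    apply differentiableOn_tsum_of_summable_norm (summable_b hb ((norm_nonneg x).trans hr1.le) hr2)
    · intro m
      fun_prop
    · exact isOpen_ball
    · intro m y hy
      rw [mem_ball_zero_iff] at hy
      rw [norm_mul, norm_pow]
      gcongr
  exact (h1.differentiableAt (isOpen_ball.mem_nhds (mem_ball_zero_iff.2 hr1))).differentiableWithinAt

theorem G0_hasSum (hb : HasLaurent ψ b) {x : ℂ} (hx : x ∈ ball (0 : ℂ) 1) :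
    HasSum (fun m => b m * x ^ m) (G0 b x) := by
  rw [mem_ball_zero_iff] at hx
  apply Summable.hasSum
  apply Summable.of_norm
  refine (summable_b hb (norm_nonneg x) hx).congr fun m => ?_
  rw [norm_mul, norm_pow]

theorem G0_tc (hb : HasLaurent ψ b) : b = tc (G0 b) := by
  apply tc_unique one_pos (G0_diff hb)
  filter_upwards [ball_mem_nhds (0 : ℂ) one_pos] with x hx
  exact G0_hasSum hb hx

theorem G1_hasSum (hb : HasLaurent ψ b) {x : ℂ} (hx : x ∈ ball (0 : ℂ) 1) :
    HasSum (fun m : ℕ => (m : ℂ) * b m * x ^ m) (x * deriv (G0 b) x) := by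
  have h1 : DifferentiableOn ℂ (fun x => x * deriv (G0 b) x) (ball 0 1) :=
    differentiableOn_id.mul ((G0_diff hb).deriv isOpen_ball)
  have h := hasSum_tc h1 hx
  have e1 : (fun m : ℕ => (m : ℂ) * b m * x ^ m) =
      fun k => tc (fun x => x * deriv (G0 b) x) k * x ^ k := by
    funext m
    rw [tc_id_mul_deriv (G0_diff hb) m, ← G0_tc hb]
  rw [e1]
  exact h

theorem exp_neg_mem {t : ℂ} (ht : 0 < t.re) : Complex.exp (-t) ∈ ball (0 : ℂ) 1 := by
  rw [mem_ball_zero_iff, Complex.norm_exp, Complex.neg_re, Real.exp_lt_one_iff]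
  linarith

theorem Fe_series (hb : HasLaurent ψ b) {t : ℂ} (ht : 0 < t.re) :
    Fe ψ t = Complex.exp t + G0 b (Complex.exp (-t)) := by
  have hm := exp_neg_mem ht
  have h1 := hasSum_b hb (mem_ball_zero_iff.1 hm) (Complex.exp_ne_zero _)
  have h2 := h1.unique (G0_hasSum hb hm)
  rw [← h2, ← Complex.exp_neg, neg_neg, Fe]
  ring

theorem Fe_deriv_series (hb : HasLaurent ψ b) {t : ℂ} (ht : 0 < t.re) :
    deriv (Fe ψ) t = Complex.exp t -
      Complex.exp (-t) * deriv (G0 b) (Complex.exp (-t)) := by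
  have h1 : HasDerivAt (G0 b) (deriv (G0 b) (Complex.exp (-t))) (Complex.exp (-t)) :=
    ((G0_diff hb).differentiableAt (isOpen_ball.mem_nhds (exp_neg_mem ht))).hasDerivAt
  have h2 : HasDerivAt (fun t : ℂ => Complex.exp (-t)) (Complex.exp (-t) * (-1)) t :=
    (hasDerivAt_neg t).cexp
  have h3 := (Complex.hasDerivAt_exp t).add (h1.comp t h2)
  have h4 : Fe ψ =ᶠ[𝓝 t] fun t => Complex.exp t + G0 b (Complex.exp (-t)) := by
    filter_upwards [isOpen_re.mem_nhds ht] with z hz using Fe_series hb hz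
  rw [h4.deriv_eq]
  have h5 := h3.deriv
  rw [show (fun t => Complex.exp t + G0 b (Complex.exp (-t))) =
    Complex.exp + (G0 b ∘ fun t => Complex.exp (-t)) from rfl, h5]
  ring

/-- real Abel sum of `b` -/
theorem abel0 (hb : HasLaurent ψ b) {s : ℝ} (hs : 0 < s) :
    ∑' m : ℕ, (b m).re * Real.exp (-(m * s)) = Rr ψ s - Real.exp s := by
  have h1 := G0_hasSum hb (exp_neg_mem (t := (s : ℂ)) (by simpa using hs))
  have h2 := Fe_series hb (t := (s : ℂ)) (by simpa using hs)
  have h3 : G0 b (Complex.exp (-(s : ℂ))) = Fe ψ s - Complex.exp s := by rw [h2]; ring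
  rw [h3] at h1
  have h4 := Complex.hasSum_re h1
  have e1 : (Fe ψ (s : ℂ) - Complex.exp s).re = Rr ψ s - Real.exp s := by
    rw [Complex.sub_re, Fe_real, ← Complex.ofReal_exp, Complex.ofReal_re]
    rfl
  rw [e1] at h4
  refine Eq.trans (tsum_congr fun m => ?_) h4.tsum_eq
  have e2 : Complex.exp (-(s : ℂ)) ^ m = ((Real.exp (-(m * s)) : ℝ) : ℂ) := by
    rw [← Complex.exp_nat_mul, Complex.ofReal_exp]
    congr 1
    push_cast
    ring
  rw [e2, Complex.re_mul_ofReal]

/-- real Abel sum of `m b` -/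
theorem abel1 (hb : HasLaurent ψ b) {s : ℝ} (hs : 0 < s) :
    ∑' m : ℕ, m * (b m).re * Real.exp (-(m * s)) = Real.exp s - ff ψ s := by
  have h1 := G1_hasSum hb (exp_neg_mem (t := (s : ℂ)) (by simpa using hs))
  have h2 := Fe_deriv_series hb (t := (s : ℂ)) (by simpa using hs)
  have h3 : Complex.exp (-(s : ℂ)) * deriv (G0 b) (Complex.exp (-(s : ℂ))) =
      Complex.exp s - deriv (Fe ψ) s := by rw [h2]; ring
  rw [h3] at h1
  have h4 := Complex.hasSum_re h1
  have e1 : (Complex.exp s - deriv (Fe ψ) (s : ℂ)).re = Real.exp s - ff ψ s := by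
    rw [Complex.sub_re, ← Complex.ofReal_exp, Complex.ofReal_re]
    rfl
  rw [e1] at h4
  refine Eq.trans (tsum_congr fun m => ?_) h4.tsum_eq
  have e2 : Complex.exp (-(s : ℂ)) ^ m = ((Real.exp (-(m * s)) : ℝ) : ℂ) := by
    rw [← Complex.exp_nat_mul, Complex.ofReal_exp]
    congr 1
    push_cast
    ring
  have e3 : ((m : ℂ) * b m).re = m * (b m).re := by
    rw [← Complex.ofReal_natCast, Complex.re_ofReal_mul]
  rw [e2, Complex.re_mul_ofReal, e3]

end Pool.Agent.T6.H4.Cusp
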