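import Pool.Agent.T6.H4.Cusp.Theta

set_option autoImplicit false

/-! # Abel sums: the limits -/

open Complex Metric Set Filter Topology Pool.Agent.H712R2 Pool.Agent.H713R2 N62a1eb23

namespace Pool.Agent.T6.H4.Cusp

variable {ψ χ : ℂ → ℂ} {b : ℕ → ℂ}

theorem s_log3 : Tendsto (fun s : ℝ => s * |Real.log s| ^ 3) (𝓝[>] 0) (𝓝 0) := by
  have h1 := (_root_.tendsto_log_mul_rpow_nhdsGT_zero (r := 1 / 3) (by norm_num)).abs.pow 3
  rw [abs_zero, zero_pow (by norm_num)] at h1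
  refine h1.congr' ?_
  filter_upwards [self_mem_nhdsWithin] with s hs
  have hs' : 0 < s := hs
  rw [abs_mul, abs_of_pos (Real.rpow_pos_of_pos hs' _), mul_pow, ← Real.rpow_natCast (s ^ (1 / 3 : ℝ)),
    ← Real.rpow_mul hs'.le]
  norm_num
  ring

theorem small_ev {a : ℝ} (ha : 0 < a) : ∀ᶠ s : ℝ in 𝓝[>] 0, s ≤ a :=
  mem_nhdsWithin_of_mem_nhds (Iic_mem_nhds ha)

theorem pos_ev : ∀ᶠ s : ℝ in 𝓝[>] 0, 0 < s := self_mem_nhdsWithin

theorem eps_ge (hψ : IsExteriorMap (multibrotSet 2) ψ) {s : ℝ} (hs : 0 < s)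
    (hs1 : s ≤ Real.exp (-120)) : 1 ≤ |Real.log s| ^ 2 * (Rr ψ s - 1 / 4) := by
  have hl := neg_log_ge hs hs1
  obtain ⟨b1, b2⟩ := eps_bounds hψ hs (hs1.trans (Real.exp_le_exp.2 (by norm_num)))
  obtain ⟨l, hld⟩ : ∃ l, l = -Real.log s := ⟨_, rfl⟩
  rw [← hld] at hl b1 b2
  rw [show |Real.log s| = l by
    rw [show Real.log s = -l by rw [hld]; ring, abs_neg, abs_of_pos (by linarith)]]
  rw [div_le_iff₀ (by positivity)] at b1
  have hL0 := LL_gt
  have h4 : l + 36 ≤ 1.4 * l := by linarith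
  have h5 : (l + 36) ^ 2 ≤ (1.4 * l) ^ 2 := pow_le_pow_left₀ (by linarith) h4 2
  have h6 : 4 ≤ LL ^ 2 := by nlinarith
  have he : 0 < Rr ψ s - 1 / 4 := by have := Rr_lt hψ hs; linarith
  nlinarith

/-- the real form of (1) -/
theorem real1 (h : Lim ψ χ) (hψ : IsExteriorMap (multibrotSet 2) ψ) :
    Tendsto (fun s : ℝ => Real.pi / √(Rr ψ s - 1 / 4) - (-Real.log s / Real.log 2) -
      (Th χ ((-Real.log s / Real.log 2 : ℝ) : ℂ)).re) (𝓝[>] 0) (𝓝 0) := by
  have h1 := (h.stolz 0).comp (real_St le_rfl)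
  have h2 := (Complex.continuous_re.tendsto _).comp h1
  rw [Complex.zero_re] at h2
  refine h2.congr' ?_
  filter_upwards [pos_ev] with s hs
  simp only [Function.comp]
  rw [Complex.add_re, xi_real hψ hs, Complex.ofReal_re]
  have e1 : (((-Real.log s / Real.log 2 : ℝ)) : ℂ) = -Complex.log s / Real.log 2 := by
    rw [← Complex.ofReal_log hs.le]
    push_cast
    rfl
  rw [Th, Complex.sub_re, Complex.neg_re, Complex.ofReal_re, e1,
    Th_log (by exact_mod_cast hs.ne')]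
  ring

/-- (3) -/
theorem abel_lim0 (h : Lim ψ χ) (hψ : IsExteriorMap (multibrotSet 2) ψ) (hb : HasLaurent ψ b) :
    Tendsto (fun s : ℝ => Real.pi / √(3 / 4 + ∑' m : ℕ, (b m).re * Real.exp (-(m * s))) -
      (-Real.log s / Real.log 2) -
      (Th χ ((-Real.log s / Real.log 2 : ℝ) : ℂ)).re) (𝓝[>] 0) (𝓝 0) := by
  have hdiff : Tendsto (fun s : ℝ => Real.pi / √(Rr ψ s - 1 / 4 - (Real.exp s - 1)) -
      Real.pi / √(Rr ψ s - 1 / 4)) (𝓝[>] 0) (𝓝 0) := by
    have hlim : Tendsto (fun s : ℝ => 4 * Real.pi * (s * |Real.log s| ^ 3)) (𝓝[>] 0) (𝓝 0) := by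
      simpa using s_log3.const_mul (4 * Real.pi)
    refine squeeze_zero_norm' ?_ hlim
    filter_upwards [pos_ev, small_ev (Real.exp_pos (-120)),
      s_log3.eventually (gt_mem_nhds (show (0 : ℝ) < 3 / 8 by norm_num))] with s h0 h1 h2
    have he1 := eps_ge hψ h0 h1
    have hl := neg_log_ge h0 h1
    obtain ⟨e, he⟩ : ∃ e, e = Rr ψ s - 1 / 4 := ⟨_, rfl⟩
    obtain ⟨l, hld⟩ : ∃ l, l = |Real.log s| := ⟨_, rfl⟩
    have hl120 : 120 ≤ l := by rw [hld]; exact hl.trans (neg_le_abs _)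
    rw [← he, ← hld] at he1
    rw [← hld] at h2 ⊢
    rw [← he]
    obtain ⟨d, hd⟩ : ∃ d, d = Real.exp s - 1 := ⟨_, rfl⟩
    have hs1 : s ≤ 1 := h1.trans (Real.exp_le_one_iff.2 (by norm_num))
    have hd0 : 0 ≤ d := by rw [hd]; have := Real.add_one_le_exp s; linarith
    have hd2 : d ≤ 2 * s := by
      have := Real.abs_exp_sub_one_le (x := s) (by rw [abs_of_pos h0]; exact hs1)
      rw [abs_of_pos h0] at this
      rw [hd]
      exact (le_abs_self _).trans this
    rw [← hd]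
    have he0 : 0 < e := by
      by_contra hcon
      push Not at hcon
      nlinarith [sq_nonneg l]
    have hsl2 : 2 * s ≤ 3 / 4 * e := by
      have h3 : s * l ^ 2 ≤ 3 / 8 := by
        have : s * l ^ 2 ≤ s * l ^ 3 := by
          apply mul_le_mul_of_nonneg_left _ h0.le
          exact pow_le_pow_right₀ (by linarith) (by norm_num)
        linarith
      have h4 : 2 * s * l ^ 2 ≤ 3 / 4 * e * l ^ 2 := by nlinarith
      exact le_of_mul_le_mul_right h4 (by positivity)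
    have hed : e / 4 ≤ e - d := by linarith
    obtain ⟨x, hx⟩ : ∃ x, x = √e := ⟨_, rfl⟩
    obtain ⟨y, hy⟩ : ∃ y, y = √(e - d) := ⟨_, rfl⟩
    have hx0 : 0 < x := by rw [hx]; exact Real.sqrt_pos.2 he0
    have hy0 : 0 < y := by rw [hy]; exact Real.sqrt_pos.2 (by linarith)
    have hx2 : x ^ 2 = e := by rw [hx]; exact Real.sq_sqrt he0.le
    have hy2 : y ^ 2 = e - d := by rw [hy]; exact Real.sq_sqrt (by linarith)
    have hyx : x / 2 ≤ y := by
      have : (x / 2) ^ 2 ≤ y ^ 2 := by nlinarith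
      exact le_of_sq_le_sq this hy0.le
    have hxl : 1 ≤ l * x := by
      have : (1 : ℝ) ^ 2 ≤ (l * x) ^ 2 := by rw [mul_pow, hx2]; linarith
      exact le_of_sq_le_sq this (by positivity)
    rw [← hx, ← hy]
    have e1 : Real.pi / y - Real.pi / x = Real.pi * d / (x * y * (x + y)) := by
      have : d = (x - y) * (x + y) := by nlinarith
      rw [this]
      field_simp
    rw [e1, Real.norm_eq_abs, abs_of_nonneg (by have := Real.pi_pos; positivity),
      div_le_iff₀ (by positivity)]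
    have h5 : x ^ 3 / 2 ≤ x * y * (x + y) := by
      have h6 : x * (x / 2) ≤ x * y := mul_le_mul_of_nonneg_left hyx hx0.le
      have h7 : x ≤ x + y := by linarith
      have h8 : x * (x / 2) * x ≤ x * y * (x + y) := mul_le_mul h6 h7 hx0.le (by positivity)
      nlinarith
    have h6 : 1 ≤ l ^ 3 * x ^ 3 := by rw [← mul_pow]; exact one_le_pow₀ hxl
    have hpi := Real.pi_pos
    calc Real.pi * d ≤ Real.pi * (2 * s) := mul_le_mul_of_nonneg_left hd2 hpi.le
      _ ≤ 4 * Real.pi * (s * l ^ 3) * (x ^ 3 / 2) := by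
          have : 0 ≤ Real.pi * s := by positivity
          nlinarith
      _ ≤ _ := mul_le_mul_of_nonneg_left h5 (by positivity)
  have h2 := hdiff.add (real1 h hψ)
  rw [add_zero] at h2
  refine h2.congr' ?_
  filter_upwards [pos_ev] with s hs
  rw [abel0 hb hs]
  have e1 : Rr ψ s - 1 / 4 - (Real.exp s - 1) = 3 / 4 + (Rr ψ s - Real.exp s) := by ring
  rw [e1]
  ring

/-- (4) -/
theorem abel_lim1 (h : Lim ψ χ) (hψ : IsExteriorMap (multibrotSet 2) ψ) (hb : HasLaurent ψ b) :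
    Tendsto (fun s : ℝ => -(s * |Real.log s| ^ 3 *
        ∑' m : ℕ, m * (b m).re * Real.exp (-(m * s))) -
      2 * (Real.pi * Real.log 2) ^ 2 *
        (1 + (deriv (Th χ) ((-Real.log s / Real.log 2 : ℝ) : ℂ)).re)) (𝓝[>] 0) (𝓝 0) := by
  have h1 := (h.stolz_psi hψ (le_refl 0)).comp (real_St le_rfl)
  have h2 := (Complex.continuous_re.tendsto _).comp h1
  rw [Complex.zero_re] at h2
  have h3 : Tendsto (fun s : ℝ => s * |Real.log s| ^ 3 * Real.exp s) (𝓝[>] 0) (𝓝 0) := by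
    have h4 : Tendsto (fun s : ℝ => Real.exp s) (𝓝[>] 0) (𝓝 1) := by
      have := Real.continuous_exp.tendsto 0
      rw [Real.exp_zero] at this
      exact this.mono_left nhdsWithin_le_nhds
    simpa using s_log3.mul h4
  have h5 := h2.sub h3
  rw [sub_zero] at h5
  refine h5.congr' ?_
  filter_upwards [pos_ev, small_ev (Real.exp_pos (-120))] with s hs hs1
  have hl := neg_log_ge hs hs1
  simp only [Function.comp]
  rw [abel1 hb hs]
  have e1 : (((-Real.log s / Real.log 2 : ℝ)) : ℂ) = -Complex.log s / Real.log 2 := by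
    rw [← Complex.ofReal_log hs.le]
    push_cast
    rfl
  have hsre : 0 < ((s : ℂ)).re := by simpa using hs
  rw [e1, (Th_hasDeriv h (log_strip hsre)).deriv, Th_log (by exact_mod_cast hs.ne')]
  have e2 : (-Complex.log (s : ℂ)) ^ 3 * ((s : ℂ) * deriv (Fe ψ) s) =
      (((-Real.log s) ^ 3 * s : ℝ) : ℂ) * deriv (Fe ψ) s := by
    rw [← Complex.ofReal_log hs.le]
    push_cast
    ring
  have e3 : 2 * (Real.pi : ℂ) ^ 2 * (Real.log 2 : ℂ) ^ 3 * ((s : ℂ) * deriv χ s) =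
      ((2 * Real.pi ^ 2 * Real.log 2 ^ 3 * s : ℝ) : ℂ) * deriv χ s := by
    push_cast
    ring
  have e4 : (-1 + (Real.log 2 : ℂ) * ((s : ℂ) * deriv χ s)) =
      ((-1 : ℝ) : ℂ) + ((Real.log 2 * s : ℝ) : ℂ) * deriv χ s := by
    push_cast
    ring
  rw [e2, e3, e4, Complex.sub_re, Complex.re_ofReal_mul, Complex.re_ofReal_mul, Complex.add_re,
    Complex.re_ofReal_mul, Complex.ofReal_re]
  have e5 : |Real.log s| = -Real.log s := abs_of_nonpos (by linarith)
  rw [e5]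
  have e6 : (deriv (Fe ψ) (s : ℂ)).re = ff ψ s := rfl
  rw [e6]
  ring

end Pool.Agent.T6.H4.Cusp
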