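import Pool.Agent.T6.H4.Cusp.Dist

set_option autoImplicit false

/-! # Quantitative bounds on the ray -/

open Complex Metric Set Filter Topology Pool.Agent.H712R2 Pool.Agent.H713R2 N62a1eb23

namespace Pool.Agent.T6.H4.Cusp

/-- `π log 2` -/
noncomputable def LL : ℝ := Real.pi * Real.log 2

theorem LL_gt : 2.17 < LL := by
  have h1 := Real.pi_gt_d2
  have h2 := Real.log_two_gt_d9
  rw [LL]
  nlinarith

theorem LL_lt : LL < 2.19 := by
  have h1 := Real.pi_lt_d2
  have h2 := Real.log_two_lt_d9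
  have h3 := Real.pi_pos
  rw [LL]
  nlinarith

variable {ψ : ℂ → ℂ}

theorem eps_bounds (hψ : IsExteriorMap (multibrotSet 2) ψ) {s : ℝ} (hs : 0 < s)
    (hs1 : s ≤ Real.exp (-39)) :
    LL ^ 2 / (-Real.log s + 36) ^ 2 ≤ Rr ψ s - 1 / 4 ∧
      Rr ψ s - 1 / 4 ≤ LL ^ 2 / (-Real.log s - 36) ^ 2 := by
  obtain ⟨h0, h1, h2⟩ := ray_law hψ hs hs1
  have hl : 39 ≤ -Real.log s := by
    have := Real.log_le_log hs hs1
    rw [Real.log_exp] at this
    linarith
  obtain ⟨l, hld⟩ : ∃ l, l = -Real.log s := ⟨_, rfl⟩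
  rw [← hld] at hl ⊢
  rw [show Real.log s = -l by rw [hld]; ring] at h2
  obtain ⟨e, he⟩ : ∃ e, e = Rr ψ s - 1 / 4 := ⟨_, rfl⟩
  rw [← he] at h0 h1 h2 ⊢
  rw [show Real.pi * Real.log 2 = LL from rfl] at h2
  have hX : 0 < √e := Real.sqrt_pos.2 h0
  have hX2 : √e ^ 2 = e := Real.sq_sqrt h0.le
  rw [abs_le] at h2
  have hL := LL_gt
  have h3 : LL ≤ (l + 36) * √e := by
    rw [← div_le_iff₀ hX]; linarith [h2.2]
  have h4 : (l - 36) * √e ≤ LL := by
    rw [← le_div_iff₀ hX]; linarith [h2.1]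
  constructor
  · rw [div_le_iff₀ (by positivity)]
    have : LL ^ 2 ≤ ((l + 36) * √e) ^ 2 := pow_le_pow_left₀ (by linarith) h3 2
    nlinarith
  · have h5 : 0 < l - 36 := by linarith
    rw [le_div_iff₀ (by positivity)]
    have : ((l - 36) * √e) ^ 2 ≤ LL ^ 2 := pow_le_pow_left₀ (by positivity) h4 2
    nlinarith

theorem neg_log_ge {s a : ℝ} (hs : 0 < s) (hs1 : s ≤ Real.exp (-a)) : a ≤ -Real.log s := by
  have := Real.log_le_log hs hs1
  rw [Real.log_exp] at this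
  linarith

/-- expansion on the ray -/
theorem eps_expand (hψ : IsExteriorMap (multibrotSet 2) ψ) {s : ℝ} (hs : 0 < s)
    (hs1 : s ≤ Real.exp (-72)) :
    |Rr ψ s - 1 / 4 - LL ^ 2 / (Real.log s) ^ 2| ≤ 2000 / |Real.log s| ^ 3 := by
  have hl := neg_log_ge hs hs1
  obtain ⟨h1, h2⟩ := eps_bounds hψ hs (hs1.trans (Real.exp_le_exp.2 (by norm_num)))
  obtain ⟨l, hld⟩ : ∃ l, l = -Real.log s := ⟨_, rfl⟩
  rw [← hld] at hl h1 h2
  rw [show Real.log s = -l by rw [hld]; ring, abs_neg, abs_of_pos (show 0 < l by linarith), neg_sq]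
  have hL := LL_lt
  have hL0 := LL_gt
  have hL2 : LL ^ 2 ≤ 4.8 := by nlinarith
  have hl0 : 0 < l := by linarith
  have h36 : 0 < l - 36 := by linarith
  rw [abs_le]
  constructor
  · have h3 : LL ^ 2 / l ^ 2 - 2000 / l ^ 3 ≤ LL ^ 2 / (l + 36) ^ 2 := by
      have e1 : LL ^ 2 / (l + 36) ^ 2 - (LL ^ 2 / l ^ 2 - 2000 / l ^ 3) =
          (2000 * (l + 36) ^ 2 - LL ^ 2 * (72 * l + 1296) * l) / (l ^ 3 * (l + 36) ^ 2) := by
        field_simp
        ring
      have e2 : 0 ≤ (2000 * (l + 36) ^ 2 - LL ^ 2 * (72 * l + 1296) * l) /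
          (l ^ 3 * (l + 36) ^ 2) := by
        apply div_nonneg _ (by positivity)
        have e3 : LL ^ 2 * ((72 * l + 1296) * l) ≤ 4.8 * ((72 * l + 1296) * l) :=
          mul_le_mul_of_nonneg_right hL2 (by positivity)
        nlinarith
      linarith
    linarith
  · have h3 : LL ^ 2 / (l - 36) ^ 2 ≤ LL ^ 2 / l ^ 2 + 2000 / l ^ 3 := by
      have e1 : LL ^ 2 / l ^ 2 + 2000 / l ^ 3 - LL ^ 2 / (l - 36) ^ 2 =
          (2000 * (l - 36) ^ 2 - LL ^ 2 * (72 * l - 1296) * l) / (l ^ 3 * (l - 36) ^ 2) := by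
        field_simp
        ring
      have e2 : 0 ≤ (2000 * (l - 36) ^ 2 - LL ^ 2 * (72 * l - 1296) * l) /
          (l ^ 3 * (l - 36) ^ 2) := by
        apply div_nonneg _ (by positivity)
        have e3 : LL ^ 2 * ((72 * l - 1296) * l) ≤ 4.8 * ((72 * l - 1296) * l) :=
          mul_le_mul_of_nonneg_right hL2 (by nlinarith)
        nlinarith
      linarith
    linarith

/-- two-sided bound of the derivative on the ray -/
theorem ff_bounds (hψ : IsExteriorMap (multibrotSet 2) ψ) {s : ℝ} (hs : 0 < s)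
    (hs1 : s ≤ Real.exp (-120)) :
    4 * Real.exp (-365) / |Real.log s| ^ 3 ≤ s * ff ψ s ∧
      s * ff ψ s ≤ 100000 / |Real.log s| ^ 3 := by
  have hl := neg_log_ge hs hs1
  have hL := LL_lt
  have hL0 := LL_gt
  have hL2 : LL ^ 2 ≤ 4.8 := by nlinarith
  have hL3 : 4.7 ≤ LL ^ 2 := by nlinarith
  obtain ⟨b1, b2⟩ := eps_bounds hψ hs (hs1.trans (Real.exp_le_exp.2 (by norm_num)))
  obtain ⟨l, hld⟩ : ∃ l, l = -Real.log s := ⟨_, rfl⟩
  rw [← hld] at hl b1 b2
  rw [show |Real.log s| = l by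
    rw [show Real.log s = -l by rw [hld]; ring, abs_neg, abs_of_pos (by linarith)]]
  have hl0 : 0 < l := by linarith
  have hpi := Real.pi_gt_three
  have hsm : s ≤ 1 := hs1.trans (Real.exp_le_one_iff.2 (by norm_num))
  constructor
  · -- the lower bound
    obtain ⟨A, hA⟩ : ∃ A, A = Real.exp 73 := ⟨_, rfl⟩
    have hA1 : 1 < A := by rw [hA]; exact Real.one_lt_exp_iff.2 (by norm_num)
    have hAs : A * s ≤ Real.exp (-47) := by
      calc A * s ≤ A * Real.exp (-120) := mul_le_mul_of_nonneg_left hs1 (by linarith)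
        _ = Real.exp (-47) := by rw [hA, ← Real.exp_add]; norm_num
    have hAs0 : 0 < A * s := by positivity
    have hAs1 : A * s ≤ 1 := hAs.trans (Real.exp_le_one_iff.2 (by norm_num))
    obtain ⟨-, hm⟩ := mvt hψ hs hA1 (hAs1.trans (by linarith))
    obtain ⟨a1, a2⟩ := eps_bounds hψ hAs0 (hAs.trans (Real.exp_le_exp.2 (by norm_num)))
    have hlog : -Real.log (A * s) = l - 73 := by
      rw [Real.log_mul (by linarith) hs.ne', hA, Real.log_exp, hld]; ring
    rw [hlog] at a1 a2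
    have h1 : LL ^ 2 / (l - 73 + 36) ^ 2 - LL ^ 2 / (l - 36) ^ 2 ≤
        s * ff ψ s * ((A - 1) * A ^ 4) := by linarith
    have h2 : 4 / l ^ 3 ≤ LL ^ 2 / (l - 73 + 36) ^ 2 - LL ^ 2 / (l - 36) ^ 2 := by
      obtain ⟨q, hq⟩ : ∃ q, q = l - 37 := ⟨_, rfl⟩
      have hq0 : 0 < q := by linarith
      have e0 : 1 / (q + 1) ^ 3 ≤ 1 / q ^ 2 - 1 / (q + 1) ^ 2 := by
        have : 1 / q ^ 2 - 1 / (q + 1) ^ 2 - 1 / (q + 1) ^ 3 =
            (q ^ 2 + 3 * q + 1) / (q ^ 2 * (q + 1) ^ 3) := by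
          field_simp
          ring
        have h3 : 0 ≤ (q ^ 2 + 3 * q + 1) / (q ^ 2 * (q + 1) ^ 3) := by positivity
        linarith
      have e1 : LL ^ 2 / (l - 73 + 36) ^ 2 - LL ^ 2 / (l - 36) ^ 2 =
          LL ^ 2 * (1 / q ^ 2 - 1 / (q + 1) ^ 2) := by
        rw [show l - 73 + 36 = q by rw [hq]; ring, show l - 36 = q + 1 by rw [hq]; ring]
        ring
      rw [e1]
      have e2 : 1 / l ^ 3 ≤ 1 / (q + 1) ^ 3 := by
        apply one_div_le_one_div_of_le (by positivity)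
        exact pow_le_pow_left₀ (by positivity) (by linarith) 3
      have e3 : 0 < 1 / l ^ 3 := by positivity
      calc 4 / l ^ 3 = 4 * (1 / l ^ 3) := by ring
        _ ≤ LL ^ 2 * (1 / l ^ 3) := mul_le_mul_of_nonneg_right (by linarith) e3.le
        _ ≤ _ := mul_le_mul_of_nonneg_left (e2.trans e0) (by positivity)
    have hff : 0 ≤ s * ff ψ s := mul_nonneg hs.le (ff_pos hψ hs (by linarith)).le
    have h3 : s * ff ψ s * ((A - 1) * A ^ 4) ≤ s * ff ψ s * Real.exp 365 := by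
      apply mul_le_mul_of_nonneg_left _ hff
      have : Real.exp 365 = A ^ 5 := by rw [hA, ← Real.exp_nat_mul]; norm_num
      rw [this]
      nlinarith [pow_pos (show 0 < A by linarith) 4]
    have h4 : 4 / l ^ 3 ≤ s * ff ψ s * Real.exp 365 := h2.trans (h1.trans h3)
    have h5 : Real.exp (-365) * Real.exp 365 = 1 := by rw [← Real.exp_add]; norm_num
    calc 4 * Real.exp (-365) / l ^ 3 = (4 / l ^ 3) * Real.exp (-365) := by ring
      _ ≤ (s * ff ψ s * Real.exp 365) * Real.exp (-365) :=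
        mul_le_mul_of_nonneg_right h4 (Real.exp_pos _).le
      _ = s * ff ψ s * (Real.exp (-365) * Real.exp 365) := by ring
      _ = _ := by rw [h5, mul_one]
  · -- the upper bound
    have hs2 : 2 * s ≤ Real.exp (-39) := by
      have h1 : s ≤ Real.exp (-40) := hs1.trans (Real.exp_le_exp.2 (by norm_num))
      have h2 : 2 * Real.exp (-40) ≤ Real.exp (-39) := by
        have h3 : Real.exp (-39) = Real.exp 1 * Real.exp (-40) := by
          rw [← Real.exp_add]; norm_num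
        rw [h3]
        apply mul_le_mul_of_nonneg_right _ (Real.exp_pos _).le
        linarith [Real.exp_one_gt_d9]
      linarith
    have hs21 : 2 * s ≤ 1 := hs2.trans (Real.exp_le_one_iff.2 (by norm_num))
    obtain ⟨hm, -⟩ := mvt hψ hs (a := 2) (by norm_num) (hs21.trans (by linarith))
    obtain ⟨a1, a2⟩ := eps_bounds hψ (show 0 < 2 * s by linarith) hs2
    have hlog : -Real.log (2 * s) = l - Real.log 2 := by
      rw [Real.log_mul (by norm_num) hs.ne', hld]; ring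
    rw [hlog] at a1 a2
    have hlg := Real.log_two_lt_d9
    have hlg0 := Real.log_two_gt_d9
    obtain ⟨p, hp⟩ : ∃ p, p = l - 37 := ⟨_, rfl⟩
    have hp0 : 0 < p := by linarith
    have c1 : LL ^ 2 / (l - Real.log 2 - 36) ^ 2 ≤ LL ^ 2 / p ^ 2 := by
      apply div_le_div_of_nonneg_left (by positivity) (by positivity)
      exact pow_le_pow_left₀ hp0.le (by linarith) 2
    have c2 : LL ^ 2 / (l + 36) ^ 2 = LL ^ 2 / (p + 73) ^ 2 := by
      rw [show l + 36 = p + 73 by rw [hp]; ring]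
    have c3 : LL ^ 2 / p ^ 2 - LL ^ 2 / (p + 73) ^ 2 ≤ 146 * LL ^ 2 / p ^ 3 := by
      have : 146 * LL ^ 2 / p ^ 3 - (LL ^ 2 / p ^ 2 - LL ^ 2 / (p + 73) ^ 2) =
          LL ^ 2 * (15987 * p + 778034) / (p ^ 3 * (p + 73) ^ 2) := by
        field_simp
        ring
      have h3 : 0 ≤ LL ^ 2 * (15987 * p + 778034) / (p ^ 3 * (p + 73) ^ 2) := by positivity
      linarith
    have c4 : 146 * LL ^ 2 / p ^ 3 ≤ 5700 / l ^ 3 := by
      rw [div_le_div_iff₀ (by positivity) (by positivity)]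
      have h2p : l ≤ 2 * p := by linarith
      have h3 : l ^ 3 ≤ 8 * p ^ 3 := by
        calc l ^ 3 ≤ (2 * p) ^ 3 := pow_le_pow_left₀ hl0.le h2p 3
          _ = _ := by ring
      have h4 : 0 < l ^ 3 := by positivity
      nlinarith
    have c5 : s * ff ψ s * ((2 - 1) / 2 ^ 4) ≤ 5700 / l ^ 3 := by linarith
    have c6 : s * ff ψ s ≤ 16 * (5700 / l ^ 3) := by linarith
    have c7 : 16 * (5700 / l ^ 3) ≤ 100000 / l ^ 3 := by
      rw [← mul_div_assoc]
      apply div_le_div_of_nonneg_right _ (by positivity)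
      norm_num
    exact c6.trans c7

end Pool.Agent.T6.H4.Cusp
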