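import Pool.Agent.T6.H4.Cusp.Stolz

set_option autoImplicit false

/-! # The limit of the exterior map at the cusp -/

open Complex Metric Set Filter Topology Pool.Agent.H712R2 Pool.Agent.H713R2 N62a1eb23

namespace Pool.Agent.T6.H4.Cusp

variable {ψ : ℂ → ℂ}

/-- `N - π / √(ψ (exp (τ / 2 ^ N)) - 1 / 4)` -/
noncomputable def SN (ψ : ℂ → ℂ) (N : ℕ) (τ : ℂ) : ℂ := (N : ℂ) - xi ψ (τ / 2 ^ N)

theorem cast_div (τ : ℝ) (N : ℕ) : (τ : ℂ) / 2 ^ N = ((τ / 2 ^ N : ℝ) : ℂ) := by push_cast; rfl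

theorem SN_real (hψ : IsExteriorMap (multibrotSet 2) ψ) (N : ℕ) {τ : ℝ} (hτ : 0 < τ) :
    SN ψ N (τ : ℂ) = (sN ψ N τ : ℝ) := by
  rw [SN, cast_div, xi_real hψ (by positivity), sN]
  push_cast
  rfl

theorem xi_diffAt (hψ : IsExteriorMap (multibrotSet 2) ψ) {t : ℂ} (h0 : 0 < t.re)
    (h1 : 0 < (Fe ψ t - 1 / 4).re) : DifferentiableAt ℂ (xi ψ) t := by
  have h2 : DifferentiableAt ℂ (fun t => Fe ψ t - 1 / 4) t := (Fe_diffAt hψ h0).sub_const _
  have h3 : DifferentiableAt ℂ (fun t => (Fe ψ t - 1 / 4) ^ (1 / 2 : ℂ)) t :=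
    h2.cpow (differentiableAt_const _) (Or.inl h1)
  refine (differentiableAt_const _).div h3 ?_
  intro h
  have := half_re_pos h1
  rw [h] at this
  simp at this

theorem SN_rel (ψ : ℂ → ℂ) (N : ℕ) (τ : ℂ) :
    ψ (Complex.exp (τ / 2 ^ N)) = 1 / 4 + (Real.pi : ℂ) ^ 2 / ((N : ℂ) - SN ψ N τ) ^ 2 := by
  have h1 : (N : ℂ) - SN ψ N τ = xi ψ (τ / 2 ^ N) := by rw [SN]; ring
  have hpi : (Real.pi : ℂ) ≠ 0 := by exact_mod_cast Real.pi_ne_zero
  have h2 : (Real.pi : ℂ) ^ 2 / (xi ψ (τ / 2 ^ N)) ^ 2 = Fe ψ (τ / 2 ^ N) - 1 / 4 := by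
    rw [xi, div_pow]
    by_cases h : Fe ψ (τ / 2 ^ N) - 1 / 4 = 0
    · rw [h, Complex.zero_cpow (by norm_num)]
      simp
    · rw [half_sq h]
      field_simp
  rw [h1, h2, Fe]
  ring

theorem pow2_re (τ : ℂ) (N : ℕ) : (τ / 2 ^ N).re = τ.re / 2 ^ N ∧ (τ / 2 ^ N).im = τ.im / 2 ^ N := by
  have : (2 : ℂ) ^ N = ((2 ^ N : ℝ) : ℂ) := by push_cast; rfl
  rw [this]
  exact ⟨Complex.div_ofReal_re _ _, Complex.div_ofReal_im _ _⟩

theorem SN_ball (hψ : IsExteriorMap (multibrotSet 2) ψ) {a r : ℝ} (hr : 0 < r) (hra : r < a) :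
    ∃ (N0 : ℕ) (B : ℝ), ∀ N ≥ N0, DifferentiableOn ℂ (SN ψ N) (ball (a : ℂ) r) ∧
      ∀ τ ∈ ball (a : ℂ) r, ‖SN ψ N τ‖ ≤ B := by
  have hκ : 0 ≤ r / (a - r) := div_nonneg hr.le (by linarith)
  obtain ⟨ρ, C, hρ, hρ1, hC, hst⟩ := xi_stolz hψ hκ
  obtain ⟨N0, hN0⟩ := eventually_atTop.1 (tau_small (a + r) hρ)
  have hmem : ∀ τ ∈ ball (a : ℂ) r, a - r < τ.re ∧ τ.re < a + r ∧ |τ.im| ≤ r / (a - r) * τ.re := by
    intro τ hτ
    rw [mem_ball, dist_eq_norm] at hτ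
    have h1 := (Complex.abs_re_le_norm (τ - a)).trans_lt hτ
    have h2 := (Complex.abs_im_le_norm (τ - a)).trans_lt hτ
    rw [Complex.sub_re, Complex.ofReal_re, abs_lt] at h1
    rw [Complex.sub_im, Complex.ofReal_im, sub_zero] at h2
    refine ⟨by linarith [h1.1], by linarith [h1.2], h2.le.trans ?_⟩
    have h3 : a - r ≤ τ.re := by linarith [h1.1]
    have h4 : 0 < a - r := by linarith
    rw [div_mul_eq_mul_div, le_div_iff₀ h4]
    exact mul_le_mul_of_nonneg_left h3 hr.le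
  have hkey : ∀ N ≥ N0, ∀ τ ∈ ball (a : ℂ) r, 0 < (τ / 2 ^ N).re ∧
      (τ / 2 ^ N).re ≤ ρ ∧ |(τ / 2 ^ N).im| ≤ r / (a - r) * (τ / 2 ^ N).re := by
    intro N hN τ hτ
    obtain ⟨h1, h2, h3⟩ := hmem τ hτ
    rw [(pow2_re τ N).1, (pow2_re τ N).2]
    have hp : (0 : ℝ) < 2 ^ N := by positivity
    refine ⟨div_pos (by linarith) hp, ?_, ?_⟩
    · refine le_trans ?_ (hN0 N hN)
      exact div_le_div_of_nonneg_right h2.le hp.le
    · rw [abs_div, abs_of_pos hp, ← mul_div_assoc]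
      exact div_le_div_of_nonneg_right h3 hp.le
  refine ⟨N0, |Real.log (a - r)| / Real.log 2 + |Real.log (a + r)| / Real.log 2 + 52 + C, ?_⟩
  intro N hN
  constructor
  · intro τ hτ
    obtain ⟨h1, h2, h3⟩ := hkey N hN τ hτ
    have h4 := xi_diffAt hψ h1 (hst _ h1 h2 h3).1
    apply DifferentiableAt.differentiableWithinAt
    have h5 : DifferentiableAt ℂ (fun τ : ℂ => τ / 2 ^ N) τ := by fun_prop
    exact (differentiableAt_const _).sub
      (DifferentiableAt.comp (g := xi ψ) (f := fun τ : ℂ => τ / 2 ^ N) τ h4 h5)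
  · intro τ hτ
    obtain ⟨h1, h2, h3⟩ := hkey N hN τ hτ
    obtain ⟨m1, m2, m3⟩ := hmem τ hτ
    have h4 := (hst _ h1 h2 h3).2
    have hτ0 : 0 < τ.re := by linarith
    have h5 : xi ψ (((τ / 2 ^ N).re : ℝ) : ℂ) = (N : ℂ) - (sN ψ N τ.re : ℝ) := by
      have := SN_real hψ N hτ0
      rw [← this, SN, cast_div, (pow2_re τ N).1]
      ring
    rw [h5] at h4
    have h6 : τ.re / 2 ^ N ≤ Real.exp (-39) := by
      have : τ.re / 2 ^ N ≤ ρ := by rw [← (pow2_re τ N).1]; exact h2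
      exact this.trans (hρ1.trans (Real.exp_le_exp.2 (by norm_num)))
    have h7 := sN_bound hψ hτ0 h6
    have hl2 : 0 < Real.log 2 := Real.log_pos (by norm_num)
    have h8 : |Real.log τ.re| ≤ |Real.log (a - r)| + |Real.log (a + r)| := by
      have g1 : Real.log (a - r) ≤ Real.log τ.re := Real.log_le_log (by linarith) m1.le
      have g2 : Real.log τ.re ≤ Real.log (a + r) := Real.log_le_log hτ0 m2.le
      rw [abs_le]
      have g3 := neg_abs_le (Real.log (a - r))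
      have g4 := le_abs_self (Real.log (a + r))
      have g5 := abs_nonneg (Real.log (a - r))
      have g6 := abs_nonneg (Real.log (a + r))
      constructor <;> linarith
    have h9 : |Real.log τ.re / Real.log 2| ≤
        |Real.log (a - r)| / Real.log 2 + |Real.log (a + r)| / Real.log 2 := by
      rw [abs_div, abs_of_pos hl2, ← add_div]
      exact div_le_div_of_nonneg_right h8 hl2.le
    have h10 : ‖((sN ψ N τ.re : ℝ) : ℂ)‖ ≤
        |Real.log (a - r)| / Real.log 2 + |Real.log (a + r)| / Real.log 2 + 52 := by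
      rw [Complex.norm_real, Real.norm_eq_abs]
      have := abs_sub_abs_le_abs_sub (sN ψ N τ.re) (Real.log τ.re / Real.log 2)
      linarith
    have h11 : SN ψ N τ = (sN ψ N τ.re : ℝ) - (xi ψ (τ / 2 ^ N) - ((N : ℂ) - (sN ψ N τ.re : ℝ))) := by
      rw [SN]; ring
    rw [h11]
    exact (norm_sub_le _ _).trans (add_le_add h10 h4)

theorem ball_lim (hψ : IsExteriorMap (multibrotSet 2) ψ) {a r : ℝ} (hr : 0 < r) (hra : r < a) :
    ∃ G : ℂ → ℂ, DifferentiableOn ℂ G (ball (a : ℂ) r) ∧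
      TendstoLocallyUniformlyOn (SN ψ) G atTop (ball (a : ℂ) r) := by
  obtain ⟨L, l, hL⟩ := exists_lav
  obtain ⟨N0, B, hB⟩ := SN_ball hψ hr hra
  have hex : ∀ t : ℝ, ∃ g : ℂ, |t| < r → Tendsto (fun N => SN ψ N ((a + t : ℝ) : ℂ)) atTop (𝓝 g) := by
    intro t
    by_cases ht : |t| < r
    · have h1 : 0 < a + t := by rw [abs_lt] at ht; linarith [ht.1]
      obtain ⟨g, hg, -⟩ := real_lim hψ hL h1
      refine ⟨g, fun _ => ?_⟩
      simp only [SN_real hψ _ h1]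
      exact (Complex.continuous_ofReal.tendsto _).comp hg
    · exact ⟨0, fun h => absurd h ht⟩
  choose g hg using hex
  have hmaps : ∀ z ∈ ball (0 : ℂ) r, (a : ℂ) + z ∈ ball (a : ℂ) r := by
    intro z hz
    rw [mem_ball_zero_iff] at hz
    rw [mem_ball, dist_eq_norm, add_sub_cancel_left]
    exact hz
  obtain ⟨G, hG1, -, -, hG2⟩ := Pool.Agent.Helper118.Yud.vitali_real r B hr
    (fun n z => SN ψ (n + N0) (a + z))
    (fun n => ((hB (n + N0) (by omega)).1).comp (by fun_prop) hmaps)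
    (fun n z hz => (hB (n + N0) (by omega)).2 _ (hmaps z hz)) g
    (fun t ht => by
      have h1 := (tendsto_add_atTop_iff_nat N0).2 (hg t ht)
      refine h1.congr fun n => ?_
      push_cast
      rfl)
  have hmaps' : ∀ z ∈ ball (a : ℂ) r, z - a ∈ ball (0 : ℂ) r := by
    intro z hz
    rw [mem_ball, dist_eq_norm] at hz
    rw [mem_ball_zero_iff]
    exact hz
  refine ⟨fun τ => G (τ - a), hG1.comp (by fun_prop) hmaps', ?_⟩
  have h2 := hG2.comp (fun τ : ℂ => τ - a) hmaps' (by fun_prop)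
  intro u hu x hx
  obtain ⟨t, ht, h1⟩ := h2 u hu x hx
  refine ⟨t, ht, ?_⟩
  rw [← Filter.map_add_atTop_eq_nat N0, Filter.eventually_map]
  filter_upwards [h1] with n hn y hy
  have := hn y hy
  simpa using this

theorem exists_ball {τ : ℂ} (hτ : 0 < τ.re) : ∃ a r : ℝ, 0 < r ∧ r < a ∧ τ ∈ ball (a : ℂ) r := by
  obtain ⟨a, ha⟩ : ∃ a, a = ‖τ‖ ^ 2 / τ.re := ⟨_, rfl⟩
  have hn : 0 < ‖τ‖ := by
    have := Complex.re_le_norm τ
    linarith
  have ha0 : 0 < a := by rw [ha]; positivity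
  have h1 : a * τ.re = ‖τ‖ ^ 2 := by rw [ha]; field_simp
  have h2 : ‖τ - a‖ ^ 2 < a ^ 2 := by
    have e1 : ‖τ - a‖ ^ 2 = ‖τ‖ ^ 2 - 2 * (a * τ.re) + a ^ 2 := by
      rw [← Complex.normSq_eq_norm_sq, ← Complex.normSq_eq_norm_sq, Complex.normSq_apply,
        Complex.normSq_apply]
      simp
      ring
    rw [e1, h1]
    have : 0 < ‖τ‖ ^ 2 := by positivity
    linarith
  have h3 : ‖τ - a‖ < a := lt_of_pow_lt_pow_left₀ 2 ha0.le h2
  have h4 := norm_nonneg (τ - a)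
  refine ⟨a, (a + ‖τ - a‖) / 2, by linarith, by linarith, ?_⟩
  rw [mem_ball, dist_eq_norm]
  linarith

theorem ball_sub' {a r : ℝ} (hra : r < a) : ball (a : ℂ) r ⊆ {t : ℂ | 0 < t.re} :=
  ball_sub (z := (a : ℂ)) (by rw [Complex.ofReal_re]; exact hra.le)

/-- **the limit of the exterior map at the cusp** -/
theorem main_lim (hψ : IsExteriorMap (multibrotSet 2) ψ) :
    ∃ χ : ℂ → ℂ, DifferentiableOn ℂ χ {τ : ℂ | 0 < τ.re} ∧
      TendstoLocallyUniformlyOn (SN ψ) χ atTop {τ : ℂ | 0 < τ.re} := by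
  classical
  have hex : ∀ τ : ℂ, ∃ x : ℂ, 0 < τ.re → Tendsto (fun N => SN ψ N τ) atTop (𝓝 x) := by
    intro τ
    by_cases hτ : 0 < τ.re
    · obtain ⟨a, r, hr, hra, hm⟩ := exists_ball hτ
      obtain ⟨G, -, hG⟩ := ball_lim hψ hr hra
      exact ⟨G τ, fun _ => hG.tendsto_at hm⟩
    · exact ⟨0, fun h => absurd h hτ⟩
  choose χ hχ using hex
  have heq : ∀ {a r : ℝ} {G : ℂ → ℂ}, r < a →
      TendstoLocallyUniformlyOn (SN ψ) G atTop (ball (a : ℂ) r) → ∀ z ∈ ball (a : ℂ) r,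
      G z = χ z := by
    intro a r G hra hG z hz
    exact tendsto_nhds_unique (hG.tendsto_at hz) (hχ z (ball_sub' hra hz))
  refine ⟨χ, ?_, ?_⟩
  · intro τ hτ
    obtain ⟨a, r, hr, hra, hm⟩ := exists_ball hτ
    obtain ⟨G, hG1, hG⟩ := ball_lim hψ hr hra
    apply DifferentiableAt.differentiableWithinAt
    have h1 := hG1.differentiableAt (isOpen_ball.mem_nhds hm)
    refine h1.congr_of_eventuallyEq ?_
    filter_upwards [isOpen_ball.mem_nhds hm] with z hz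
    exact (heq hra hG z hz).symm
  · intro u hu τ hτ
    obtain ⟨a, r, hr, hra, hm⟩ := exists_ball hτ
    obtain ⟨G, hG1, hG⟩ := ball_lim hψ hr hra
    obtain ⟨t, ht, h1⟩ := hG u hu τ hm
    refine ⟨t ∩ ball (a : ℂ) r, ?_, ?_⟩
    · rw [isOpen_ball.nhdsWithin_eq hm] at ht
      exact mem_nhdsWithin_of_mem_nhds (inter_mem ht (isOpen_ball.mem_nhds hm))
    · filter_upwards [h1] with N hN y hy
      rw [← heq hra hG y hy.2]
      exact hN y hy.1

end Pool.Agent.T6.H4.Cusp
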