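import Pool.Agent.T6.H4.Cusp.Ray
import Pool.Agent.H792R2.SS.KB
import Pool.Agent.H637R4.PO.QT

set_option autoImplicit false

/-! # Distortion along the ray -/

open Complex Metric Set Filter Topology Pool.Agent.H712R2 Pool.Agent.H713R2 N62a1eb23

namespace Pool.Agent.T6.H4.Cusp

/-- the exterior map in the logarithmic coordinate -/
noncomputable def Fe (ψ : ℂ → ℂ) (t : ℂ) : ℂ := ψ (Complex.exp t)

variable {ψ : ℂ → ℂ}

theorem exp_mem {t : ℂ} (ht : 0 < t.re) : 1 < ‖Complex.exp t‖ := by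
  rw [Complex.norm_exp]; exact Real.one_lt_exp_iff.2 ht

theorem isOpen_re : IsOpen {t : ℂ | 0 < t.re} := isOpen_lt continuous_const Complex.continuous_re

theorem Fe_diffAt (hψ : IsExteriorMap (multibrotSet 2) ψ) {t : ℂ} (ht : 0 < t.re) :
    DifferentiableAt ℂ (Fe ψ) t := by
  have h1 : DifferentiableAt ℂ ψ (Complex.exp t) :=
    hψ.diff.differentiableAt (isOpen_ext.mem_nhds (exp_mem ht))
  exact DifferentiableAt.comp (g := ψ) t h1 Complex.differentiableAt_exp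

theorem Fe_diff (hψ : IsExteriorMap (multibrotSet 2) ψ) :
    DifferentiableOn ℂ (Fe ψ) {t : ℂ | 0 < t.re} := fun _ ht =>
  (Fe_diffAt hψ ht).differentiableWithinAt

theorem ball_sub {z : ℂ} {r : ℝ} (hr : r ≤ z.re) : ball z r ⊆ {t : ℂ | 0 < t.re} := by
  intro t ht
  rw [mem_ball, dist_eq_norm] at ht
  have h1 := (Complex.abs_re_le_norm (t - z)).trans_lt ht
  rw [Complex.sub_re, abs_lt] at h1
  show 0 < t.re
  linarith [h1.1]

theorem Fe_inj (hψ : IsExteriorMap (multibrotSet 2) ψ) {z : ℂ} {r : ℝ} (hr : r ≤ z.re)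
    (hrp : r ≤ Real.pi) : InjOn (Fe ψ) (ball z r) := by
  intro a ha b hb hab
  have h1 := hψ.inj (exp_mem (ball_sub hr ha)) (exp_mem (ball_sub hr hb)) hab
  rw [Complex.exp_eq_exp_iff_exists_int] at h1
  obtain ⟨n, hn⟩ := h1
  rw [mem_ball, dist_eq_norm] at ha hb
  have h2 : ‖a - b‖ < 2 * Real.pi := by
    have : a - b = (a - z) - (b - z) := by ring
    rw [this]
    have := norm_sub_le (a - z) (b - z)
    linarith
  rw [hn, add_sub_cancel_left, norm_mul, norm_mul, norm_mul, Complex.norm_I,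
    Complex.norm_real, Real.norm_eq_abs, abs_of_pos Real.pi_pos, Complex.norm_intCast] at h2
  have h2' : |(n : ℝ)| < 1 := by
    have h3 : |(n : ℝ)| * (2 * Real.pi) < 1 * (2 * Real.pi) := by simpa using h2
    exact lt_of_mul_lt_mul_right h3 (by positivity)
  have h4 : n = 0 := by
    rw [← Int.cast_abs] at h2'
    have h5 : |n| < 1 := by exact_mod_cast h2'
    exact Int.abs_lt_one_iff.1 h5
  rw [hn, h4]
  simp

theorem Fe_d1 (hψ : IsExteriorMap (multibrotSet 2) ψ) {t : ℂ} (ht : 0 < t.re) :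
    HasDerivAt (Fe ψ) (deriv (Fe ψ) t) t := (Fe_diffAt hψ ht).hasDerivAt

theorem Fe_d2 (hψ : IsExteriorMap (multibrotSet 2) ψ) {t : ℂ} (ht : 0 < t.re) :
    HasDerivAt (deriv (Fe ψ)) (deriv (deriv (Fe ψ)) t) t :=
  (((Fe_diff hψ).deriv isOpen_re).differentiableAt (isOpen_re.mem_nhds ht)).hasDerivAt

/-- Koebe distortion in the half plane -/
theorem koebe (hψ : IsExteriorMap (multibrotSet 2) ψ) {t : ℂ} (ht : 0 < t.re)
    (htp : t.re ≤ Real.pi) :
    deriv (Fe ψ) t ≠ 0 ∧ t.re * ‖deriv (deriv (Fe ψ)) t‖ ≤ 4 * ‖deriv (Fe ψ) t‖ :=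
  Pool.Agent.H792R2.SS.t_KB (Fe ψ) t t.re ht ((Fe_diff hψ).mono (ball_sub le_rfl))
    (Fe_inj hψ le_rfl htp)

theorem quarter (hψ : IsExteriorMap (multibrotSet 2) ψ) {t v : ℂ} (ht : 0 < t.re)
    (htp : t.re ≤ Real.pi) (hv : v ∈ multibrotSet 2) :
    t.re * ‖deriv (Fe ψ) t‖ ≤ 4 * ‖v - Fe ψ t‖ := by
  refine Pool.Agent.H637R4.PO.t_QT Pool.Agent.H792R2.SS.t_KB (Fe ψ) t v t.re ht
    ((Fe_diff hψ).mono (ball_sub le_rfl)) (Fe_inj hψ le_rfl htp) ?_
  rintro ⟨u, hu, rfl⟩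
  exact not_mem hψ (exp_mem (ball_sub le_rfl hu)) hv

/-- derivative along the ray -/
noncomputable def ff (ψ : ℂ → ℂ) (s : ℝ) : ℝ := (deriv (Fe ψ) (s : ℂ)).re

theorem Fe_real (s : ℝ) : Fe ψ (s : ℂ) = ψ ((Real.exp s : ℝ) : ℂ) := by
  rw [Fe, Complex.ofReal_exp]

theorem Rr_deriv (hψ : IsExteriorMap (multibrotSet 2) ψ) {s : ℝ} (hs : 0 < s) :
    HasDerivAt (Rr ψ) (ff ψ s) s := by
  have h1 := (Fe_d1 hψ (t := (s : ℂ)) (by simpa using hs)).real_of_complex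
  refine h1.congr_of_eventuallyEq (Eventually.of_forall fun x => ?_)
  simp only [Rr, Fe_real]

theorem ff_deriv (hψ : IsExteriorMap (multibrotSet 2) ψ) {s : ℝ} (hs : 0 < s) :
    HasDerivAt (ff ψ) ((deriv (deriv (Fe ψ)) (s : ℂ)).re) s :=
  (Fe_d2 hψ (t := (s : ℂ)) (by simpa using hs)).real_of_complex

theorem d_im (hψ : IsExteriorMap (multibrotSet 2) ψ) {s : ℝ} (hs : 0 < s) :
    (deriv (Fe ψ) (s : ℂ)).im = 0 := by
  have h1 := (Fe_d1 hψ (t := (s : ℂ)) (by simpa using hs)).comp_ofReal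
  have h2 : HasDerivAt (fun x : ℝ => (Fe ψ (x : ℂ)).im) ((deriv (Fe ψ) (s : ℂ)).im) s := by
    exact (Complex.imCLM.hasFDerivAt (x := Fe ψ (s : ℂ))).comp_hasDerivAt s h1
  have h3 : HasDerivAt (fun x : ℝ => (Fe ψ (x : ℂ)).im) 0 s := by
    refine (hasDerivAt_const s (0 : ℝ)).congr_of_eventuallyEq ?_
    filter_upwards [lt_mem_nhds hs] with x hx
    rw [Fe_real]
    exact psi_im hψ (one_lt_norm (Real.one_lt_exp_iff.2 hx))
  exact h2.unique h3

theorem ff_pos (hψ : IsExteriorMap (multibrotSet 2) ψ) {s : ℝ} (hs : 0 < s)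
    (hsp : s ≤ Real.pi) : 0 < ff ψ s := by
  have h1 : ff ψ s ≠ 0 := by
    intro h
    have h2 := (koebe hψ (t := (s : ℂ)) (by simpa using hs) (by simpa using hsp)).1
    exact h2 (Complex.ext h (d_im hψ hs))
  have h2 : 0 ≤ ff ψ s := by
    have h3 := (Rr_deriv hψ hs).tendsto_slope
    have h4 : Tendsto (slope (Rr ψ) s) (𝓝[>] s) (𝓝 (ff ψ s)) :=
      h3.mono_left (nhdsWithin_mono _ fun x hx => ne_of_gt hx)
    refine ge_of_tendsto h4 ?_
    filter_upwards [self_mem_nhdsWithin] with x hx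
    rw [slope_def_field]
    have hx' : s < x := hx
    have := Rr_mono hψ hs hx'
    exact div_nonneg (by linarith) (by linarith)
  exact lt_of_le_of_ne h2 (Ne.symm h1)

theorem norm_d (hψ : IsExteriorMap (multibrotSet 2) ψ) {s : ℝ} (hs : 0 < s)
    (hsp : s ≤ Real.pi) : ‖deriv (Fe ψ) (s : ℂ)‖ = ff ψ s := by
  have h1 : deriv (Fe ψ) (s : ℂ) = (ff ψ s : ℂ) :=
    Complex.ext (by simp [ff]) (by simpa using d_im hψ hs)
  rw [h1, Complex.norm_real, Real.norm_eq_abs, abs_of_pos (ff_pos hψ hs hsp)]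

theorem ff_log (hψ : IsExteriorMap (multibrotSet 2) ψ) {s : ℝ} (hs : 0 < s)
    (hsp : s ≤ Real.pi) : |s * (deriv (deriv (Fe ψ)) (s : ℂ)).re| ≤ 4 * ff ψ s := by
  have h1 := (koebe hψ (t := (s : ℂ)) (by simpa using hs) (by simpa using hsp)).2
  rw [norm_d hψ hs hsp, Complex.ofReal_re] at h1
  rw [abs_mul, abs_of_pos hs]
  exact (mul_le_mul_of_nonneg_left (Complex.abs_re_le_norm _) hs.le).trans h1

theorem ff_up (hψ : IsExteriorMap (multibrotSet 2) ψ) {s t : ℝ} (hs : 0 < s) (hst : s ≤ t)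
    (htp : t ≤ Real.pi) : s ^ 4 * ff ψ s ≤ t ^ 4 * ff ψ t := by
  have hpos : ∀ x ∈ Icc s t, 0 < x := fun x hx => hs.trans_le hx.1
  have hd : ∀ x ∈ Icc s t, HasDerivAt (fun x => x ^ 4 * ff ψ x)
      (4 * x ^ 3 * ff ψ x + x ^ 4 * (deriv (deriv (Fe ψ)) (x : ℂ)).re) x := fun x hx => by
    have h1 := (hasDerivAt_pow 4 x).mul (ff_deriv hψ (hpos x hx))
    refine h1.congr_deriv ?_
    norm_num
  have hm : MonotoneOn (fun x => x ^ 4 * ff ψ x) (Icc s t) := by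
    refine monotoneOn_of_deriv_nonneg (convex_Icc s t)
      (fun x hx => (hd x hx).continuousAt.continuousWithinAt)
      (fun x hx => (hd x (interior_subset hx)).differentiableAt.differentiableWithinAt)
      fun x hx => ?_
    have hx' := interior_subset hx
    rw [(hd x hx').deriv]
    have h1 := ff_log hψ (hpos x hx') (hx'.2.trans htp)
    have h2 := (abs_le.1 h1).1
    have h3 : 0 ≤ x ^ 3 := pow_nonneg (hpos x hx').le 3
    nlinarith
  exact hm (left_mem_Icc.2 hst) (right_mem_Icc.2 hst) hst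

theorem ff_down (hψ : IsExteriorMap (multibrotSet 2) ψ) {s t : ℝ} (hs : 0 < s) (hst : s ≤ t)
    (htp : t ≤ Real.pi) : s ^ 4 * ff ψ t ≤ t ^ 4 * ff ψ s := by
  have hpos : ∀ x ∈ Icc s t, 0 < x := fun x hx => hs.trans_le hx.1
  have hd : ∀ x ∈ Icc s t, HasDerivAt (fun x => ff ψ x / x ^ 4)
      (((deriv (deriv (Fe ψ)) (x : ℂ)).re * x ^ 4 - ff ψ x * (4 * x ^ 3)) / (x ^ 4) ^ 2) x :=
    fun x hx => by
      have h1 := (ff_deriv hψ (hpos x hx)).div (hasDerivAt_pow 4 x) (pow_ne_zero 4 (hpos x hx).ne')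
      refine h1.congr_deriv ?_
      norm_num
  have hm : AntitoneOn (fun x => ff ψ x / x ^ 4) (Icc s t) := by
    refine antitoneOn_of_deriv_nonpos (convex_Icc s t)
      (fun x hx => (hd x hx).continuousAt.continuousWithinAt)
      (fun x hx => (hd x (interior_subset hx)).differentiableAt.differentiableWithinAt)
      fun x hx => ?_
    have hx' := interior_subset hx
    rw [(hd x hx').deriv]
    have h1 := ff_log hψ (hpos x hx') (hx'.2.trans htp)
    have h2 := (abs_le.1 h1).2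
    have h3 : 0 ≤ x ^ 3 := pow_nonneg (hpos x hx').le 3
    apply div_nonpos_of_nonpos_of_nonneg _ (by positivity)
    nlinarith
  have h1 := hm (left_mem_Icc.2 hst) (right_mem_Icc.2 hst) hst
  simp only at h1
  rw [div_le_div_iff₀ (pow_pos (hs.trans_le hst) 4) (pow_pos hs 4)] at h1
  linarith

/-- mean value on `[s, a s]` -/
theorem mvt (hψ : IsExteriorMap (multibrotSet 2) ψ) {s a : ℝ} (hs : 0 < s) (ha : 1 < a)
    (hap : a * s ≤ Real.pi) : s * ff ψ s * ((a - 1) / a ^ 4) ≤ Rr ψ (a * s) - Rr ψ s ∧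
      Rr ψ (a * s) - Rr ψ s ≤ s * ff ψ s * ((a - 1) * a ^ 4) := by
  have has : s < a * s := by nlinarith
  obtain ⟨x, hx, hxe⟩ := exists_hasDerivAt_eq_slope (Rr ψ) (ff ψ) has
    (fun x hx => (Rr_deriv hψ (hs.trans_le hx.1)).continuousAt.continuousWithinAt)
    (fun x hx => Rr_deriv hψ (hs.trans hx.1))
  have hsp : s ≤ Real.pi := has.le.trans hap
  have hxp : x ≤ Real.pi := hx.2.le.trans hap
  have h0 : Rr ψ (a * s) - Rr ψ s = s * (a - 1) * ff ψ x := by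
    have h9 : s * (a - 1) ≠ 0 := (mul_pos hs (by linarith)).ne'
    rw [hxe, show a * s - s = s * (a - 1) by ring, mul_div_cancel₀ _ h9]
  have hx0 : 0 < x := hs.trans hx.1
  have hfs := ff_pos hψ hs hsp
  have hfx := ff_pos hψ hx0 hxp
  have h1 := ff_up hψ hs hx.1.le hxp
  have h2 := ff_down hψ hs hx.1.le hxp
  have hx4 : x ^ 4 ≤ (a * s) ^ 4 := pow_le_pow_left₀ hx0.le hx.2.le 4
  have h3 : ff ψ s ≤ a ^ 4 * ff ψ x := by
    have : s ^ 4 * ff ψ s ≤ s ^ 4 * (a ^ 4 * ff ψ x) := by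
      calc s ^ 4 * ff ψ s ≤ x ^ 4 * ff ψ x := h1
        _ ≤ (a * s) ^ 4 * ff ψ x := mul_le_mul_of_nonneg_right hx4 hfx.le
        _ = _ := by ring
    exact le_of_mul_le_mul_left this (by positivity)
  have h4 : ff ψ x ≤ a ^ 4 * ff ψ s := by
    have : s ^ 4 * ff ψ x ≤ s ^ 4 * (a ^ 4 * ff ψ s) := by
      calc s ^ 4 * ff ψ x ≤ x ^ 4 * ff ψ s := h2
        _ ≤ (a * s) ^ 4 * ff ψ s := mul_le_mul_of_nonneg_right hx4 hfs.le
        _ = _ := by ring
    exact le_of_mul_le_mul_left this (by positivity)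
  rw [h0]
  have ha4 : 0 < a ^ 4 := by positivity
  have hsa : 0 ≤ s * (a - 1) := mul_nonneg hs.le (by linarith)
  constructor
  · have h5 : s * ff ψ s * ((a - 1) / a ^ 4) = s * (a - 1) * (ff ψ s / a ^ 4) := by
      field_simp
    rw [h5]
    apply mul_le_mul_of_nonneg_left _ hsa
    rw [div_le_iff₀ ha4]
    linarith
  · calc s * (a - 1) * ff ψ x ≤ s * (a - 1) * (a ^ 4 * ff ψ s) :=
        mul_le_mul_of_nonneg_left h4 hsa
      _ = _ := by ring

end Pool.Agent.T6.H4.Cusp
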