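import Pool.Agent.T6.H4.Cusp.Lim
import Pool.Agent.T6.H49.LC.LCE

set_option autoImplicit false

/-! # Geometry of the Mandelbrot set at the cusp -/

open Complex Metric Set Filter Topology Pool.Agent.H712R2 Pool.Agent.H713R2 N62a1eb23

namespace Pool.Agent.T6.H4.Cusp

variable {ψ : ℂ → ℂ}

/-- `1 / 4 + ε` lies outside `M` -/
theorem not_mem_real {ε : ℝ} (hε : 0 < ε) (hε1 : ε ≤ 1) :
    ((1 / 4 + ε : ℝ) : ℂ) ∉ multibrotSet 2 := by
  obtain ⟨N, hN1, hN3, -⟩ := exists_N hε hε1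
  rw [mem_multibrot_iff le_rfl]
  push Not
  refine ⟨N + 2, ?_⟩
  rw [P_eq, Complex.norm_real, Real.norm_eq_abs]
  have h1 : 2 ≤ y ε (N + 1) := by rw [y_succ]; nlinarith
  have h2 : 6 ≤ y ε (N + 2) := by
    rw [show N + 2 = (N + 1) + 1 from rfl, y_succ ε (N + 1)]; nlinarith
  exact lt_of_lt_of_le (by linarith) (le_abs_self _)

/-- the point of the ray over `1 / 4 + ε` -/
theorem exists_s (hψ : IsExteriorMap (multibrotSet 2) ψ) {ε : ℝ} (hε : 0 < ε) (hε1 : ε ≤ 1) :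
    ∃ s : ℝ, 0 < s ∧ Rr ψ s = 1 / 4 + ε ∧ |Real.log s + Real.pi * Real.log 2 / √ε| ≤ 36 := by
  have h1 : ((1 / 4 + ε : ℝ) : ℂ) ∈ ψ '' {z | 1 < ‖z‖} := by
    rw [hψ.image]; exact not_mem_real hε hε1
  obtain ⟨w, hw, hwc⟩ := h1
  have hw' : 1 < ‖w‖ := hw
  have hwr := w_pos hψ hw' (by linarith) hwc
  refine ⟨Real.log ‖w‖, Real.log_pos hw', ?_, green_cusp hψ hε hε1 hw' hwc⟩
  rw [Rr, Real.exp_log (by linarith), ← hwr, hwc, Complex.ofReal_re]

/-- **the maximum of the Green function near the cusp** -/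
theorem green_max (hψ : IsExteriorMap (multibrotSet 2) ψ) {w : ℂ} (hw : 1 < ‖w‖)
    (h1 : ‖ψ w - 1 / 4‖ ≤ 1) :
    Real.log ‖w‖ ≤ Real.exp (36 - Real.pi * Real.log 2 / √‖ψ w - 1 / 4‖) := by
  obtain ⟨r, hr⟩ : ∃ r, r = ‖ψ w - 1 / 4‖ := ⟨_, rfl⟩
  rw [← hr] at h1 ⊢
  have hr0 : 0 < r := by
    rw [hr]
    apply norm_pos_iff.2
    intro h
    have h2 : ψ w = ((1 / 4 : ℝ) : ℂ) := by
      rw [sub_eq_zero.1 h]; push_cast; rfl
    exact not_mem hψ hw (by rw [h2]; exact real_mem (by norm_num) le_rfl)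
  obtain ⟨s, hs, hR, hlaw⟩ := exists_s hψ hr0 h1
  have hG : 0 < Real.log ‖w‖ := Real.log_pos hw
  have ht1 := Pool.Agent.T6.H68.Tip.tendsto_log hψ hw
  have ht2 := Pool.Agent.T6.H68.Tip.tendsto_log hψ (w := ((Real.exp s : ℝ) : ℂ))
    (one_lt_norm (Real.one_lt_exp_iff.2 hs))
  rw [Rr_eq hψ hs, hR, Complex.norm_real, Real.norm_eq_abs, abs_of_pos (Real.exp_pos s),
    Real.log_exp] at ht2
  have hle : Real.log ‖w‖ ≤ s := by
    refine le_of_tendsto_of_tendsto ht1 ht2 ?_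
    filter_upwards [ht1.eventually (lt_mem_nhds hG)] with n hn
    apply div_le_div_of_nonneg_right _ (by positivity)
    have hpos : 0 < Real.log ‖P 2 (n + 1) (ψ w)‖ := by
      have h3 : (0 : ℝ) < 2 ^ n := by positivity
      exact (div_pos_iff_of_pos_right h3).1 hn
    have hP0 : 0 < ‖P 2 (n + 1) (ψ w)‖ := by
      rcases (norm_nonneg (P 2 (n + 1) (ψ w))).lt_or_eq with h | h
      · exact h
      · rw [← h, Real.log_zero] at hpos
        exact absurd hpos (lt_irrefl _)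
    apply Real.log_le_log hP0
    have h4 := Pool.Agent.T6.H48.Cusp.norm_P_le (ψ w - 1 / 4) (n + 1)
    rw [← hr] at h4
    have e1 : (1 / 4 : ℂ) + (ψ w - 1 / 4) = ψ w := by ring
    rw [e1] at h4
    rw [Pool.Agent.T6.H48.Cusp.P_real, Complex.norm_real, Real.norm_eq_abs]
    exact h4.trans (le_abs_self _)
  have h5 := (abs_le.1 hlaw).2
  have h6 : s ≤ Real.exp (36 - Real.pi * Real.log 2 / √r) := by
    rw [← Real.log_le_iff_le_exp hs]
    linarith
  exact hle.trans h6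

/-- distance to `M` from a point of the ray: upper bound -/
theorem dist_upper (hψ : IsExteriorMap (multibrotSet 2) ψ) {s d : ℝ} (hs : 0 < s) (hs1 : s ≤ 1)
    (hd : 0 < d) (hball : ball (Fe ψ (s : ℂ)) d ⊆ (multibrotSet 2)ᶜ) :
    d ≤ 18 * (s * ff ψ s) := by
  obtain ⟨β, hβ⟩ := exists_beta (d := 2) le_rfl
  obtain ⟨Φ, hΦd, hΦ⟩ := Pool.Agent.T6.H49.LC.exists_phi hβ
  have hsp : s ≤ Real.pi := by linarith [Real.pi_gt_three]
  have hre : 0 < ((s : ℂ)).re := by simpa using hs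
  obtain ⟨c, hc⟩ : ∃ c, c = Fe ψ (s : ℂ) := ⟨_, rfl⟩
  rw [← hc] at hball
  -- `Φ ∘ F = exp (-t)`
  have hΦF : ∀ t : ℂ, 0 < t.re → Φ (Fe ψ t) = Complex.exp (-t) := by
    intro t ht
    have hw := exp_mem ht
    obtain ⟨g1, g2, g3⟩ := hΦ (Fe ψ t) (not_mem hψ hw)
    have g4 : Fe ψ t = Complex.exp t * β (Complex.exp t)⁻¹ := exteriorMap_unique hβ hψ hw
    have hx := inv_mem_ball hw
    have := hβ.inj (Φ (Fe ψ t)) g1 (Complex.exp t)⁻¹ hx.1 g2 hx.2 (by rw [g3, inv_inv]; exact g4)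
    rw [this, Complex.exp_neg]
  have hΦc : Φ c = Complex.exp (-(s : ℂ)) := by rw [hc]; exact hΦF _ hre
  have hMc : IsOpen ((multibrotSet 2)ᶜ) := by
    rw [← hψ.image]
    have h1 := hψ.image
    have h2 : IsClosed (multibrotSet 2) := by
      have : multibrotSet 2 = ⋂ k : ℕ, {c : ℂ | ‖P 2 k c‖ ≤ 2} := by
        ext c
        rw [mem_multibrot_iff le_rfl, mem_iInter]
        rfl
      rw [this]
      exact isClosed_iInter fun k => isClosed_le
        (Pool.Agent.T6.H48.Cusp.P_differentiable k).continuous.norm continuous_const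
    rw [h1]
    exact h2.isOpen_compl
  have hcm : c ∈ (multibrotSet 2)ᶜ := hball (mem_ball_self hd)
  have hΦc' : HasDerivAt Φ (deriv Φ c) c :=
    (hΦd.differentiableAt (hMc.mem_nhds hcm)).hasDerivAt
  have hchain : deriv Φ c * deriv (Fe ψ) (s : ℂ) = -Complex.exp (-(s : ℂ)) := by
    have h1 : HasDerivAt (fun t => Φ (Fe ψ t)) (deriv Φ c * deriv (Fe ψ) (s : ℂ)) (s : ℂ) := by
      have h2 := Fe_d1 hψ hre
      rw [hc] at hΦc' ⊢
      exact hΦc'.comp (s : ℂ) h2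
    have h2 : HasDerivAt (fun t : ℂ => Complex.exp (-t)) (Complex.exp (-(s : ℂ)) * (-1)) (s : ℂ) :=
      (hasDerivAt_neg (s : ℂ)).cexp
    have h3 : (fun t => Φ (Fe ψ t)) =ᶠ[𝓝 (s : ℂ)] fun t => Complex.exp (-t) := by
      filter_upwards [isOpen_re.mem_nhds hre] with t ht using hΦF t ht
    rw [h1.unique (h2.congr_of_eventuallyEq h3)]
    ring
  -- Cauchy estimate
  have hmaps : MapsTo Φ (multibrotSet 2)ᶜ (ball (0 : ℂ) 1) := fun z hz => (hΦ z hz).1
  have hest : ∀ v : ℂ, ‖v - c‖ ≤ d / 3 → ‖Φ v - Φ c‖ ≤ 3 * (1 - ‖Φ c‖) := by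
    intro v hv
    have h1 := Pool.Agent.T6.H49.LC.pick_chain hΦd hmaps (r := 2 * d / 3) (by positivity)
      (u := c) (v := v) (fun z hz => by
        refine Subset.trans ?_ hball
        intro x hx
        rw [segment_eq_image'] at hz
        obtain ⟨θ, hθ, rfl⟩ := hz
        rw [mem_ball, dist_eq_norm] at hx ⊢
        have h2 : x - c = (x - (c + θ • (v - c))) + θ • (v - c) := by ring
        rw [h2]
        refine (norm_add_le _ _).trans_lt ?_
        have h3 : ‖θ • (v - c)‖ ≤ d / 3 := by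
          rw [norm_smul, Real.norm_eq_abs, abs_of_nonneg hθ.1]
          exact (mul_le_of_le_one_left (norm_nonneg _) hθ.2).trans hv
        linarith) (j := 1) (by
        push_cast
        linarith)
    have h2 := h1.2
    rwa [pow_one] at h2
  have hcauchy : ‖deriv Φ c‖ ≤ 3 * (1 - ‖Φ c‖) / (d / 3) := by
    have h1 : deriv (fun v => Φ v - Φ c) c = deriv Φ c := by
      rw [deriv_sub_const]
    rw [← h1]
    apply Complex.norm_deriv_le_of_forall_mem_sphere_norm_le (by positivity)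
    · refine DifferentiableOn.diffContOnCl ?_
      refine (hΦd.mono ?_).sub_const _
      rw [closure_ball _ (by positivity)]
      refine (closedBall_subset_ball (by linarith)).trans hball
    · intro z hz
      rw [mem_sphere, dist_eq_norm] at hz
      exact hest z hz.le
  have hnΦ : ‖Φ c‖ = Real.exp (-s) := by
    rw [hΦc, Complex.norm_exp, Complex.neg_re, Complex.ofReal_re]
  have hnch : ‖deriv Φ c‖ * ff ψ s = Real.exp (-s) := by
    rw [← norm_d hψ hs hsp, ← norm_mul, hchain, norm_neg, Complex.norm_exp, Complex.neg_re,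
      Complex.ofReal_re]
  have hf := ff_pos hψ hs hsp
  have h1 : Real.exp (-s) ≤ 3 * (1 - Real.exp (-s)) / (d / 3) * ff ψ s := by
    rw [hnΦ] at hcauchy
    have h0 := mul_le_mul_of_nonneg_right hcauchy hf.le
    rwa [hnch] at h0
  have h2 : d * Real.exp (-s) ≤ 9 * (1 - Real.exp (-s)) * ff ψ s := by
    have e1 : 3 * (1 - Real.exp (-s)) / (d / 3) * ff ψ s =
        9 * (1 - Real.exp (-s)) * ff ψ s / d := by
      field_simp
      ring
    rw [e1, le_div_iff₀ hd] at h1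
    linarith
  have h3 : d ≤ 9 * (Real.exp s - 1) * ff ψ s := by
    have e1 : Real.exp (-s) * Real.exp s = 1 := by rw [← Real.exp_add]; simp
    have h4 := mul_le_mul_of_nonneg_right h2 (Real.exp_pos s).le
    have e2 : d * Real.exp (-s) * Real.exp s = d := by rw [mul_assoc, e1, mul_one]
    have e3 : 9 * (1 - Real.exp (-s)) * ff ψ s * Real.exp s = 9 * (Real.exp s - 1) * ff ψ s := by
      linear_combination (-9 * ff ψ s) * e1
    rw [e2, e3] at h4
    exact h4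
  have h4 : Real.exp s - 1 ≤ 2 * s := by
    have := Real.abs_exp_sub_one_le (x := s) (by rw [abs_of_pos hs]; exact hs1)
    rw [abs_of_pos hs] at this
    exact (le_abs_self _).trans this
  nlinarith

/-- **the width of the cusp** -/
theorem width : ∃ c₀ C₀ ε₀ : ℝ, 0 < c₀ ∧ 0 < C₀ ∧ 0 < ε₀ ∧ ∀ ε : ℝ, 0 < ε → ε < ε₀ →
    c₀ * √ε ^ 3 ≤ infDist (((1 / 4 + ε : ℝ)) : ℂ) (multibrotSet 2) ∧
      infDist (((1 / 4 + ε : ℝ)) : ℂ) (multibrotSet 2) ≤ C₀ * √ε ^ 3 := by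
  obtain ⟨β, hβ⟩ := exists_beta (d := 2) le_rfl
  have hψ := exteriorMap_of_beta hβ
  set ψ : ℂ → ℂ := fun z => z * β z⁻¹ with hψd
  refine ⟨Real.exp (-365) / 27, 1800000, 1 / 10000, by positivity, by norm_num, by norm_num, ?_⟩
  intro ε h0 h1
  obtain ⟨s, hs, hR, hlaw⟩ := exists_s hψ h0 (by linarith)
  obtain ⟨x, hx⟩ : ∃ x, x = √ε := ⟨_, rfl⟩
  have hx0 : 0 < x := by rw [hx]; exact Real.sqrt_pos.2 h0
  have hx1 : x ≤ 1 / 100 := by
    rw [hx]
    rw [Real.sqrt_le_left (by norm_num)]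
    norm_num at h1 ⊢
    linarith
  rw [← hx] at hlaw ⊢
  have hL0 := LL_gt
  have hL1 := LL_lt
  rw [show Real.pi * Real.log 2 = LL from rfl] at hlaw
  obtain ⟨l, hld⟩ : ∃ l, l = -Real.log s := ⟨_, rfl⟩
  rw [show Real.log s = -l by rw [hld]; ring] at hlaw
  rw [abs_le] at hlaw
  -- `1.8 ≤ l x ≤ 3`
  have hLx : LL / x * x = LL := by field_simp
  have hlx1 : 1.8 ≤ l * x := by nlinarith [hlaw.2]
  have hlx2 : l * x ≤ 3 := by nlinarith [hlaw.1]
  have hl120 : 120 ≤ l := by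
    by_contra hcon
    push Not at hcon
    nlinarith
  have hs120 : s ≤ Real.exp (-120) := by
    rw [← Real.log_le_iff_le_exp hs]; linarith
  have hb := ff_bounds hψ hs hs120
  rw [show |Real.log s| = l by
    rw [show Real.log s = -l by rw [hld]; ring, abs_neg, abs_of_pos (by linarith)]] at hb
  have hl0 : 0 < l := by linarith
  have hs1 : s ≤ 1 := hs120.trans (Real.exp_le_one_iff.2 (by norm_num))
  have hsp : s ≤ Real.pi := by linarith [Real.pi_gt_three]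
  have hFs : Fe ψ (s : ℂ) = ((1 / 4 + ε : ℝ) : ℂ) := by rw [Fe_real, Rr_eq hψ hs, hR]
  have hne : (multibrotSet 2).Nonempty := ⟨((0 : ℝ) : ℂ), real_mem le_rfl (by norm_num)⟩
  have hlx3 : l ^ 3 * x ^ 3 ≤ 27 := by
    rw [← mul_pow]
    calc (l * x) ^ 3 ≤ 3 ^ 3 := pow_le_pow_left₀ (by positivity) hlx2 3
      _ = 27 := by norm_num
  have hlx4 : 1 ≤ l ^ 3 * x ^ 3 := by
    rw [← mul_pow]
    exact one_le_pow₀ (by linarith)
  constructor
  · rw [le_infDist hne]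
    intro v hv
    have h2 := quarter hψ (t := (s : ℂ)) (by simpa using hs) (by simpa using hsp) hv
    rw [norm_d hψ hs hsp, Complex.ofReal_re, hFs] at h2
    rw [dist_comm, dist_eq_norm]
    have h3 : 4 * Real.exp (-365) / l ^ 3 ≤ 4 * ‖v - ((1 / 4 + ε : ℝ) : ℂ)‖ := hb.1.trans h2
    rw [div_le_iff₀ (by positivity)] at h3
    have he := Real.exp_pos (-365)
    have hn := norm_nonneg (v - ((1 / 4 + ε : ℝ) : ℂ))
    have h4 : Real.exp (-365) * x ^ 3 ≤ ‖v - ((1 / 4 + ε : ℝ) : ℂ)‖ * (l ^ 3 * x ^ 3) := by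
      have : 0 ≤ x ^ 3 := by positivity
      nlinarith
    have h5 : ‖v - ((1 / 4 + ε : ℝ) : ℂ)‖ * (l ^ 3 * x ^ 3) ≤
        ‖v - ((1 / 4 + ε : ℝ) : ℂ)‖ * 27 := mul_le_mul_of_nonneg_left hlx3 hn
    linarith
  · refine le_of_forall_lt fun d hd => ?_
    rcases le_or_gt d 0 with hd0 | hd0
    · exact lt_of_le_of_lt hd0 (by positivity)
    · obtain ⟨d', hd1, hd2⟩ := exists_between hd
      have hball : ball (Fe ψ (s : ℂ)) d' ⊆ (multibrotSet 2)ᶜ := by
        intro z hz hzM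
        rw [mem_ball, hFs, dist_comm] at hz
        have := infDist_le_dist_of_mem (x := (((1 / 4 + ε : ℝ)) : ℂ)) hzM
        linarith
      have h2 := dist_upper hψ hs hs1 (hd0.trans hd1) hball
      have h3 : s * ff ψ s ≤ 100000 / l ^ 3 := hb.2
      have h4 : 100000 / l ^ 3 ≤ 100000 * x ^ 3 := by
        rw [div_le_iff₀ (by positivity)]
        nlinarith
      linarith

end Pool.Agent.T6.H4.Cusp
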