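import Pool.Agent.T6.H4.Cusp.AbelLim
import Pool.Agent.T6.H4.Cusp.Geo

set_option autoImplicit false

/-! # The dynamical description of the periodic function -/

open Complex Metric Set Filter Topology Pool.Agent.H712R2 Pool.Agent.H713R2 N62a1eb23

namespace Pool.Agent.T6.H4.Cusp

variable {ψ χ L : ℂ → ℂ} {l : ℝ → ℝ}

theorem re_add (τ : ℂ) (k : ℤ) : (τ + k * (4 * Real.pi * Complex.I)).re = τ.re := by
  simp

theorem per_nat (h : Lim ψ χ) (hψ : IsExteriorMap (multibrotSet 2) ψ) (hL : Lav L l) {τ : ℂ}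
    (hτ : 0 < τ.re) (n : ℕ) : L (χ (τ + n * (4 * Real.pi * Complex.I))) = L (χ τ) := by
  induction n with
  | zero => simp
  | succ n ih =>
    have h1 := h.periodic hψ hL (τ := τ + n * (4 * Real.pi * Complex.I)) (by
      have := re_add τ n
      rw [Int.cast_natCast] at this
      rw [this]; exact hτ)
    rw [ih] at h1
    rw [← h1]
    congr 2
    push_cast
    ring

theorem per_int (h : Lim ψ χ) (hψ : IsExteriorMap (multibrotSet 2) ψ) (hL : Lav L l) {τ : ℂ}
    (hτ : 0 < τ.re) (k : ℤ) : L (χ (τ + k * (4 * Real.pi * Complex.I))) = L (χ τ) := by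
  obtain ⟨n, hn | hn⟩ := Int.eq_nat_or_neg k
  · rw [hn, Int.cast_natCast]
    exact per_nat h hψ hL hτ n
  · have h1 := per_nat h hψ hL (τ := τ + k * (4 * Real.pi * Complex.I))
      (by rw [re_add]; exact hτ) n
    have e1 : τ + k * (4 * Real.pi * Complex.I) + n * (4 * Real.pi * Complex.I) = τ := by
      rw [hn]
      push_cast
      ring
    rw [e1] at h1
    exact h1.symm

theorem per_exp (h : Lim ψ χ) (hψ : IsExteriorMap (multibrotSet 2) ψ) (hL : Lav L l) {a c : ℂ}
    (ha : 0 < a.re) (hac : Complex.exp a = Complex.exp c) : L (χ (2 * a)) = L (χ (2 * c)) := by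
  obtain ⟨k, hk⟩ := Complex.exp_eq_exp_iff_exists_int.1 hac.symm
  have h2 : 0 < (2 * a).re := by
    have := two_re a 1
    rw [pow_one, pow_one] at this
    rw [this]; positivity
  rw [← per_int h hψ hL h2 k]
  congr 2
  rw [hk]
  ring

/-- the exterior map of `z ^ 2 + 1 / 4` -/
noncomputable def Ps (χ L : ℂ → ℂ) (w : ℂ) : ℂ := L (χ (2 * Complex.log w))

theorem log_re {w : ℂ} (hw : 1 < ‖w‖) : 0 < (Complex.log w).re := by
  rw [Complex.log_re]; exact Real.log_pos hw

theorem two_log_re {w : ℂ} (hw : 1 < ‖w‖) : 0 < (2 * Complex.log w).re := by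
  have := two_re (Complex.log w) 1
  rw [pow_one, pow_one] at this
  rw [this]
  have := log_re hw
  positivity

theorem ne_zero_of {w : ℂ} (hw : 1 < ‖w‖) : w ≠ 0 := by
  rintro rfl
  rw [norm_zero] at hw
  linarith

theorem Ps_diff (h : Lim ψ χ) (hψ : IsExteriorMap (multibrotSet 2) ψ) (hL : Lav L l) :
    DifferentiableOn ℂ (Ps χ L) {w | 1 < ‖w‖} := by
  intro w hw
  have hw1 : 1 < ‖w‖ := hw
  apply DifferentiableAt.differentiableWithinAt
  by_cases hs : w ∈ Complex.slitPlane
  · have h1 : DifferentiableAt ℂ (fun w => 2 * Complex.log w) w :=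
      (Complex.differentiableAt_log hs).const_mul 2
    have h2 := h.diffAt (two_log_re hw1)
    exact (hL.diff _).comp w (h2.comp w h1)
  · have hneg : -w ∈ Complex.slitPlane := by
      rw [Complex.mem_slitPlane_iff] at hs ⊢
      push Not at hs
      left
      have hne := ne_zero_of hw1
      rcases lt_or_eq_of_le hs.1 with h1 | h1
      · rw [Complex.neg_re]; linarith
      · exact absurd (Complex.ext h1 hs.2) hne
    have hlogn : 0 < (Complex.log (-w)).re := log_re (by rw [norm_neg]; exact hw1)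
    have hre : 0 < (2 * (Complex.log (-w) + Real.pi * Complex.I)).re := by
      have := two_re (Complex.log (-w) + Real.pi * Complex.I) 1
      rw [pow_one, pow_one] at this
      rw [this]
      simp only [Complex.add_re, Complex.mul_re, Complex.ofReal_re, Complex.I_re, mul_zero,
        Complex.ofReal_im, Complex.I_im, mul_one, sub_self, add_zero]
      positivity
    have h1 : DifferentiableAt ℂ (fun w => 2 * (Complex.log (-w) + Real.pi * Complex.I)) w := by
      have h2 : DifferentiableAt ℂ (fun w : ℂ => -w) w := by fun_prop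
      exact ((h2.clog hneg).add_const _).const_mul 2
    have h2 := h.diffAt hre
    have h3 : DifferentiableAt ℂ (fun w => L (χ (2 * (Complex.log (-w) + Real.pi * Complex.I)))) w :=
      (hL.diff _).comp w (h2.comp w h1)
    refine h3.congr_of_eventuallyEq ?_
    filter_upwards [isOpen_ext.mem_nhds hw] with z hz
    have hz1 : 1 < ‖z‖ := hz
    refine per_exp h hψ hL (log_re hz1) ?_
    have hz0 := ne_zero_of hz1
    rw [Complex.exp_log hz0, Complex.exp_add, Complex.exp_log (neg_ne_zero.2 hz0),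
      Complex.exp_pi_mul_I]
    ring

theorem Ps_fe (h : Lim ψ χ) (hψ : IsExteriorMap (multibrotSet 2) ψ) (hL : Lav L l) {w : ℂ}
    (hw : 1 < ‖w‖) : Ps χ L (w ^ 2) = Ps χ L w ^ 2 + 1 / 4 := by
  have hw2 : 1 < ‖w ^ 2‖ := by
    rw [norm_pow]; exact one_lt_pow₀ hw (by norm_num)
  have hw0 := ne_zero_of hw
  have h1 := per_exp h hψ hL (a := Complex.log (w ^ 2)) (c := 2 * Complex.log w) (log_re hw2) (by
    rw [Complex.exp_log (pow_ne_zero 2 hw0), two_mul, Complex.exp_add, Complex.exp_log hw0]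
    ring)
  rw [Ps, h1, h.fe (two_log_re hw), hL.fe, Ps]

theorem Ps_near (h : Lim ψ χ) (hψ : IsExteriorMap (multibrotSet 2) ψ) (hL : Lav L l) {w : ℂ}
    (hw : 1 < ‖w‖) : ‖Ps χ L w - w‖ ≤ 3 := by
  have h1 := h.orbit hψ hL (two_log_re hw)
  have e1 : 2 * Complex.log w / 2 = Complex.log w := by ring
  rw [e1, Complex.exp_log (ne_zero_of hw)] at h1
  exact h1

theorem Ps_Th (h : Lim ψ χ) (hψ : IsExteriorMap (multibrotSet 2) ψ) (hL : Lav L l) {X : ℂ}
    (hX : X ∈ Strip) : L (-X - Th χ X) =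
      Ps χ L (Complex.exp (Complex.exp (-(X * Real.log 2)) / 2)) := by
  have hre := strip_re hX
  obtain ⟨τ, hτ⟩ : ∃ τ, τ = Complex.exp (-(X * Real.log 2)) := ⟨_, rfl⟩
  have e1 : -X - Th χ X = χ τ := by rw [Th, hτ]; ring
  rw [e1, ← hτ]
  rw [← hτ] at hre
  have h2 : 0 < (τ / 2).re := by
    have := (pow2_re τ 1).1
    rw [pow_one, pow_one] at this
    rw [this]; positivity
  have h3 := per_exp h hψ hL (a := Complex.log (Complex.exp (τ / 2))) (c := τ / 2)
    (by rw [Complex.log_re, Complex.norm_exp, Real.log_exp]; exact h2)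
    (Complex.exp_log (Complex.exp_ne_zero _))
  rw [Ps, h3]
  congr 2
  ring

/-- the limit function does not depend on the choice of the exterior map -/
theorem Lim.congr {ψ' : ℂ → ℂ} (h : Lim ψ χ) (hψ : IsExteriorMap (multibrotSet 2) ψ)
    (hψ' : IsExteriorMap (multibrotSet 2) ψ') : Lim ψ' χ := by
  obtain ⟨β, hβ⟩ := exists_beta (d := 2) le_rfl
  refine ⟨h.diff, h.lim.congr fun N τ hτ => ?_⟩
  have hw : 1 < ‖Complex.exp (τ / 2 ^ N)‖ := by
    apply exp_mem
    rw [(pow2_re τ N).1]
    have : 0 < τ.re := hτ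
    positivity
  show SN ψ N τ = SN ψ' N τ
  rw [SN, SN, xi, xi, Fe, Fe, exteriorMap_unique hβ hψ hw, exteriorMap_unique hβ hψ' hw]

end Pool.Agent.T6.H4.Cusp
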