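import Pool.Agent.T6.H4.Cusp.Real
import Pool.Agent.T6.H68.Tip.Ext

set_option autoImplicit false

/-! # The escape rate near the cusp -/

open Complex Metric Set Filter Topology Pool.Agent.H712R2 Pool.Agent.H713R2 N62a1eb23

namespace Pool.Agent.T6.H4.Cusp

theorem P_eq (ε : ℝ) (n : ℕ) : P 2 n ((1 / 4 + ε : ℝ) : ℂ) = ((1 / 2 + y ε n : ℝ) : ℂ) := by
  induction n with
  | zero =>
    rw [P_zero]
    simp only [y]
    norm_num
  | succ n ih =>
    rw [P_succ, ih, y_succ]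
    push_cast
    ring

/-- The escape rate at `1 / 4 + ε` is `exp (-π log 2 / √ε + O(1))`. -/
theorem green_cusp {ψ : ℂ → ℂ} (hψ : IsExteriorMap (multibrotSet 2) ψ) {ε : ℝ} (hε : 0 < ε)
    (hε1 : ε ≤ 1) {w : ℂ} (hw : 1 < ‖w‖) (hwc : ψ w = ((1 / 4 + ε : ℝ) : ℂ)) :
    |Real.log (Real.log ‖w‖) + Real.pi * Real.log 2 / √ε| ≤ 36 := by
  obtain ⟨N, hN1, hN3, hN⟩ := exists_N hε hε1
  have hNa := N_asymp hε hN1 hN3 hN
  set c : ℂ := ((1 / 4 + ε : ℝ) : ℂ) with hc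
  have hcn : ‖c‖ ≤ 3 := by
    rw [hc, Complex.norm_real, Real.norm_eq_abs, abs_of_pos (by linarith)]
    linarith
  have hval : ∀ n, ‖P 2 n c‖ = |1 / 2 + y ε n| := fun n => by
    rw [hc, P_eq, Complex.norm_real, Real.norm_eq_abs]
  obtain ⟨p0, hp0⟩ : ∃ x, x = 1 / 2 + y ε N := ⟨_, rfl⟩
  have hp0l : 3 / 2 ≤ p0 := by linarith
  have hp0u : p0 ≤ 7 / 2 := by linarith
  obtain ⟨p1, hp1⟩ : ∃ x, x = 1 / 2 + y ε (N + 1) := ⟨_, rfl⟩
  have e1 : p1 = p0 ^ 2 + (1 / 4 + ε) := by rw [hp1, hp0, y_succ]; ring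
  obtain ⟨p2, hp2⟩ : ∃ x, x = 1 / 2 + y ε (N + 2) := ⟨_, rfl⟩
  have e2 : p2 = p1 ^ 2 + (1 / 4 + ε) := by
    rw [hp2, hp1, show N + 2 = (N + 1) + 1 from rfl, y_succ ε (N + 1)]; ring
  have hp1l : 5 / 2 ≤ p1 := by rw [e1]; nlinarith
  have hp1u : p1 ≤ 27 / 2 := by rw [e1]; nlinarith
  have hp2l : 6 ≤ p2 := by rw [e2]; nlinarith
  have hp2u : p2 ≤ 184 := by rw [e2]; nlinarith
  have hm : ‖P 2 (N + 2) c‖ = p2 := by rw [hval, ← hp2, abs_of_pos (by linarith)]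
  have hesc := fun j => (Pool.Agent.T6.H68.Tip.escape hcn (p := fun n => P 2 n c)
    (fun n => P_succ 2 n c) (m := N + 2) (by rw [hm]; linarith) j).2
  rw [hm] at hesc
  have hlim := Pool.Agent.T6.H68.Tip.tendsto_log hψ hw
  rw [hwc] at hlim
  set G : ℝ := Real.log ‖w‖ with hG
  -- the limit
  have hlim2 : Tendsto (fun j : ℕ => |Real.log ‖P 2 (N + 2 + (j + 1)) c‖ / 2 ^ (N + 2 + (j + 1)) -
      Real.log p2 / 2 ^ (N + 2)|) atTop (𝓝 |G / 2 - Real.log p2 / 2 ^ (N + 2)|) := by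
    have h1 := (hlim.comp (tendsto_add_atTop_nat (N + 2))).div_const 2
    refine ((h1.sub_const _).abs).congr fun j => ?_
    simp only [Function.comp]
    rw [show N + 2 + (j + 1) = (j + (N + 2)) + 1 by ring, div_div, ← pow_succ]
  have hb : |G / 2 - Real.log p2 / 2 ^ (N + 2)| ≤ 1 / 6 * (1 / 2 ^ (N + 2)) := by
    refine le_of_tendsto hlim2 (Eventually.of_forall fun j => ?_)
    refine (hesc (j + 1)).trans ?_
    have h1 : (6 : ℝ) / p2 ^ 2 ≤ 1 / 6 := by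
      rw [div_le_div_iff₀ (by positivity) (by norm_num)]
      nlinarith
    have h2 : (0 : ℝ) ≤ 1 / 2 ^ (N + 2) - 1 / 2 ^ (N + 2 + (j + 1)) := by
      rw [sub_nonneg]
      apply one_div_le_one_div_of_le (by positivity)
      exact pow_le_pow_right₀ (by norm_num) (by omega)
    have h3 : (0 : ℝ) ≤ 1 / 2 ^ (N + 2 + (j + 1)) := by positivity
    calc 6 / p2 ^ 2 * (1 / 2 ^ (N + 2) - 1 / 2 ^ (N + 2 + (j + 1)))
        ≤ 1 / 6 * (1 / 2 ^ (N + 2) - 1 / 2 ^ (N + 2 + (j + 1))) :=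
          mul_le_mul_of_nonneg_right h1 h2
      _ ≤ _ := by linarith
  have hpow : (0 : ℝ) < 2 ^ (N + 2) := by positivity
  have hG2 : |G * 2 ^ (N + 2) - 2 * Real.log p2| ≤ 1 / 3 := by
    have h1 : G * 2 ^ (N + 2) - 2 * Real.log p2 =
        (G / 2 - Real.log p2 / 2 ^ (N + 2)) * (2 * 2 ^ (N + 2)) := by
      field_simp
    rw [h1, abs_mul, abs_of_pos (show (0 : ℝ) < 2 * 2 ^ (N + 2) by positivity)]
    have h2 := mul_le_mul_of_nonneg_right hb (show (0 : ℝ) ≤ 2 * 2 ^ (N + 2) by positivity)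
    refine h2.trans (le_of_eq ?_)
    field_simp
    norm_num
  have hl1 : 1 ≤ Real.log p2 := by
    rw [Real.le_log_iff_exp_le (by linarith)]
    have := Real.exp_one_lt_d9
    linarith
  have hl2 : Real.log p2 ≤ 6 := by
    rw [Real.log_le_iff_le_exp (by linarith)]
    have e4 : Real.exp (6 : ℝ) = Real.exp 1 ^ 6 := by
      rw [← Real.exp_nat_mul]
      norm_num
    have h7 : (2.7 : ℝ) ^ 6 ≤ Real.exp 1 ^ 6 :=
      pow_le_pow_left₀ (by norm_num) (by linarith [Real.exp_one_gt_d9]) 6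
    rw [e4]
    norm_num at h7
    linarith
  rw [abs_le] at hG2
  have hlo : 1 ≤ G * 2 ^ (N + 2) := by linarith [hG2.1]
  have hhi : G * 2 ^ (N + 2) ≤ 13 := by linarith [hG2.2]
  have hGpos : 0 < G := Real.log_pos hw
  have hlogG : Real.log (G * 2 ^ (N + 2)) = Real.log G + (N + 2) * Real.log 2 := by
    rw [Real.log_mul hGpos.ne' hpow.ne', Real.log_pow]
    push_cast
    ring
  have h3 : 0 ≤ Real.log (G * 2 ^ (N + 2)) := Real.log_nonneg hlo
  have h4 : Real.log (G * 2 ^ (N + 2)) ≤ 3 := by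
    rw [Real.log_le_iff_le_exp (by positivity)]
    have e4 : Real.exp (3 : ℝ) = Real.exp 1 ^ 3 := by
      rw [← Real.exp_nat_mul]
      norm_num
    have h7 : (2.7 : ℝ) ^ 3 ≤ Real.exp 1 ^ 3 :=
      pow_le_pow_left₀ (by norm_num) (by linarith [Real.exp_one_gt_d9]) 3
    rw [e4]
    norm_num at h7
    linarith
  rw [hlogG] at h3 h4
  have l1 := Real.log_two_gt_d9
  have l2 := Real.log_two_lt_d9
  have h5 : |(N : ℝ) * Real.log 2 - Real.pi * Real.log 2 / √ε| ≤ 49 * Real.log 2 := by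
    have : (N : ℝ) * Real.log 2 - Real.pi * Real.log 2 / √ε = (N - Real.pi / √ε) * Real.log 2 := by
      ring
    rw [this, abs_mul, abs_of_pos (show 0 < Real.log 2 by linarith)]
    exact mul_le_mul_of_nonneg_right hNa (by linarith)
  rw [abs_le] at h5 ⊢
  constructor <;> linarith [h5.1, h5.2]

end Pool.Agent.T6.H4.Cusp
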