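import Pool.Agent.T6.H4.Cusp.Bounds
import Pool.Agent.T6.H48.Cusp.Mono
import Pool.Agent.T6.H11.LCD

set_option autoImplicit false

/-! # The real limit of the exterior map at the cusp -/

open Complex Metric Set Filter Topology Pool.Agent.H712R2 Pool.Agent.H713R2 N62a1eb23

namespace Pool.Agent.T6.H4.Cusp

variable {ψ : ℂ → ℂ}

/-- the critical orbit in the exterior coordinate -/
theorem bott (hψ : IsExteriorMap (multibrotSet 2) ψ) {w : ℂ} (hw : 1 < ‖w‖) (n : ℕ) :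
    ‖P 2 (n + 1) (ψ w) - w ^ (2 ^ n)‖ ≤ 3 := by
  obtain ⟨β, hβ⟩ := exists_beta (d := 2) le_rfl
  rw [exteriorMap_unique hβ hψ hw]
  obtain ⟨hx, hx0⟩ := inv_mem_ball hw
  have h1 := BB_eq le_rfl β n w⁻¹ hx0
  rw [inv_inv] at h1
  have hw0 : w ≠ 0 := fun h => hx0 (by rw [h, inv_zero])
  have h2 : P 2 (n + 1) (w * β w⁻¹) - w ^ (2 ^ n) = w ^ (2 ^ n) * (BB 2 β n w⁻¹ - 1) := by
    rw [h1]
    have : w ^ (2 ^ n) * (w⁻¹ ^ (2 ^ n)) = 1 := by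
      rw [← mul_pow, mul_inv_cancel₀ hw0, one_pow]
    linear_combination (-1 : ℂ) * P 2 (n + 1) (w * β w⁻¹) * this
  rw [h2, norm_mul, norm_pow]
  have h3 := Pool.Agent.T6.H11.LC.BB_sub_one_le hβ n hx
  rw [norm_inv] at h3
  have hn : 0 < ‖w‖ := by linarith
  calc ‖w‖ ^ 2 ^ n * ‖BB 2 β n w⁻¹ - 1‖ ≤ ‖w‖ ^ 2 ^ n * (3 * ‖w‖⁻¹ ^ 2 ^ n) :=
        mul_le_mul_of_nonneg_left h3 (by positivity)
    _ = 3 := by
      rw [inv_pow]
      field_simp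

/-- locally uniform convergence along sequences -/
theorem lav_seq {F : ℕ → ℂ → ℂ} {L : ℂ → ℂ} (h : TendstoLocallyUniformly F L atTop)
    (hL : Continuous L) {φ : ℕ → ℕ} (hφ : Tendsto φ atTop atTop) {x : ℕ → ℂ} {a : ℂ}
    (hx : Tendsto x atTop (𝓝 a)) : Tendsto (fun k => F (φ k) (x k)) atTop (𝓝 (L a)) := by
  rw [tendstoLocallyUniformly_iff_forall_tendsto] at h
  have h1 := (h a).comp (hφ.prodMk hx)
  exact ((hL.tendsto a).comp hx).congr_uniformity h1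

/-- data of the Lavaurs function -/
structure Lav (L : ℂ → ℂ) (l : ℝ → ℝ) : Prop where
  diff : Differentiable ℂ L
  fe : ∀ s, L (s + 1) = L s ^ 2 + 1 / 4
  real : ∀ x : ℝ, L x = l x
  half : ∀ x, 1 / 2 < l x
  fel : ∀ x, l (x + 1) = l x ^ 2 + 1 / 4
  cont : Continuous l
  mono : StrictMono l
  bot : Tendsto l atBot (𝓝 (1 / 2))
  top : Tendsto l atTop atTop
  lim : TendstoLocallyUniformly (fun (N : ℕ) (s : ℂ) => Pool.Agent.H712R2.P 2 N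
      (1 / 4 + (Real.pi : ℂ) ^ 2 / ((N : ℂ) - s) ^ 2)) L atTop

theorem exists_lav : ∃ L l, Lav L l := by
  obtain ⟨L, l, h1, h2, h3, h4, h5, h6, h7, h8, h9, h10⟩ := Pool.Agent.T6.H48.Cusp.lav_real
  exact ⟨L, l, h1, h2, h3, h4, h5, h6, h7, h8, h9, h10⟩

/-- the real coordinate of the cusp: `N - π / √(ψ (exp (τ / 2 ^ N)) - 1 / 4)` -/
noncomputable def sN (ψ : ℂ → ℂ) (N : ℕ) (τ : ℝ) : ℝ :=
  N - Real.pi / √(Rr ψ (τ / 2 ^ N) - 1 / 4)

theorem tau_small (τ : ℝ) {a : ℝ} (ha : 0 < a) : ∀ᶠ N : ℕ in atTop, τ / 2 ^ N ≤ a := by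
  have h1 : Tendsto (fun N : ℕ => (2 : ℝ) ^ N) atTop atTop :=
    tendsto_pow_atTop_atTop_of_one_lt (by norm_num)
  have h2 : Tendsto (fun N : ℕ => τ / 2 ^ N) atTop (𝓝 0) := h1.const_div_atTop τ
  exact (h2.eventually (ge_mem_nhds ha))

/-- the real coordinate is at bounded distance of `log₂ τ` -/
theorem sN_bound (hψ : IsExteriorMap (multibrotSet 2) ψ) {τ : ℝ} (hτ : 0 < τ) {N : ℕ}
    (hN : τ / 2 ^ N ≤ Real.exp (-39)) : |sN ψ N τ - Real.log τ / Real.log 2| ≤ 52 := by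
  obtain ⟨h0, h1, h2⟩ := ray_law hψ (show 0 < τ / 2 ^ N by positivity) hN
  have hl2 : 0 < Real.log 2 := Real.log_pos (by norm_num)
  have e1 : Real.log (τ / 2 ^ N) = Real.log τ - N * Real.log 2 := by
    rw [Real.log_div hτ.ne' (by positivity), Real.log_pow]
  rw [e1] at h2
  have e2 : sN ψ N τ - Real.log τ / Real.log 2 = -(Real.log τ - N * Real.log 2 +
      Real.pi * Real.log 2 / √(Rr ψ (τ / 2 ^ N) - 1 / 4)) / Real.log 2 := by
    rw [sN]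
    field_simp
    ring
  rw [e2, abs_div, abs_neg, abs_of_pos hl2, div_le_iff₀ hl2]
  have := Real.log_two_gt_d9
  linarith

/-- the defining relation -/
theorem sN_rel (hψ : IsExteriorMap (multibrotSet 2) ψ) {τ : ℝ} (hτ : 0 < τ) (N : ℕ) :
    ψ (Complex.exp (τ / 2 ^ N)) = 1 / 4 + (Real.pi : ℂ) ^ 2 / ((N : ℂ) - (sN ψ N τ : ℝ)) ^ 2 := by
  have ht : 0 < τ / 2 ^ N := by positivity
  have h1 := Rr_eq hψ ht
  have h2 := Rr_lt hψ ht
  have e1 : Complex.exp ((τ : ℂ) / 2 ^ N) = ((Real.exp (τ / 2 ^ N) : ℝ) : ℂ) := by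
    push_cast; rfl
  rw [e1, h1]
  have h3 : (N : ℝ) - sN ψ N τ = Real.pi / √(Rr ψ (τ / 2 ^ N) - 1 / 4) := by rw [sN]; ring
  have h4 : (N : ℂ) - (sN ψ N τ : ℝ) = ((Real.pi / √(Rr ψ (τ / 2 ^ N) - 1 / 4) : ℝ) : ℂ) := by
    rw [← h3]; push_cast; rfl
  rw [h4]
  have h5 : √(Rr ψ (τ / 2 ^ N) - 1 / 4) ^ 2 = Rr ψ (τ / 2 ^ N) - 1 / 4 :=
    Real.sq_sqrt (by linarith)
  have h6 : Real.pi ^ 2 / (Real.pi / √(Rr ψ (τ / 2 ^ N) - 1 / 4)) ^ 2 =
      Rr ψ (τ / 2 ^ N) - 1 / 4 := by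
    rw [div_pow, h5]
    have := Real.pi_pos
    have h7 : 0 < Rr ψ (τ / 2 ^ N) - 1 / 4 := by linarith
    field_simp
  have h7 : (Real.pi : ℂ) ^ 2 / ((Real.pi / √(Rr ψ (τ / 2 ^ N) - 1 / 4) : ℝ) : ℂ) ^ 2 =
      ((Rr ψ (τ / 2 ^ N) - 1 / 4 : ℝ) : ℂ) := by
    exact_mod_cast congrArg (fun x : ℝ => (x : ℂ)) h6
  rw [h7]
  push_cast
  ring

/-- a cluster point of the coordinates sees the whole orbit -/
theorem cluster (hψ : IsExteriorMap (multibrotSet 2) ψ) {L : ℂ → ℂ} {l : ℝ → ℝ} (hL : Lav L l)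
    {τ : ℝ} (hτ : 0 < τ) {φ : ℕ → ℕ} (hφ : Tendsto φ atTop atTop) {a : ℝ}
    (ha : Tendsto (fun k => sN ψ (φ k) τ) atTop (𝓝 a)) (j : ℕ) :
    |l (a + j) - Real.exp (2 ^ j * τ / 2)| ≤ 3 := by
  have h1 : Tendsto (fun k => φ k + j) atTop atTop :=
    tendsto_atTop_mono (fun k => Nat.le_add_right _ _) hφ
  have h2 : Tendsto (fun k => ((sN ψ (φ k) τ + j : ℝ) : ℂ)) atTop (𝓝 ((a + j : ℝ) : ℂ)) :=
    (Complex.continuous_ofReal.tendsto _).comp (ha.add_const (j : ℝ))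
  have h3 := lav_seq hL.lim hL.diff.continuous h1 h2
  rw [hL.real] at h3
  have h4 : ∀ᶠ k in atTop, ‖P 2 (φ k + j) (1 / 4 + (Real.pi : ℂ) ^ 2 / (((φ k + j : ℕ) : ℂ) -
      ((sN ψ (φ k) τ + j : ℝ) : ℂ)) ^ 2) - ((Real.exp (2 ^ j * τ / 2) : ℝ) : ℂ)‖ ≤ 3 := by
    filter_upwards [hφ.eventually_ge_atTop 1] with k hk
    obtain ⟨m, hm⟩ : ∃ m, φ k = m + 1 := ⟨φ k - 1, by omega⟩
    have e1 : (((φ k + j : ℕ) : ℂ) - ((sN ψ (φ k) τ + j : ℝ) : ℂ)) =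
        (φ k : ℂ) - (sN ψ (φ k) τ : ℝ) := by push_cast; ring
    rw [e1, ← sN_rel hψ hτ]
    have e2 : φ k + j = (m + j) + 1 := by omega
    have hw : 1 < ‖Complex.exp ((τ : ℂ) / 2 ^ φ k)‖ := by
      apply exp_mem
      have : ((τ : ℂ) / 2 ^ φ k) = ((τ / 2 ^ φ k : ℝ) : ℂ) := by push_cast; rfl
      rw [this, Complex.ofReal_re]
      positivity
    have h5 := bott hψ hw (m + j)
    rw [← e2] at h5
    have e3 : Complex.exp ((τ : ℂ) / 2 ^ φ k) ^ 2 ^ (m + j) =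
        ((Real.exp (2 ^ j * τ / 2) : ℝ) : ℂ) := by
      rw [← Complex.exp_nat_mul, Complex.ofReal_exp]
      congr 1
      rw [hm]
      push_cast
      rw [pow_succ, pow_add]
      field_simp
    rwa [e3] at h5
  have h6 : Tendsto (fun k => ‖P 2 (φ k + j) (1 / 4 + (Real.pi : ℂ) ^ 2 / (((φ k + j : ℕ) : ℂ) -
      ((sN ψ (φ k) τ + j : ℝ) : ℂ)) ^ 2) - ((Real.exp (2 ^ j * τ / 2) : ℝ) : ℂ)‖) atTop
      (𝓝 ‖((l (a + j) : ℝ) : ℂ) - ((Real.exp (2 ^ j * τ / 2) : ℝ) : ℂ)‖) :=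
    (h3.sub_const _).norm
  have h7 := le_of_tendsto h6 h4
  rwa [← Complex.ofReal_sub, Complex.norm_real, Real.norm_eq_abs] at h7

/-- such a point is unique -/
theorem unique {L : ℂ → ℂ} {l : ℝ → ℝ} (hL : Lav L l) {a b : ℝ} {e : ℕ → ℝ}
    (ha : ∀ j : ℕ, |l (a + j) - e j| ≤ 3) (hb : ∀ j : ℕ, |l (b + j) - e j| ≤ 3) : a = b := by
  -- it is enough to exclude `a < b`
  have key : ∀ a b : ℝ, (∀ j : ℕ, |l (a + j) - e j| ≤ 3) → (∀ j : ℕ, |l (b + j) - e j| ≤ 3) →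
      ¬ a < b := by
    intro a b ha hb hab
    have h1 : ∀ᶠ j : ℕ in atTop, 1 ≤ l (a + j) := by
      have h2 : Tendsto (fun j : ℕ => a + (j : ℝ)) atTop atTop :=
        tendsto_atTop_add_const_left _ _ tendsto_natCast_atTop_atTop
      exact (hL.top.comp h2).eventually_ge_atTop 1
    obtain ⟨j0, hj0⟩ := eventually_atTop.1 h1
    have h2 : ∀ i : ℕ, 2 ^ i * (l (b + j0) - l (a + j0)) ≤
        l (b + (j0 + i : ℕ)) - l (a + (j0 + i : ℕ)) := by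
      intro i
      induction i with
      | zero => simp
      | succ i ih =>
        have e1 : l (b + (j0 + (i + 1) : ℕ)) = l (b + (j0 + i : ℕ)) ^ 2 + 1 / 4 := by
          rw [← hL.fel]; congr 1; push_cast; ring
        have e2 : l (a + (j0 + (i + 1) : ℕ)) = l (a + (j0 + i : ℕ)) ^ 2 + 1 / 4 := by
          rw [← hL.fel]; congr 1; push_cast; ring
        rw [e1, e2, pow_succ]
        have h3 := hj0 (j0 + i) (by omega)
        have h4 : l (a + (j0 + i : ℕ)) < l (b + (j0 + i : ℕ)) := hL.mono (by linarith)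
        nlinarith
    have h3 : 0 < l (b + j0) - l (a + j0) := by
      have := hL.mono (show a + (j0 : ℝ) < b + j0 by linarith)
      linarith
    obtain ⟨i, hi⟩ := pow_unbounded_of_one_lt (7 / (l (b + j0) - l (a + j0)))
      (show (1 : ℝ) < 2 by norm_num)
    have h4 := h2 i
    rw [div_lt_iff₀ h3] at hi
    have h5 := abs_le.1 (ha (j0 + i))
    have h6 := abs_le.1 (hb (j0 + i))
    linarith [h5.1, h6.2]
  rcases lt_trichotomy a b with h | h | h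
  · exact absurd h (key a b ha hb)
  · exact h
  · exact absurd h (key b a hb ha)

/-- the real limit exists -/
theorem real_lim (hψ : IsExteriorMap (multibrotSet 2) ψ) {L : ℂ → ℂ} {l : ℝ → ℝ} (hL : Lav L l)
    {τ : ℝ} (hτ : 0 < τ) : ∃ a : ℝ, Tendsto (fun N => sN ψ N τ) atTop (𝓝 a) ∧
      (∀ j : ℕ, |l (a + j) - Real.exp (2 ^ j * τ / 2)| ≤ 3) ∧
      |a - Real.log τ / Real.log 2| ≤ 52 := by
  obtain ⟨N0, hN0⟩ := eventually_atTop.1 (tau_small τ (Real.exp_pos (-39)))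
  obtain ⟨c, hc⟩ : ∃ c, c = Real.log τ / Real.log 2 := ⟨_, rfl⟩
  have hb : ∀ N ≥ N0, sN ψ N τ ∈ Icc (c - 52) (c + 52) := by
    intro N hN
    have h1 := abs_le.1 (sN_bound hψ hτ (hN0 N hN))
    rw [← hc] at h1
    exact ⟨by linarith [h1.1], by linarith [h1.2]⟩
  have hsub : ∀ φ : ℕ → ℕ, Tendsto φ atTop atTop → ∃ θ : ℕ → ℕ, Tendsto θ atTop atTop ∧
      ∃ a ∈ Icc (c - 52) (c + 52), Tendsto (fun k => sN ψ (φ (θ k)) τ) atTop (𝓝 a) := by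
    intro φ hφ
    obtain ⟨k0, hk0⟩ := eventually_atTop.1 (hφ.eventually_ge_atTop N0)
    obtain ⟨a, ha, θ, hθ, hlim⟩ := isCompact_Icc.tendsto_subseq
      (x := fun k => sN ψ (φ (k + k0)) τ) (fun k => hb _ (hk0 _ (by omega)))
    exact ⟨fun k => θ k + k0, tendsto_atTop_mono (fun k => Nat.le_add_right _ _)
      hθ.tendsto_atTop, a, ha, hlim⟩
  obtain ⟨θ, hθ, a, ha, hlim⟩ := hsub id tendsto_id
  have hQ := cluster hψ hL hτ hθ hlim
  refine ⟨a, ?_, hQ, ?_⟩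
  · refine tendsto_of_subseq_tendsto fun φ hφ => ?_
    obtain ⟨θ', hθ', a', ha', hlim'⟩ := hsub φ hφ
    have hQ' := cluster hψ hL hτ (hφ.comp hθ') hlim'
    have := unique hL hQ hQ'
    exact ⟨θ', by rw [this]; exact hlim'⟩
  · rw [abs_le, ← hc]
    exact ⟨by linarith [ha.1], by linarith [ha.2]⟩

end Pool.Agent.T6.H4.Cusp
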