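import Pool.Agent.T6.H4.Cusp.Cplx

set_option autoImplicit false

/-! # The limit function: functional equation, periodicity, oscillation -/

open Complex Metric Set Filter Topology Pool.Agent.H712R2 Pool.Agent.H713R2 N62a1eb23

namespace Pool.Agent.T6.H4.Cusp

variable {ψ : ℂ → ℂ}

/-- data of the limit function -/
structure Lim (ψ χ : ℂ → ℂ) : Prop where
  diff : DifferentiableOn ℂ χ {τ : ℂ | 0 < τ.re}
  lim : TendstoLocallyUniformlyOn (SN ψ) χ atTop {τ : ℂ | 0 < τ.re}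

theorem Lim.tendsto {χ : ℂ → ℂ} (h : Lim ψ χ) {τ : ℂ} (hτ : 0 < τ.re) :
    Tendsto (fun N => SN ψ N τ) atTop (𝓝 (χ τ)) := h.lim.tendsto_at hτ

theorem exists_lim (hψ : IsExteriorMap (multibrotSet 2) ψ) : ∃ χ, Lim ψ χ := by
  obtain ⟨χ, h1, h2⟩ := main_lim hψ
  exact ⟨χ, h1, h2⟩

theorem two_re (τ : ℂ) (j : ℕ) : (2 ^ j * τ).re = 2 ^ j * τ.re := by
  have : (2 : ℂ) ^ j = ((2 ^ j : ℝ) : ℂ) := by push_cast; rfl
  rw [this, Complex.re_ofReal_mul]

theorem Lim.fe {χ : ℂ → ℂ} (h : Lim ψ χ) {τ : ℂ} (hτ : 0 < τ.re) : χ (2 * τ) = χ τ + 1 := by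
  have hτ2 : 0 < (2 * τ).re := by
    have := two_re τ 1
    rw [pow_one, pow_one] at this
    rw [this]; positivity
  have h1 := (h.tendsto hτ2).comp (tendsto_add_atTop_nat 1)
  have h2 := (h.tendsto hτ).add_const (1 : ℂ)
  refine tendsto_nhds_unique h1 (h2.congr fun N => ?_)
  simp only [Function.comp, SN]
  have : 2 * τ / 2 ^ (N + 1) = τ / 2 ^ N := by
    rw [pow_succ]
    field_simp
  rw [this]
  push_cast
  ring

theorem Lim.real {χ : ℂ → ℂ} (h : Lim ψ χ) (hψ : IsExteriorMap (multibrotSet 2) ψ) {τ : ℝ}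
    (hτ : 0 < τ) : χ (τ : ℂ) = ((χ (τ : ℂ)).re : ℂ) ∧
      |(χ (τ : ℂ)).re - Real.log τ / Real.log 2| ≤ 52 := by
  obtain ⟨L, l, hL⟩ := exists_lav
  obtain ⟨a, ha, -, hb⟩ := real_lim hψ hL hτ
  have h1 := h.tendsto (τ := (τ : ℂ)) (by simpa using hτ)
  simp only [SN_real hψ _ hτ] at h1
  have h2 := tendsto_nhds_unique h1 ((Complex.continuous_ofReal.tendsto _).comp ha)
  rw [h2, Complex.ofReal_re]
  exact ⟨rfl, hb⟩

/-- the orbit in the limit -/
theorem Lim.orbit {χ : ℂ → ℂ} (h : Lim ψ χ) (hψ : IsExteriorMap (multibrotSet 2) ψ) {L : ℂ → ℂ}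
    {l : ℝ → ℝ} (hL : Lav L l) {τ : ℂ} (hτ : 0 < τ.re) : ‖L (χ τ) - Complex.exp (τ / 2)‖ ≤ 3 := by
  have h1 := lav_seq hL.lim hL.diff.continuous (tendsto_add_atTop_nat 1)
    ((h.tendsto hτ).comp (tendsto_add_atTop_nat 1))
  refine le_of_tendsto (h1.sub_const (Complex.exp (τ / 2))).norm (Eventually.of_forall fun k => ?_)
  simp only [Function.comp]
  rw [← SN_rel]
  have hw : 1 < ‖Complex.exp (τ / 2 ^ (k + 1))‖ := by
    apply exp_mem
    rw [(pow2_re τ (k + 1)).1]
    positivity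
  have h2 := bott hψ hw k
  have e3 : Complex.exp (τ / 2 ^ (k + 1)) ^ 2 ^ k = Complex.exp (τ / 2) := by
    rw [← Complex.exp_nat_mul]
    congr 1
    push_cast
    rw [pow_succ]
    field_simp
  rwa [e3] at h2

theorem Lim.iter {χ : ℂ → ℂ} (h : Lim ψ χ) {L : ℂ → ℂ}
    {l : ℝ → ℝ} (hL : Lav L l) {τ : ℂ} (hτ : 0 < τ.re) (j : ℕ) :
    L (χ (2 ^ (j + 1) * τ)) = L (χ (2 ^ j * τ)) ^ 2 + 1 / 4 := by
  have h1 : (2 : ℂ) ^ (j + 1) * τ = 2 * (2 ^ j * τ) := by rw [pow_succ]; ring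
  rw [h1, h.fe (by rw [two_re]; positivity), hL.fe]

/-- the limit of the orbit is a function of `exp (τ / 2)` -/
theorem Lim.periodic {χ : ℂ → ℂ} (h : Lim ψ χ) (hψ : IsExteriorMap (multibrotSet 2) ψ) {L : ℂ → ℂ}
    {l : ℝ → ℝ} (hL : Lav L l) {τ : ℂ} (hτ : 0 < τ.re) :
    L (χ (τ + 4 * Real.pi * Complex.I)) = L (χ τ) := by
  have hre : ∀ z : ℂ, (z + 4 * Real.pi * Complex.I).re = z.re := by
    intro z
    simp
  -- large real part
  have hbig : ∀ z : ℂ, 4 < z.re → L (χ (z + 4 * Real.pi * Complex.I)) = L (χ z) := by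
    intro z hz
    have hz0 : 0 < z.re := by linarith
    have hz1 : 0 < (z + 4 * Real.pi * Complex.I).re := by rw [hre]; exact hz0
    obtain ⟨a, ha⟩ : ∃ a : ℕ → ℂ, ∀ j, a j = L (χ (2 ^ j * (z + 4 * Real.pi * Complex.I))) :=
      ⟨_, fun _ => rfl⟩
    obtain ⟨b, hb⟩ : ∃ b : ℕ → ℂ, ∀ j, b j = L (χ (2 ^ j * z)) := ⟨_, fun _ => rfl⟩
    have hexp : ∀ j : ℕ, Complex.exp (2 ^ j * (z + 4 * Real.pi * Complex.I) / 2) =
        Complex.exp (2 ^ j * z / 2) := by
      intro j
      have : (2 : ℂ) ^ j * (z + 4 * Real.pi * Complex.I) / 2 =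
          2 ^ j * z / 2 + ((2 ^ j : ℕ) : ℂ) * (2 * Real.pi * Complex.I) := by
        push_cast; ring
      rw [this, Complex.exp_add, Complex.exp_nat_mul_two_pi_mul_I, mul_one]
    have ha3 : ∀ j, ‖a j - Complex.exp (2 ^ j * z / 2)‖ ≤ 3 := by
      intro j
      have := h.orbit hψ hL (τ := 2 ^ j * (z + 4 * Real.pi * Complex.I))
        (by rw [two_re]; positivity)
      rwa [hexp, ← ha] at this
    have hb3 : ∀ j, ‖b j - Complex.exp (2 ^ j * z / 2)‖ ≤ 3 := by
      intro j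
      have := h.orbit hψ hL (τ := 2 ^ j * z) (by rw [two_re]; positivity)
      rwa [← hb] at this
    have hE : ∀ j : ℕ, 4 ≤ ‖Complex.exp (2 ^ j * z / 2)‖ := by
      intro j
      rw [Complex.norm_exp]
      have h1 : ((2 : ℂ) ^ j * z / 2).re = 2 ^ j * z.re / 2 := by
        rw [show (2 : ℂ) ^ j * z / 2 = (2 ^ j * z) / ((2 : ℝ) : ℂ) by norm_num,
          Complex.div_ofReal_re, two_re]
      rw [h1]
      have h2 : 2 ≤ 2 ^ j * z.re / 2 := by
        have : (1 : ℝ) ≤ 2 ^ j := one_le_pow₀ (by norm_num)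
        nlinarith
      have h3 : Real.exp 2 ≤ Real.exp (2 ^ j * z.re / 2) := Real.exp_le_exp.2 h2
      have h4 : Real.exp 2 = Real.exp 1 * Real.exp 1 := by rw [← Real.exp_add]; norm_num
      have h5 := Real.exp_one_gt_d9
      nlinarith
    have hgrow : ∀ j, 2 ^ j * ‖a 0 - b 0‖ ≤ ‖a j - b j‖ := by
      intro j
      induction j with
      | zero => simp
      | succ j ih =>
        have e1 : a (j + 1) = a j ^ 2 + 1 / 4 := by rw [ha, ha, h.iter hL hz1]
        have e2 : b (j + 1) = b j ^ 2 + 1 / 4 := by rw [hb, hb, h.iter hL hz0]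
        have e3 : a (j + 1) - b (j + 1) = (a j + b j) * (a j - b j) := by rw [e1, e2]; ring
        have h4 : 2 ≤ ‖a j + b j‖ := by
          have e4 : (2 : ℂ) * Complex.exp (2 ^ j * z / 2) = (a j + b j) -
              ((a j - Complex.exp (2 ^ j * z / 2)) + (b j - Complex.exp (2 ^ j * z / 2))) := by
            ring
          have h5 : ‖(2 : ℂ) * Complex.exp (2 ^ j * z / 2)‖ ≤ ‖a j + b j‖ + 6 := by
            rw [e4]
            refine (norm_sub_le _ _).trans ?_
            have := norm_add_le (a j - Complex.exp (2 ^ j * z / 2))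
              (b j - Complex.exp (2 ^ j * z / 2))
            linarith [ha3 j, hb3 j]
          rw [norm_mul, Complex.norm_ofNat] at h5
          linarith [hE j]
        rw [e3, norm_mul, pow_succ]
        have h6 : 0 ≤ 2 ^ j * ‖a 0 - b 0‖ := by positivity
        nlinarith
    have h6 : ∀ j, ‖a j - b j‖ ≤ 6 := by
      intro j
      have : a j - b j = (a j - Complex.exp (2 ^ j * z / 2)) -
          (b j - Complex.exp (2 ^ j * z / 2)) := by ring
      rw [this]
      refine (norm_sub_le _ _).trans ?_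
      linarith [ha3 j, hb3 j]
    have h0 : ‖a 0 - b 0‖ = 0 := by
      by_contra hne
      have hpos : 0 < ‖a 0 - b 0‖ := lt_of_le_of_ne (norm_nonneg _) (Ne.symm hne)
      obtain ⟨i, hi⟩ := pow_unbounded_of_one_lt (7 / ‖a 0 - b 0‖) (show (1 : ℝ) < 2 by norm_num)
      rw [div_lt_iff₀ hpos] at hi
      linarith [hgrow i, h6 i]
    have h7 : a 0 = b 0 := sub_eq_zero.1 (norm_eq_zero.1 h0)
    rw [ha, hb] at h7
    simpa using h7
  -- identity theorem
  have hop : IsOpen {z : ℂ | 0 < z.re} := isOpen_re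
  have hA : AnalyticOnNhd ℂ (fun z => L (χ z)) {z : ℂ | 0 < z.re} :=
    (hL.diff.comp_differentiableOn h.diff).analyticOnNhd hop
  have hB : AnalyticOnNhd ℂ (fun z => L (χ (z + 4 * Real.pi * Complex.I))) {z : ℂ | 0 < z.re} := by
    refine DifferentiableOn.analyticOnNhd ?_ hop
    refine hL.diff.comp_differentiableOn (h.diff.comp (by fun_prop) ?_)
    intro z hz
    show 0 < (z + 4 * Real.pi * Complex.I).re
    rw [hre]; exact hz
  have hpre : IsPreconnected {z : ℂ | 0 < z.re} := (convex_halfSpace_re_gt 0).isPreconnected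
  have h5 : (5 : ℂ) ∈ {z : ℂ | 0 < z.re} := by simp
  have hev : (fun z => L (χ (z + 4 * Real.pi * Complex.I))) =ᶠ[𝓝 (5 : ℂ)] fun z => L (χ z) := by
    have : {z : ℂ | 4 < z.re} ∈ 𝓝 (5 : ℂ) :=
      (isOpen_lt continuous_const Complex.continuous_re).mem_nhds (by simp; norm_num)
    filter_upwards [this] with z hz using hbig z hz
  exact hB.eqOn_of_preconnected_of_eventuallyEq hA hpre h5 hev hτ

/-- **oscillation**: the limit function is not a logarithm -/
theorem Lim.osc {χ : ℂ → ℂ} (h : Lim ψ χ) (hψ : IsExteriorMap (multibrotSet 2) ψ) (K : ℂ) :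
    ¬ ∀ τ : ℝ, 0 < τ → χ (τ : ℂ) = Complex.log τ / Real.log 2 + K := by
  intro hK
  obtain ⟨L, l, hL⟩ := exists_lav
  have hl2 : (Real.log 2 : ℂ) ≠ 0 := by
    exact_mod_cast (Real.log_pos (by norm_num : (1 : ℝ) < 2)).ne'
  have hop : IsOpen {z : ℂ | 0 < z.re} := isOpen_re
  have hpre : IsPreconnected {z : ℂ | 0 < z.re} := (convex_halfSpace_re_gt 0).isPreconnected
  -- the identity on the half plane
  have hKc : ∀ τ : ℂ, 0 < τ.re → χ τ = Complex.log τ / Real.log 2 + K := by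
    have hA : AnalyticOnNhd ℂ χ {z : ℂ | 0 < z.re} := h.diff.analyticOnNhd hop
    have hB : AnalyticOnNhd ℂ (fun τ => Complex.log τ / Real.log 2 + K) {z : ℂ | 0 < z.re} := by
      refine DifferentiableOn.analyticOnNhd ?_ hop
      intro z hz
      apply DifferentiableAt.differentiableWithinAt
      exact ((Complex.differentiableAt_log (Or.inl hz)).div_const _).add_const _
    have hfreq : ∃ᶠ z in 𝓝[≠] (((1 : ℝ) : ℂ)), χ z = Complex.log z / Real.log 2 + K := by
      have hfr : ∃ᶠ x : ℝ in 𝓝[≠] (1 : ℝ), χ (x : ℂ) = Complex.log x / Real.log 2 + K := by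
        apply Eventually.frequently
        have h1 : ∀ᶠ x : ℝ in 𝓝 (1 : ℝ), 0 < x := lt_mem_nhds one_pos
        filter_upwards [h1.filter_mono nhdsWithin_le_nhds] with x hx using hK x hx
      have ht : Tendsto (fun x : ℝ => (x : ℂ)) (𝓝[≠] (1 : ℝ)) (𝓝[≠] (((1 : ℝ) : ℂ))) := by
        apply tendsto_nhdsWithin_of_tendsto_nhds_of_eventually_within
        · exact (Complex.continuous_ofReal.tendsto _).mono_left nhdsWithin_le_nhds
        · filter_upwards [self_mem_nhdsWithin] with x hx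
          intro h2
          exact hx (Complex.ofReal_injective h2)
      exact ht.frequently hfr
    have := hA.eqOn_of_preconnected_of_frequently_eq hB hpre
      (show ((1 : ℝ) : ℂ) ∈ {z : ℂ | 0 < z.re} by simp) hfreq
    exact fun τ hτ => this hτ
  -- the extension
  set H : ℂ → ℂ := fun τ => L (Complex.log (τ + 4 * Real.pi * Complex.I) / Real.log 2 + K) with hH
  have him : ∀ z : ℂ, (z + 4 * Real.pi * Complex.I).im = z.im + 4 * Real.pi := by
    intro z
    simp
  have hre : ∀ z : ℂ, (z + 4 * Real.pi * Complex.I).re = z.re := by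
    intro z
    simp
  have hU : IsOpen {z : ℂ | -(4 * Real.pi) < z.im} :=
    isOpen_lt continuous_const Complex.continuous_im
  have hUc : IsPreconnected {z : ℂ | -(4 * Real.pi) < z.im} :=
    (convex_halfSpace_im_gt _).isPreconnected
  have hHd : DifferentiableOn ℂ H {z : ℂ | -(4 * Real.pi) < z.im} := by
    intro z hz
    apply DifferentiableAt.differentiableWithinAt
    have h1 : z + 4 * Real.pi * Complex.I ∈ Complex.slitPlane := by
      right
      rw [him]
      have : -(4 * Real.pi) < z.im := hz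
      intro h2
      linarith
    have h2 : DifferentiableAt ℂ (fun z : ℂ => z + 4 * Real.pi * Complex.I) z := by fun_prop
    exact (hL.diff _).comp z (((h2.clog h1).div_const _).add_const _)
  have hHA : AnalyticOnNhd ℂ H {z : ℂ | -(4 * Real.pi) < z.im} := hHd.analyticOnNhd hU
  have hHL : ∀ z : ℂ, 0 < z.re → H z = L (χ z) := by
    intro z hz
    rw [hH, ← h.periodic hψ hL hz, hKc _ (by rw [hre]; exact hz)]
  have hH2 : ∀ z : ℂ, 0 < z.re → H (2 * z) = H z ^ 2 + 1 / 4 := by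
    intro z hz
    have hz2 : 0 < (2 * z).re := by
      have := two_re z 1
      rw [pow_one, pow_one] at this
      rw [this]; positivity
    rw [hHL _ hz2, hHL _ hz, h.fe hz, hL.fe]
  have hpi := Real.pi_gt_three
  have hball : ∀ z ∈ ball (0 : ℂ) 1, -(4 * Real.pi) < z.im ∧ -(4 * Real.pi) < (2 * z).im := by
    intro z hz
    rw [mem_ball_zero_iff] at hz
    have h1 := (Complex.abs_im_le_norm z).trans_lt hz
    rw [abs_lt] at h1
    have h2 : (2 * z).im = 2 * z.im := by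
      rw [show (2 : ℂ) = ((2 : ℝ) : ℂ) by norm_num, Complex.im_ofReal_mul]
    rw [h2]
    constructor <;> linarith [h1.1]
  have hH3 : ∀ z ∈ ball (0 : ℂ) 1, H (2 * z) = H z ^ 2 + 1 / 4 := by
    have hA : AnalyticOnNhd ℂ (fun z => H (2 * z)) (ball (0 : ℂ) 1) := by
      refine DifferentiableOn.analyticOnNhd ?_ isOpen_ball
      exact hHd.comp (by fun_prop) fun z hz => (hball z hz).2
    have hB : AnalyticOnNhd ℂ (fun z => H z ^ 2 + 1 / 4) (ball (0 : ℂ) 1) := by
      refine DifferentiableOn.analyticOnNhd ?_ isOpen_ball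
      exact ((hHd.mono fun z hz => (hball z hz).1).pow 2).add_const _
    have hmem : (1 / 2 : ℂ) ∈ ball (0 : ℂ) 1 := by
      rw [mem_ball_zero_iff]; norm_num
    have hev : (fun z => H (2 * z)) =ᶠ[𝓝 (1 / 2 : ℂ)] fun z => H z ^ 2 + 1 / 4 := by
      have : {z : ℂ | 0 < z.re} ∈ 𝓝 (1 / 2 : ℂ) := hop.mem_nhds (by simp)
      filter_upwards [this] with z hz using hH2 z hz
    have := hA.eqOn_of_preconnected_of_eventuallyEq hB (convex_ball _ _).isPreconnected hmem hev
    exact fun z hz => this hz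
  have h0m : (0 : ℂ) ∈ {z : ℂ | -(4 * Real.pi) < z.im} := by
    show -(4 * Real.pi) < (0 : ℂ).im
    rw [Complex.zero_im]
    linarith
  have hk0 : H 0 = 1 / 2 := by
    have h1 := hH3 0 (mem_ball_self one_pos)
    rw [mul_zero] at h1
    have h2 : (H 0 - 1 / 2) ^ 2 = 0 := by linear_combination -h1
    exact sub_eq_zero.1 (pow_eq_zero_iff (two_ne_zero)|>.1 h2)
  set k : ℂ → ℂ := fun z => H z - 1 / 2 with hk
  have hkA : AnalyticAt ℂ k 0 := (hHA 0 h0m).sub analyticAt_const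
  have hk2 : ∀ z ∈ ball (0 : ℂ) 1, k (2 * z) = k z * (1 + k z) := by
    intro z hz
    simp only [hk]
    rw [hH3 z hz]
    ring
  by_cases hzero : ∀ᶠ z in 𝓝 (0 : ℂ), k z = 0
  · -- `H` is constant
    have hB : AnalyticOnNhd ℂ (fun _ : ℂ => (1 / 2 : ℂ)) {z : ℂ | -(4 * Real.pi) < z.im} :=
      analyticOnNhd_const
    have hev : H =ᶠ[𝓝 (0 : ℂ)] fun _ => (1 / 2 : ℂ) := by
      filter_upwards [hzero] with z hz
      exact sub_eq_zero.1 hz
    have hEq := hHA.eqOn_of_preconnected_of_eventuallyEq hB hUc h0m hev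
    have h4 : H (4 : ℂ) = 1 / 2 := hEq (show -(4 * Real.pi) < (4 : ℂ).im by simp; linarith)
    have h5 := h.orbit hψ hL (τ := 4) (by simp)
    rw [← hHL 4 (by simp), h4] at h5
    have h6 : Complex.exp (4 / 2) = ((Real.exp 2 : ℝ) : ℂ) := by
      push_cast; norm_num
    rw [h6] at h5
    have h7 : (1 / 2 : ℂ) - ((Real.exp 2 : ℝ) : ℂ) = ((1 / 2 - Real.exp 2 : ℝ) : ℂ) := by
      push_cast; ring
    rw [h7, Complex.norm_real, Real.norm_eq_abs] at h5
    have h8 := (abs_le.1 h5).1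
    have h9 : Real.exp 2 = Real.exp 1 * Real.exp 1 := by rw [← Real.exp_add]; norm_num
    have h10 := Real.exp_one_gt_d9
    nlinarith
  · obtain ⟨n, g, hg, hg0, hgk⟩ := hkA.exists_eventuallyEq_pow_smul_nonzero_iff.2 hzero
    have ht2 : Tendsto (fun z : ℂ => 2 * z) (𝓝 0) (𝓝 0) := by
      have : Continuous fun z : ℂ => 2 * z := by fun_prop
      simpa using this.tendsto 0
    have hn : n ≠ 0 := by
      rintro rfl
      have h1 := hgk.self_of_nhds
      simp only [pow_zero, one_smul] at h1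
      apply hg0
      rw [← h1]
      simp only [hk, hk0, sub_self]
    have hev : ∀ᶠ z in 𝓝[≠] (0 : ℂ), 2 ^ n * g (2 * z) = g z * (1 + k z) := by
      have h1 : ∀ᶠ z in 𝓝 (0 : ℂ), k (2 * z) = (2 * z - 0) ^ n • g (2 * z) := ht2.eventually hgk
      have h2 : ∀ᶠ z in 𝓝 (0 : ℂ), z ∈ ball (0 : ℂ) 1 := ball_mem_nhds 0 one_pos
      filter_upwards [h1.filter_mono nhdsWithin_le_nhds, hgk.filter_mono nhdsWithin_le_nhds,
        h2.filter_mono nhdsWithin_le_nhds, self_mem_nhdsWithin] with z z1 z2 z3 z4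
      have h3 := hk2 z z3
      rw [z1] at h3
      nth_rewrite 1 [z2] at h3
      rw [sub_zero, sub_zero, smul_eq_mul, smul_eq_mul, mul_pow] at h3
      have hzn : z ^ n ≠ 0 := pow_ne_zero n z4
      apply mul_left_cancel₀ hzn
      linear_combination h3
    have hlim1 : Tendsto (fun z : ℂ => 2 ^ n * g (2 * z)) (𝓝[≠] 0) (𝓝 (2 ^ n * g 0)) :=
      ((hg.continuousAt.tendsto.comp ht2).const_mul _).mono_left nhdsWithin_le_nhds
    have hlim2 : Tendsto (fun z : ℂ => g z * (1 + k z)) (𝓝[≠] 0) (𝓝 (g 0 * (1 + k 0))) :=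
      (hg.continuousAt.tendsto.mul (hkA.continuousAt.tendsto.const_add 1)).mono_left
        nhdsWithin_le_nhds
    have h1 := tendsto_nhds_unique hlim1 (hlim2.congr' (hev.mono fun z hz => hz.symm))
    have h2 : k 0 = 0 := by simp only [hk, hk0, sub_self]
    rw [h2, add_zero, mul_one] at h1
    have h3 : (2 : ℂ) ^ n = 1 := by
      have : ((2 : ℂ) ^ n - 1) * g 0 = 0 := by linear_combination h1
      exact sub_eq_zero.1 ((mul_eq_zero.1 this).resolve_right hg0)
    have h4 : (2 : ℝ) ^ n = 1 := by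
      have := congrArg norm h3
      rwa [norm_pow, Complex.norm_ofNat, norm_one] at this
    have h5 : (1 : ℝ) < 2 ^ n := one_lt_pow₀ (by norm_num) hn
    linarith

end Pool.Agent.T6.H4.Cusp
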