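import Pool.Agent.T6.H4.Cusp.Unif

set_option autoImplicit false

/-! # The derivative of the exterior map in Stolz angles -/

open Complex Metric Set Filter Topology Pool.Agent.H712R2 Pool.Agent.H713R2 N62a1eb23

namespace Pool.Agent.T6.H4.Cusp

variable {ψ : ℂ → ℂ}

theorem Fe_xi (ψ : ℂ → ℂ) (t : ℂ) : Fe ψ t = 1 / 4 + (Real.pi : ℂ) ^ 2 / (xi ψ t) ^ 2 := by
  have h := SN_rel ψ 0 t
  rw [pow_zero, div_one, SN, pow_zero, div_one] at h
  simpa [Fe] using h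

theorem xi_ne {t : ℂ} (h1 : 0 < (Fe ψ t - 1 / 4).re) : xi ψ t ≠ 0 := by
  have hpi : (Real.pi : ℂ) ≠ 0 := by exact_mod_cast Real.pi_ne_zero
  rw [xi]
  apply div_ne_zero hpi
  intro h
  have := half_re_pos h1
  rw [h] at this
  simp at this

theorem deriv_rel (hψ : IsExteriorMap (multibrotSet 2) ψ) {t : ℂ} (h0 : 0 < t.re)
    (h1 : 0 < (Fe ψ t - 1 / 4).re) :
    deriv (Fe ψ) t = -2 * (Real.pi : ℂ) ^ 2 * deriv (xi ψ) t / (xi ψ t) ^ 3 := by
  have hx := (xi_diffAt hψ h0 h1).hasDerivAt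
  have hne := xi_ne h1
  have h2 : HasDerivAt (fun t => 1 / 4 + (Real.pi : ℂ) ^ 2 / (xi ψ t) ^ 2)
      (-2 * (Real.pi : ℂ) ^ 2 * deriv (xi ψ) t / (xi ψ t) ^ 3) t := by
    have h3 := ((hasDerivAt_const t ((Real.pi : ℂ) ^ 2)).div (hx.pow 2)
      (pow_ne_zero 2 hne)).const_add (1 / 4)
    refine h3.congr_deriv ?_
    simp only [Pi.pow_apply, zero_mul, zero_sub, Nat.cast_ofNat, Nat.add_one_sub_one, pow_one]
    field_simp
  have h4 : Fe ψ = fun t => 1 / 4 + (Real.pi : ℂ) ^ 2 / (xi ψ t) ^ 2 := funext (Fe_xi ψ)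
  rw [h4]
  exact h2.deriv

/-- multiplicatively periodic functions are bounded in Stolz angles -/
theorem bdd_of_per {g : ℂ → ℂ} (hg : ContinuousOn g {τ : ℂ | 0 < τ.re})
    (hp : ∀ (N : ℕ) (t : ℂ), 0 < t.re → g (2 ^ N * t) = g t) (κ : ℝ) :
    ∃ B : ℝ, 0 ≤ B ∧ ∀ t ∈ St κ, ‖t‖ < 1 → ‖g t‖ ≤ B := by
  obtain ⟨B, hB⟩ := (Kt_compact κ).exists_bound_of_continuousOn (hg.mono fun t ht => Kt_pos ht)
  refine ⟨|B|, abs_nonneg _, fun t ht ht1 => ?_⟩
  obtain ⟨N, -, hK⟩ := rescale ht (n0 := 0) (by simpa using ht1)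
  rw [← hp N t ht.1]
  exact (hB _ hK).trans (le_abs_self B)

/-- the periodic part -/
theorem Lim.per1 {χ : ℂ → ℂ} (h : Lim ψ χ) (κ : ℝ) :
    ∃ B : ℝ, 0 ≤ B ∧ ∀ t ∈ St κ, ‖t‖ < 1 → ‖χ t - Complex.log t / Real.log 2‖ ≤ B := by
  have hl2 : (Real.log 2 : ℂ) ≠ 0 := by
    exact_mod_cast (Real.log_pos (by norm_num : (1 : ℝ) < 2)).ne'
  refine bdd_of_per (g := fun t => χ t - Complex.log t / Real.log 2) ?_ ?_ κ
  · refine h.diff.continuousOn.sub ?_
    intro t ht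
    exact ((Complex.differentiableAt_log (Or.inl ht)).div_const _).continuousAt.continuousWithinAt
  · intro N t ht
    have ht0 : t ≠ 0 := fun h => by rw [h] at ht; simp at ht
    have h1 : Complex.log (2 ^ N * t) = (Real.log 2 * N : ℝ) + Complex.log t := by
      have e1 : (2 : ℂ) ^ N = ((2 ^ N : ℝ) : ℂ) := by push_cast; rfl
      rw [e1, Complex.log_ofReal_mul (by positivity) ht0, Real.log_pow, mul_comm]
    rw [h1, h.fe_pow ht]
    push_cast
    push_cast at hl2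
    field_simp
    ring

theorem Lim.per2 {χ : ℂ → ℂ} (h : Lim ψ χ) (κ : ℝ) :
    ∃ B : ℝ, 0 ≤ B ∧ ∀ t ∈ St κ, ‖t‖ < 1 → ‖t * deriv χ t‖ ≤ B := by
  refine bdd_of_per (g := fun t => t * deriv χ t) ?_ ?_ κ
  · exact continuousOn_id.mul (h.diff.deriv isOpen_re).continuousOn
  · intro N t ht
    rw [← h.deriv_fe ht N]
    ring

theorem St_mem_lt (κ : ℝ) {r : ℝ} (hr : 0 < r) : ∀ᶠ t in 𝓝[St κ] (0 : ℂ), ‖t‖ < r := by
  have : ball (0 : ℂ) r ∈ 𝓝 (0 : ℂ) := ball_mem_nhds 0 hr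
  filter_upwards [mem_nhdsWithin_of_mem_nhds this] with t ht using mem_ball_zero_iff.1 ht

theorem log_cob (κ : ℝ) : Tendsto (fun t => ‖Complex.log t‖) (𝓝[St κ] 0) atTop := by
  have h1 : Tendsto (fun t : ℂ => -Real.log ‖t‖) (𝓝[St κ] 0) atTop := by
    have h2 : Tendsto (fun t : ℂ => ‖t‖) (𝓝[St κ] 0) (𝓝[>] 0) := by
      apply tendsto_nhdsWithin_of_tendsto_nhds_of_eventually_within
      · have : Tendsto (fun t : ℂ => ‖t‖) (𝓝 0) (𝓝 0) := by
          simpa using continuous_norm.tendsto (0 : ℂ)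
        exact this.mono_left nhdsWithin_le_nhds
      · filter_upwards [self_mem_nhdsWithin] with t ht
        have := Complex.re_le_norm t
        exact lt_of_lt_of_le ht.1 this
    exact tendsto_neg_atBot_atTop.comp (Real.tendsto_log_nhdsGT_zero.comp h2)
  refine tendsto_atTop_mono (fun t => ?_) h1
  have h3 := Complex.abs_re_le_norm (Complex.log t)
  rw [Complex.log_re] at h3
  exact (neg_le_abs _).trans h3

/-- the quotient of the coordinate and the logarithm -/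
theorem Lim.quot {χ : ℂ → ℂ} (h : Lim ψ χ) (κ : ℝ) :
    Tendsto (fun t => xi ψ t / (-Complex.log t)) (𝓝[St κ] 0) (𝓝 (1 / Real.log 2 : ℂ)) := by
  have hl2 : (Real.log 2 : ℂ) ≠ 0 := by
    exact_mod_cast (Real.log_pos (by norm_num : (1 : ℝ) < 2)).ne'
  obtain ⟨B, hB0, hB⟩ := h.per1 κ
  rw [tendsto_iff_norm_sub_tendsto_zero]
  have h1 : Tendsto (fun t => (B + 1) * (‖Complex.log t‖)⁻¹) (𝓝[St κ] 0) (𝓝 0) := by
    have := (tendsto_inv_atTop_zero.comp (log_cob κ)).const_mul (B + 1)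
    simpa using this
  have h2 : ∀ᶠ t in 𝓝[St κ] (0 : ℂ), ‖xi ψ t + χ t‖ < 1 := by
    have := (h.stolz κ).norm
    rw [norm_zero] at this
    exact this.eventually (gt_mem_nhds one_pos)
  refine squeeze_zero' (Eventually.of_forall fun t => norm_nonneg _) ?_ h1
  filter_upwards [h2, St_mem_lt κ one_pos, self_mem_nhdsWithin,
    (log_cob κ).eventually_gt_atTop 0] with t t1 t2 t3 t4
  have hlog : Complex.log t ≠ 0 := norm_pos_iff.1 t4
  have e1 : xi ψ t / (-Complex.log t) - 1 / (Real.log 2 : ℂ) =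
      ((xi ψ t + χ t) - (χ t - Complex.log t / Real.log 2)) / (-Complex.log t) := by
    field_simp
    ring
  rw [e1, norm_div, norm_neg, div_eq_mul_inv]
  apply mul_le_mul_of_nonneg_right _ (inv_nonneg.2 (norm_nonneg _))
  refine (norm_sub_le _ _).trans ?_
  linarith [hB t t3 t2]

/-- **the derivative in Stolz angles** -/
theorem Lim.stolz_psi {χ : ℂ → ℂ} (h : Lim ψ χ) (hψ : IsExteriorMap (multibrotSet 2) ψ) {κ : ℝ}
    (hκ : 0 ≤ κ) :
    Tendsto (fun t => (-Complex.log t) ^ 3 * (t * deriv (Fe ψ) t) -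
      2 * (Real.pi : ℂ) ^ 2 * (Real.log 2 : ℂ) ^ 3 * (t * deriv χ t)) (𝓝[St κ] 0) (𝓝 0) := by
  have hl2 : (Real.log 2 : ℂ) ≠ 0 := by
    exact_mod_cast (Real.log_pos (by norm_num : (1 : ℝ) < 2)).ne'
  obtain ⟨ρ, C, hρ, -, hC, hst⟩ := xi_stolz hψ hκ
  obtain ⟨B, hB0, hB⟩ := h.per2 κ
  -- `Q = ((-log t) / ξ) ^ 3` tends to `(log 2) ^ 3`
  have hQ : Tendsto (fun t => ((xi ψ t / (-Complex.log t)) ^ 3)⁻¹) (𝓝[St κ] 0)
      (𝓝 ((Real.log 2 : ℂ) ^ 3)) := by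
    have h1 := ((h.quot κ).pow 3).inv₀ (pow_ne_zero 3 (one_div_ne_zero hl2))
    have e1 : ((1 / (Real.log 2 : ℂ)) ^ 3)⁻¹ = (Real.log 2 : ℂ) ^ 3 := by
      field_simp
    rwa [e1] at h1
  have hbdd : Tendsto (fun t => (t * deriv χ t) *
      (((xi ψ t / (-Complex.log t)) ^ 3)⁻¹ - (Real.log 2 : ℂ) ^ 3)) (𝓝[St κ] 0) (𝓝 0) := by
    have h1 : Tendsto (fun t => B * ‖((xi ψ t / (-Complex.log t)) ^ 3)⁻¹ -
        (Real.log 2 : ℂ) ^ 3‖) (𝓝[St κ] 0) (𝓝 0) := by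
      have := ((hQ.sub_const ((Real.log 2 : ℂ) ^ 3)).norm).const_mul B
      simpa using this
    refine squeeze_zero_norm' ?_ h1
    filter_upwards [St_mem_lt κ one_pos, self_mem_nhdsWithin] with t t1 t2
    rw [norm_mul]
    exact mul_le_mul_of_nonneg_right (hB t t2 t1) (norm_nonneg _)
  have hsum := ((hbdd.const_mul (2 * (Real.pi : ℂ) ^ 2)).sub
    (((h.stolz_deriv hψ κ).mul hQ).const_mul (2 * (Real.pi : ℂ) ^ 2)))
  rw [mul_zero, zero_mul, mul_zero, sub_zero] at hsum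
  refine hsum.congr' ?_
  filter_upwards [St_mem_lt κ hρ, self_mem_nhdsWithin,
    (log_cob κ).eventually_gt_atTop 0] with t t1 t2 t4
  have hlog : Complex.log t ≠ 0 := norm_pos_iff.1 t4
  have hre : t.re ≤ ρ := (Complex.re_le_norm t).trans t1.le
  have h3 := (hst t t2.1 hre t2.2).1
  have hxne := xi_ne h3
  rw [deriv_rel hψ t2.1 h3]
  field_simp
  ring

/-- a lower bound of the derivative -/
theorem Lim.lower {χ : ℂ → ℂ} (h : Lim ψ χ) (hψ : IsExteriorMap (multibrotSet 2) ψ) :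
    ∃ c : ℝ, 0 < c ∧ ∀ τ : ℝ, 0 < τ → c ≤ (τ * deriv χ τ : ℂ).re := by
  obtain ⟨ρ, C, hρ, hρ1, hC, hst⟩ := xi_stolz hψ le_rfl
  refine ⟨4 * Real.exp (-365) / (2 * Real.pi ^ 2), by positivity, ?_⟩
  intro τ hτ
  have hpi := Real.pi_pos
  have h1 : Tendsto (fun N => (τ : ℂ) * deriv (SN ψ N) τ) atTop (𝓝 ((τ : ℂ) * deriv χ τ)) :=
    ((h.deriv_lim hψ).tendsto_at (show (τ : ℂ) ∈ {τ : ℂ | 0 < τ.re} by simpa using hτ)).const_mul _
  refine ge_of_tendsto ((Complex.continuous_re.tendsto _).comp h1) ?_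
  filter_upwards [tau_small τ hρ] with N hN
  obtain ⟨s, hs⟩ : ∃ s, s = τ / 2 ^ N := ⟨_, rfl⟩
  rw [← hs] at hN
  have hs0 : 0 < s := by rw [hs]; positivity
  have h3 := (hst (s : ℂ) (by simpa using hs0) (by simpa using hN) (by simp)).1
  have h4 := deriv_rel hψ (t := (s : ℂ)) (by simpa using hs0) h3
  have hxne := xi_ne h3
  have hs120 : s ≤ Real.exp (-120) := hN.trans hρ1
  have h5 := (ff_bounds hψ hs0 hs120).1
  have hl := neg_log_ge hs0 hs120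
  obtain ⟨l, hld⟩ : ∃ l, l = -Real.log s := ⟨_, rfl⟩
  rw [← hld] at hl
  rw [show |Real.log s| = l by
    rw [show Real.log s = -l by rw [hld]; ring, abs_neg, abs_of_pos (by linarith)]] at h5
  have hsp : s ≤ Real.pi := (hs120.trans (Real.exp_le_one_iff.2 (by norm_num))).trans
    (by linarith [Real.pi_gt_three])
  -- the value of `ξ`
  obtain ⟨x, hx⟩ : ∃ x, x = Real.pi / √(Rr ψ s - 1 / 4) := ⟨_, rfl⟩
  have hxi : xi ψ (s : ℂ) = (x : ℂ) := by rw [xi_real hψ hs0, hx]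
  have hlaw := (ray_law hψ hs0 (hs120.trans (Real.exp_le_exp.2 (by norm_num)))).2.2
  have hxl : l ≤ x := by
    have e1 : Real.pi * Real.log 2 / √(Rr ψ s - 1 / 4) = x * Real.log 2 := by rw [hx]; ring
    rw [e1, show Real.log s = -l by rw [hld]; ring] at hlaw
    have h6 := (abs_le.1 hlaw).1
    have h7 := Real.log_two_lt_d9
    have h8 := Real.log_two_gt_d9
    -- `x log 2 ≥ l - 36 ≥ 0.7 l`
    have h9 : 0.7 * l ≤ x * Real.log 2 := by linarith
    by_contra hcon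
    push Not at hcon
    have hx0 : 0 ≤ x := by rw [hx]; positivity
    nlinarith
  have hx0 : 0 < x := by linarith
  have hd : deriv (Fe ψ) (s : ℂ) = (ff ψ s : ℂ) :=
    Complex.ext (by simp [ff]) (by simpa using d_im hψ hs0)
  rw [hd, hxi] at h4
  have hxc : (x : ℂ) ≠ 0 := by exact_mod_cast hx0.ne'
  have hpic : (Real.pi : ℂ) ≠ 0 := by exact_mod_cast Real.pi_ne_zero
  have h6 : deriv (xi ψ) (s : ℂ) = ((-(ff ψ s * x ^ 3) / (2 * Real.pi ^ 2) : ℝ) : ℂ) := by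
    push_cast
    field_simp at h4 ⊢
    linear_combination h4
  have e1 : deriv (SN ψ N) (τ : ℂ) = -(deriv (xi ψ) (s : ℂ)) / 2 ^ N := by
    have e2 : SN ψ N = fun τ => (N : ℂ) - xi ψ ((2 ^ N)⁻¹ * τ) := by
      funext τ
      rw [SN, div_eq_inv_mul]
    rw [e2, deriv_const_sub, deriv_comp_mul_left]
    have e3 : ((2 : ℂ) ^ N)⁻¹ * τ = (s : ℂ) := by rw [hs]; push_cast; field_simp
    rw [e3, smul_eq_mul]
    field_simp
  have e2 : (τ : ℂ) * deriv (SN ψ N) (τ : ℂ) =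
      ((s * ff ψ s * x ^ 3 / (2 * Real.pi ^ 2) : ℝ) : ℂ) := by
    rw [e1, h6]
    have e3 : (τ : ℂ) = 2 ^ N * s := by rw [hs]; push_cast; field_simp
    rw [e3]
    push_cast
    field_simp
  simp only [Function.comp]
  rw [e2, Complex.ofReal_re]
  apply div_le_div_of_nonneg_right _ (by positivity)
  have h7 : l ^ 3 ≤ x ^ 3 := pow_le_pow_left₀ (by linarith) hxl 3
  have hl3 : 0 < l ^ 3 := by have : 0 < l := by linarith
                             positivity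
  rw [div_le_iff₀ hl3] at h5
  have h8 : 0 ≤ s * ff ψ s := mul_nonneg hs0.le (ff_pos hψ hs0 hsp).le
  calc 4 * Real.exp (-365) ≤ s * ff ψ s * l ^ 3 := h5
    _ ≤ s * ff ψ s * x ^ 3 := mul_le_mul_of_nonneg_left h7 h8

end Pool.Agent.T6.H4.Cusp
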