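import Pool.Agent.T6.H4.Cusp.Green

set_option autoImplicit false

/-! # The real ray of the exterior map -/

open Complex Metric Set Filter Topology Pool.Agent.H712R2 Pool.Agent.H713R2 N62a1eb23

namespace Pool.Agent.T6.H4.Cusp

theorem one_lt_norm {y : ℝ} (hy : 1 < y) : 1 < ‖(y : ℂ)‖ := by
  rw [Complex.norm_real, Real.norm_eq_abs, abs_of_pos (by linarith)]; exact hy

theorem one_lt_norm_neg {y : ℝ} (hy : 1 < y) : 1 < ‖((-y : ℝ) : ℂ)‖ := by
  rw [Complex.norm_real, Real.norm_eq_abs, abs_neg, abs_of_pos (by linarith)]; exact hy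

theorem isOpen_ext : IsOpen {z : ℂ | 1 < ‖z‖} := isOpen_lt continuous_const continuous_norm

theorem real_mem {c : ℝ} (h0 : 0 ≤ c) (h1 : c ≤ 1 / 4) : (c : ℂ) ∈ multibrotSet 2 := by
  rw [mem_multibrot_iff le_rfl]
  have key : ∀ k, ∃ p : ℝ, 0 ≤ p ∧ p ≤ 1 / 2 ∧ P 2 k (c : ℂ) = p := by
    intro k
    induction k with
    | zero => exact ⟨0, le_rfl, by norm_num, by simp [P_zero]⟩
    | succ k ih =>
      obtain ⟨p, hp0, hp1, hp⟩ := ih
      refine ⟨p ^ 2 + c, by positivity, by nlinarith, ?_⟩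
      rw [P_succ, hp]
      push_cast
      ring
  intro k
  obtain ⟨p, hp0, hp1, hp⟩ := key k
  rw [hp, Complex.norm_real, Real.norm_eq_abs, abs_of_nonneg hp0]
  linarith

variable {ψ : ℂ → ℂ}

theorem not_mem (hψ : IsExteriorMap (multibrotSet 2) ψ) {w : ℂ} (hw : 1 < ‖w‖) :
    ψ w ∉ multibrotSet 2 := by
  have h4 : ψ w ∈ (multibrotSet 2)ᶜ := by
    rw [← hψ.image]; exact mem_image_of_mem ψ hw
  exact h4

theorem psi_im (hψ : IsExteriorMap (multibrotSet 2) ψ) {y : ℝ} (hy : 1 < ‖(y : ℂ)‖) :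
    (ψ y).im = 0 := by
  have := Pool.Agent.T6.H68.Tip.psi_conj hψ hy
  rw [Complex.conj_ofReal] at this
  exact Complex.conj_eq_iff_im.1 this.symm

theorem psi_eq (hψ : IsExteriorMap (multibrotSet 2) ψ) {y : ℝ} (hy : 1 < ‖(y : ℂ)‖) :
    ψ y = ((ψ y).re : ℂ) := Complex.ext (by simp) (by simpa using psi_im hψ hy)

theorem re_not_mem (hψ : IsExteriorMap (multibrotSet 2) ψ) {y : ℝ} (hy : 1 < ‖(y : ℂ)‖) :
    ¬ (0 ≤ (ψ y).re ∧ (ψ y).re ≤ 1 / 4) := by
  rintro ⟨h0, h1⟩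
  have := real_mem h0 h1
  rw [← psi_eq hψ hy] at this
  exact not_mem hψ hy this

theorem cont_re (hψ : IsExteriorMap (multibrotSet 2) ψ) {y : ℝ} (hy : 1 < ‖(y : ℂ)‖) :
    ContinuousAt (fun y : ℝ => (ψ y).re) y := by
  have h2 : ContinuousAt ψ (y : ℂ) :=
    (hψ.diff.differentiableAt (isOpen_ext.mem_nhds hy)).continuousAt
  have h3 : ContinuousAt (fun y : ℝ => ψ y) y :=
    ContinuousAt.comp (g := ψ) (f := fun y : ℝ => (y : ℂ)) h2 Complex.continuous_ofReal.continuousAt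
  exact Complex.continuous_re.continuousAt.comp h3

theorem tendsto_re (hψ : IsExteriorMap (multibrotSet 2) ψ) :
    Tendsto (fun y : ℝ => (ψ y).re) atTop atTop := by
  have h2 : Tendsto (fun y : ℝ => (y : ℂ)) atTop (Bornology.cobounded ℂ) := by
    rw [← tendsto_norm_atTop_iff_cobounded]
    simp only [Complex.norm_real]
    exact tendsto_norm_atTop_atTop
  have h3 := hψ.infinity.comp h2
  have h4 : Tendsto (fun y : ℝ => (ψ y / y).re) atTop (𝓝 1) := by
    have := (Complex.continuous_re.tendsto (1 : ℂ)).comp h3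
    rw [Complex.one_re] at this
    exact this
  have h5 := h4.pos_mul_atTop one_pos tendsto_id
  refine h5.congr' ?_
  filter_upwards [eventually_gt_atTop (0 : ℝ)] with y hy
  rw [Complex.div_ofReal_re]
  simp only [id]
  field_simp

theorem tendsto_re_neg (hψ : IsExteriorMap (multibrotSet 2) ψ) :
    Tendsto (fun y : ℝ => (ψ ((-y : ℝ) : ℂ)).re) atTop atBot := by
  have h2 : Tendsto (fun y : ℝ => ((-y : ℝ) : ℂ)) atTop (Bornology.cobounded ℂ) := by
    rw [← tendsto_norm_atTop_iff_cobounded]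
    simp only [Complex.norm_real, norm_neg]
    exact tendsto_norm_atTop_atTop
  have h3 := hψ.infinity.comp h2
  have h4 : Tendsto (fun y : ℝ => (ψ ((-y : ℝ) : ℂ) / ((-y : ℝ) : ℂ)).re) atTop (𝓝 1) := by
    have := (Complex.continuous_re.tendsto (1 : ℂ)).comp h3
    rw [Complex.one_re] at this
    exact this
  have h5 := h4.pos_mul_atBot one_pos tendsto_neg_atTop_atBot
  refine h5.congr' ?_
  filter_upwards [eventually_gt_atTop (0 : ℝ)] with y hy
  rw [Complex.div_ofReal_re]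
  field_simp

theorem quarter_lt (hψ : IsExteriorMap (multibrotSet 2) ψ) {y : ℝ} (hy : 1 < y) :
    1 / 4 < (ψ y).re := by
  by_contra hcon
  push Not at hcon
  have hneg : (ψ y).re < 0 := by
    by_contra h
    push Not at h
    exact re_not_mem hψ (one_lt_norm hy) ⟨h, hcon⟩
  obtain ⟨z, hz1, hz2⟩ := (((tendsto_re hψ).eventually_gt_atTop 0).and
    (eventually_gt_atTop y)).exists
  have hc : ContinuousOn (fun y : ℝ => (ψ y).re) (Icc y z) := fun x hx =>
    (cont_re hψ (one_lt_norm (lt_of_lt_of_le hy hx.1))).continuousWithinAt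
  obtain ⟨x, hx1, hx2⟩ := intermediate_value_Icc hz2.le hc (show (0 : ℝ) ∈ Icc _ _ from
    ⟨hneg.le, hz1.le⟩)
  exact re_not_mem hψ (one_lt_norm (lt_of_lt_of_le hy hx1.1)) ⟨hx2.ge, by
    simp only at hx2; rw [hx2]; norm_num⟩

theorem neg_lt (hψ : IsExteriorMap (multibrotSet 2) ψ) {y : ℝ} (hy : 1 < y) :
    (ψ ((-y : ℝ) : ℂ)).re < 0 := by
  by_contra hcon
  push Not at hcon
  obtain ⟨z, hz1, hz2⟩ := (((tendsto_re_neg hψ).eventually_lt_atBot 0).and
    (eventually_gt_atTop y)).exists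
  have hc : ContinuousOn (fun y : ℝ => (ψ ((-y : ℝ) : ℂ)).re) (Icc y z) := fun x hx => by
    have h1 := cont_re hψ (one_lt_norm_neg (lt_of_lt_of_le hy hx.1))
    exact (ContinuousAt.comp (g := fun y : ℝ => (ψ y).re) (f := fun y : ℝ => -y) h1
      continuous_neg.continuousAt).continuousWithinAt
  obtain ⟨x, hx1, hx2⟩ := intermediate_value_Icc' hz2.le hc (show (0 : ℝ) ∈ Icc _ _ from
    ⟨hz1.le, hcon⟩)
  exact re_not_mem hψ (one_lt_norm_neg (lt_of_lt_of_le hy hx1.1)) ⟨hx2.ge, by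
    simp only at hx2; rw [hx2]; norm_num⟩

/-- a real value above `1 / 4` is attained at a positive real point -/
theorem w_pos (hψ : IsExteriorMap (multibrotSet 2) ψ) {w : ℂ} (hw : 1 < ‖w‖)
    {c : ℝ} (hc : 0 ≤ c) (hwc : ψ w = c) : w = ((‖w‖ : ℝ) : ℂ) := by
  have h1 : (starRingEnd ℂ) w = w := by
    have hw' : 1 < ‖(starRingEnd ℂ) w‖ := by rw [Complex.norm_conj]; exact hw
    apply hψ.inj hw' hw
    rw [Pool.Agent.T6.H68.Tip.psi_conj hψ hw, hwc, Complex.conj_ofReal]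
  rw [Complex.conj_eq_iff_real] at h1
  obtain ⟨x, hx⟩ := h1
  rcases lt_or_ge x 0 with hx0 | hx0
  · exfalso
    rw [hx, Complex.norm_real, Real.norm_eq_abs, abs_of_neg hx0] at hw
    have h2 := neg_lt hψ hw
    rw [neg_neg, ← hx, hwc, Complex.ofReal_re] at h2
    linarith
  · rw [hx, Complex.norm_real, Real.norm_eq_abs, abs_of_nonneg hx0]

/-- the real ray -/
noncomputable def Rr (ψ : ℂ → ℂ) (s : ℝ) : ℝ := (ψ ((Real.exp s : ℝ) : ℂ)).re

theorem Rr_eq (hψ : IsExteriorMap (multibrotSet 2) ψ) {s : ℝ} (hs : 0 < s) :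
    ψ ((Real.exp s : ℝ) : ℂ) = (Rr ψ s : ℂ) :=
  psi_eq hψ (one_lt_norm (Real.one_lt_exp_iff.2 hs))

theorem Rr_lt (hψ : IsExteriorMap (multibrotSet 2) ψ) {s : ℝ} (hs : 0 < s) :
    1 / 4 < Rr ψ s := quarter_lt hψ (Real.one_lt_exp_iff.2 hs)

theorem Rr_mono (hψ : IsExteriorMap (multibrotSet 2) ψ) {s t : ℝ} (hs : 0 < s) (hst : s < t) :
    Rr ψ s < Rr ψ t := by
  set g : ℝ → ℝ := fun u => Rr ψ (Real.exp u) with hg
  have hgt : ∀ u, 1 < Real.exp (Real.exp u) := fun u => Real.one_lt_exp_iff.2 (Real.exp_pos u)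
  have hgc : Continuous g := by
    rw [continuous_iff_continuousAt]
    intro u
    have h1 := cont_re hψ (one_lt_norm (hgt u))
    exact ContinuousAt.comp (g := fun y : ℝ => (ψ y).re) (f := fun u : ℝ => Real.exp (Real.exp u))
      h1 (by fun_prop)
  have hgi : Function.Injective g := by
    intro u v huv
    have h1 : ψ ((Real.exp (Real.exp u) : ℝ) : ℂ) = ψ ((Real.exp (Real.exp v) : ℝ) : ℂ) := by
      rw [Rr_eq hψ (Real.exp_pos u), Rr_eq hψ (Real.exp_pos v)]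
      exact congrArg _ huv
    have h2 := hψ.inj (one_lt_norm (hgt u)) (one_lt_norm (hgt v)) h1
    have h3 := Real.exp_injective (Complex.ofReal_injective h2)
    exact Real.exp_injective h3
  have hgm : StrictMono g := by
    rcases hgc.strictMono_of_inj hgi with h | h
    · exact h
    · exfalso
      have h1 : Tendsto g atTop atTop :=
        (tendsto_re hψ).comp (Real.tendsto_exp_atTop.comp Real.tendsto_exp_atTop)
      obtain ⟨u, hu1, hu2⟩ := ((h1.eventually_gt_atTop (g 0)).and (eventually_gt_atTop 0)).exists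
      have := h hu2
      linarith
  have h1 := hgm (Real.log_lt_log hs hst)
  simp only [hg] at h1
  rwa [Real.exp_log hs, Real.exp_log (hs.trans hst)] at h1

/-- The law of the escape rate on the ray. -/
theorem ray_law (hψ : IsExteriorMap (multibrotSet 2) ψ) {s : ℝ} (hs : 0 < s)
    (hs1 : s ≤ Real.exp (-39)) :
    0 < Rr ψ s - 1 / 4 ∧ Rr ψ s - 1 / 4 ≤ 1 ∧
      |Real.log s + Real.pi * Real.log 2 / √(Rr ψ s - 1 / 4)| ≤ 36 := by
  have h54 : ((5 / 4 : ℝ) : ℂ) ∉ multibrotSet 2 := by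
    rw [mem_multibrot_iff le_rfl]
    push Not
    refine ⟨2, ?_⟩
    have h1 : P 2 2 ((5 / 4 : ℝ) : ℂ) = ((45 / 16 : ℝ) : ℂ) := by
      rw [P_succ 2 1, P_succ 2 0, P_zero]
      push_cast
      norm_num
    rw [h1, Complex.norm_real]
    norm_num
  have h1 : ((5 / 4 : ℝ) : ℂ) ∈ ψ '' {z | 1 < ‖z‖} := by
    rw [hψ.image]; exact h54
  obtain ⟨w, hw, hwc⟩ := h1
  have hw' : 1 < ‖w‖ := hw
  have hwr := w_pos hψ hw' (by norm_num) hwc
  set s1 := Real.log ‖w‖ with hs1d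
  have hs1p : 0 < s1 := Real.log_pos hw'
  have hRs1 : Rr ψ s1 = 5 / 4 := by
    rw [Rr, hs1d, Real.exp_log (by linarith), ← hwr, hwc, Complex.ofReal_re]
  have hg := green_cusp hψ (ε := 1) one_pos le_rfl hw' (by rw [hwc]; norm_num)
  rw [← hs1d, Real.sqrt_one, div_one] at hg
  have hs1l : Real.exp (-39) ≤ s1 := by
    rw [← Real.le_log_iff_exp_le hs1p]
    have h3 := (abs_le.1 hg).1
    have h4 := Real.pi_lt_d2
    have h5 := Real.log_two_lt_d9
    have h6 := Real.pi_pos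
    have h7 := Real.log_two_gt_d9
    nlinarith
  have h0 := Rr_lt hψ hs
  have hle : Rr ψ s ≤ 5 / 4 := by
    rw [← hRs1]
    rcases (hs1.trans hs1l).lt_or_eq with h | h
    · exact (Rr_mono hψ hs h).le
    · rw [h]
  refine ⟨by linarith, by linarith, ?_⟩
  have hws : 1 < ‖((Real.exp s : ℝ) : ℂ)‖ := one_lt_norm (Real.one_lt_exp_iff.2 hs)
  have h2 := green_cusp hψ (ε := Rr ψ s - 1 / 4) (by linarith) (by linarith) hws
    (by rw [Rr_eq hψ hs]; congr 1; ring)
  rwa [Complex.norm_real, Real.norm_eq_abs, abs_of_pos (Real.exp_pos s), Real.log_exp] at h2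

end Pool.Agent.T6.H4.Cusp
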