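import Mathlib

set_option autoImplicit false

/-! # Passage of the real critical orbit through the gate at the cusp -/

open Real Set Filter Topology

namespace Pool.Agent.T6.H4.Cusp

/-- the critical orbit of `z ^ 2 + 1 / 4 + ε`, shifted by `1 / 2` -/
noncomputable def y (ε : ℝ) : ℕ → ℝ
  | 0 => -1 / 2
  | n + 1 => y ε n + ((y ε n) ^ 2 + ε)

/-- approximate Fatou coordinate -/
noncomputable def A (ε x : ℝ) : ℝ := arctan (x / √ε) / √ε + log (x ^ 2 + ε) / 2

theorem hasDerivAt_A {ε : ℝ} (hε : 0 < ε) (x : ℝ) :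
    HasDerivAt (A ε) ((1 + x) / (x ^ 2 + ε)) x := by
  have hs : 0 < √ε := Real.sqrt_pos.2 hε
  have hs2 : √ε ^ 2 = ε := Real.sq_sqrt hε.le
  have hv : 0 < x ^ 2 + ε := by positivity
  have h1 : HasDerivAt (fun x : ℝ => arctan (x / √ε) / √ε)
      (1 / (1 + (x / √ε) ^ 2) * (1 / √ε) / √ε) x := by
    have h := ((hasDerivAt_id x).div_const (√ε)).arctan.div_const (√ε)
    simpa using h
  have h2 : HasDerivAt (fun x : ℝ => log (x ^ 2 + ε) / 2) (2 * x / (x ^ 2 + ε) / 2) x := by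
    have h := (((hasDerivAt_pow 2 x).add_const ε).log hv.ne').div_const 2
    simpa using h
  refine (h1.add h2).congr_deriv ?_
  have e1 : 1 / (1 + (x / √ε) ^ 2) * (1 / √ε) / √ε = 1 / (x ^ 2 + ε) := by
    rw [div_pow, hs2]
    have h3 : (1 : ℝ) + x ^ 2 / ε = (x ^ 2 + ε) / ε := by field_simp; ring
    rw [h3]
    have h4 : 1 / ((x ^ 2 + ε) / ε) * (1 / √ε) / √ε = ε / (x ^ 2 + ε) / √ε ^ 2 := by
      field_simp
    rw [h4, hs2]
    field_simp
  rw [e1]
  field_simp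

theorem step {ε x : ℝ} (hε : 0 < ε) (h1 : -1 / 2 ≤ x) (h2 : x ≤ 1) :
    |A ε (x + (x ^ 2 + ε)) - A ε x - 1| ≤ 13 * (x ^ 2 + ε) := by
  set v : ℝ := x ^ 2 + ε with hv
  have hv0 : 0 < v := by positivity
  have hxv : x ^ 2 ≤ v := by linarith
  set h : ℝ → ℝ := fun τ => A ε (x + v * τ) - τ - x * (τ - τ ^ 2) with hh
  have hder : ∀ τ : ℝ, HasDerivAt h
      ((1 + (x + v * τ)) / ((x + v * τ) ^ 2 + ε) * v - 1 - x * (1 - 2 * τ)) τ := by
    intro τ
    have a1 : HasDerivAt (fun τ : ℝ => x + v * τ) v τ := by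
      simpa using ((hasDerivAt_id τ).const_mul v).const_add x
    have a2 := (hasDerivAt_A hε (x + v * τ)).comp τ a1
    have a3 : HasDerivAt (fun τ : ℝ => x * (τ - τ ^ 2)) (x * (1 - 2 * τ)) τ := by
      have := ((hasDerivAt_id τ).sub (hasDerivAt_pow 2 τ)).const_mul x
      simpa using this
    exact (a2.sub (hasDerivAt_id τ)).sub a3
  have hbd : ∀ τ ∈ Icc (0 : ℝ) 1,
      ‖(1 + (x + v * τ)) / ((x + v * τ) ^ 2 + ε) * v - 1 - x * (1 - 2 * τ)‖ ≤ 13 * v := by
    intro τ hτ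
    obtain ⟨t0, t1⟩ := hτ
    set D : ℝ := 1 + 2 * x * τ + v * τ ^ 2 with hD
    have e1 : (x + v * τ) ^ 2 + ε = v * D := by rw [hD, hv]; ring
    have hD1 : 1 / 4 ≤ D := by
      have : (1 + x * τ) ^ 2 ≤ D := by
        rw [hD]
        nlinarith [mul_le_mul_of_nonneg_right hxv (sq_nonneg τ)]
      have h3 : 1 / 2 ≤ 1 + x * τ := by nlinarith
      nlinarith
    have hD0 : 0 < D := by linarith
    have e2 : (1 + (x + v * τ)) / ((x + v * τ) ^ 2 + ε) * v - 1 - x * (1 - 2 * τ) =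
        (v * (τ * (1 - τ)) - x * (1 - 2 * τ) * (2 * x * τ + v * τ ^ 2)) / D := by
      rw [e1]
      field_simp
      rw [hD]
      ring
    rw [e2, norm_div, Real.norm_eq_abs, Real.norm_eq_abs, abs_of_pos hD0, div_le_iff₀ hD0]
    have habs : |x| ≤ 1 := abs_le.2 ⟨by linarith, h2⟩
    have b1 : |v * (τ * (1 - τ))| ≤ v / 4 := by
      rw [abs_mul, abs_of_pos hv0, abs_of_nonneg (by nlinarith)]
      have : τ * (1 - τ) ≤ 1 / 4 := by nlinarith [sq_nonneg (τ - 1 / 2)]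
      nlinarith
    have b2 : |x * (1 - 2 * τ) * (2 * x * τ + v * τ ^ 2)| ≤ 3 * v := by
      rw [abs_mul, abs_mul]
      have c1 : |1 - 2 * τ| ≤ 1 := abs_le.2 ⟨by linarith, by linarith⟩
      have c2 : |2 * x * τ + v * τ ^ 2| ≤ 2 * |x| + v := by
        refine (abs_add_le _ _).trans ?_
        rw [abs_mul, abs_mul, abs_mul, abs_of_pos hv0, abs_of_nonneg t0, abs_of_nonneg (sq_nonneg τ)]
        have : |(2 : ℝ)| = 2 := abs_of_pos (by norm_num)
        rw [this]
        have d1 : 2 * |x| * τ ≤ 2 * |x| := by nlinarith [abs_nonneg x]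
        have d2 : v * τ ^ 2 ≤ v := by nlinarith [pow_le_one₀ (n := 2) t0 t1]
        linarith
      have c3 : |x| * |1 - 2 * τ| ≤ |x| := by nlinarith [abs_nonneg x]
      calc |x| * |1 - 2 * τ| * |2 * x * τ + v * τ ^ 2| ≤ |x| * (2 * |x| + v) :=
            mul_le_mul c3 c2 (abs_nonneg _) (abs_nonneg _)
        _ = 2 * x ^ 2 + |x| * v := by rw [← sq_abs x]; ring
        _ ≤ 3 * v := by nlinarith
    have b3 := abs_sub (v * (τ * (1 - τ))) (x * (1 - 2 * τ) * (2 * x * τ + v * τ ^ 2))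
    nlinarith
  have key := Convex.norm_image_sub_le_of_norm_hasDerivWithin_le (f := h)
    (f' := fun τ => (1 + (x + v * τ)) / ((x + v * τ) ^ 2 + ε) * v - 1 - x * (1 - 2 * τ))
    (s := Icc (0 : ℝ) 1) (x := 0) (y := 1) (C := 13 * v)
    (fun τ _ => (hder τ).hasDerivWithinAt) hbd (convex_Icc 0 1) (by simp) (by simp)
  have e3 : h 1 - h 0 = A ε (x + v) - A ε x - 1 := by
    simp only [hh]
    ring_nf
  rw [e3, Real.norm_eq_abs] at key
  simpa using key

theorem y_succ (ε : ℝ) (n : ℕ) : y ε (n + 1) = y ε n + ((y ε n) ^ 2 + ε) := rfl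

theorem y_lower {ε : ℝ} (_hε : 0 < ε) (n : ℕ) : -1 / 2 + n * ε ≤ y ε n := by
  induction n with
  | zero => simp [y]
  | succ n ih =>
    rw [y_succ]
    push_cast
    nlinarith [sq_nonneg (y ε n)]

/-- first passage through `1` -/
theorem exists_N {ε : ℝ} (hε : 0 < ε) (hε1 : ε ≤ 1) : ∃ N : ℕ, 1 ≤ y ε N ∧ y ε N ≤ 3 ∧
    ∀ n < N, y ε n < 1 := by
  classical
  have hex : ∃ n : ℕ, 1 ≤ y ε n := by
    obtain ⟨n, hn⟩ := exists_nat_gt ((3 / 2) / ε)
    refine ⟨n, ?_⟩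
    have h1 := y_lower hε n
    rw [div_lt_iff₀ hε] at hn
    linarith
  refine ⟨Nat.find hex, Nat.find_spec hex, ?_, fun n hn => not_le.1 (Nat.find_min hex hn)⟩
  rcases hN : Nat.find hex with _ | m
  · show y ε 0 ≤ 3
    simp only [y]
    norm_num
  · have h2 : y ε m < 1 := not_le.1 (Nat.find_min hex (by omega))
    have h3 := y_lower hε m
    have h4 : (0 : ℝ) ≤ m * ε := by positivity
    rw [y_succ]
    nlinarith

theorem sum_step {ε : ℝ} (hε : 0 < ε) {N : ℕ} (hN : ∀ n < N, y ε n < 1) :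
    |A ε (y ε N) - A ε (-1 / 2) - N| ≤ 13 * (y ε N + 1 / 2) := by
  have key : ∀ n ≤ N, |A ε (y ε n) - A ε (-1 / 2) - n| ≤ 13 * (y ε n + 1 / 2) := by
    intro n
    induction n with
    | zero =>
      intro _
      simp only [y, Nat.cast_zero]
      norm_num
    | succ n ih =>
      intro hn
      have h1 := ih (by omega)
      have h2 := hN n (by omega)
      have h3 := y_lower hε n
      have h4 : (0 : ℝ) ≤ n * ε := by positivity
      have h5 := step hε (x := y ε n) (by linarith) h2.le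
      rw [y_succ]
      push_cast
      have e1 : A ε (y ε n + (y ε n ^ 2 + ε)) - A ε (-1 / 2) - ((n : ℝ) + 1) =
        (A ε (y ε n) - A ε (-1 / 2) - n) + (A ε (y ε n + (y ε n ^ 2 + ε)) - A ε (y ε n) - 1) := by
        ring
      rw [e1]
      refine (abs_add_le _ _).trans ?_
      linarith
  exact key N le_rfl

theorem arctan_lower {x : ℝ} (hx : 0 < x) : π / 2 - 1 / x ≤ arctan x := by
  have h1 := Real.arctan_inv_of_pos hx
  have h2 : arctan x⁻¹ ≤ x⁻¹ := by
    have h3 : 0 < arctan x⁻¹ := Real.arctan_pos.2 (by positivity)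
    have h4 := Real.lt_tan h3 (Real.arctan_lt_pi_div_two _)
    rw [Real.tan_arctan] at h4
    exact h4.le
  rw [h1] at h2
  rw [one_div]
  linarith

theorem N_asymp {ε : ℝ} (hε : 0 < ε) {N : ℕ} (h1 : 1 ≤ y ε N) (h3 : y ε N ≤ 3)
    (hN : ∀ n < N, y ε n < 1) : |(N : ℝ) - π / √ε| ≤ 49 := by
  have hs : 0 < √ε := Real.sqrt_pos.2 hε
  have key := sum_step hε hN
  set Y : ℝ := y ε N with hY
  have hYpos : 0 < Y := by linarith
  have a1 : π / 2 - √ε / Y ≤ arctan (Y / √ε) := by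
    have := arctan_lower (x := Y / √ε) (by positivity)
    rwa [one_div_div] at this
  have a2 : arctan (Y / √ε) ≤ π / 2 := (Real.arctan_lt_pi_div_two _).le
  have a3 : π / 2 - √ε / (1 / 2) ≤ arctan ((1 / 2) / √ε) := by
    have := arctan_lower (x := (1 / 2) / √ε) (by positivity)
    rwa [one_div_div] at this
  have a4 : arctan ((1 / 2) / √ε) ≤ π / 2 := (Real.arctan_lt_pi_div_two _).le
  have e1 : A ε Y - A ε (-1 / 2) = (arctan (Y / √ε) + arctan ((1 / 2) / √ε)) / √ε +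
      log ((Y ^ 2 + ε) / (1 / 4 + ε)) / 2 := by
    have e2 : arctan ((-1 / 2) / √ε) = - arctan ((1 / 2) / √ε) := by
      rw [← Real.arctan_neg]
      congr 1
      ring
    unfold A
    rw [e2, Real.log_div (by positivity) (by positivity)]
    have e3 : ((-1 / 2 : ℝ)) ^ 2 = 1 / 4 := by norm_num
    rw [e3]
    ring
  have b1 : (arctan (Y / √ε) + arctan ((1 / 2) / √ε)) / √ε ≤ π / √ε := by
    gcongr
    linarith
  have b2 : π / √ε - 3 ≤ (arctan (Y / √ε) + arctan ((1 / 2) / √ε)) / √ε := by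
    rw [le_div_iff₀ hs, sub_mul, div_mul_cancel₀ _ hs.ne']
    have : √ε / Y ≤ √ε := div_le_self hs.le h1
    have h5 : √ε / (1 / 2) = 2 * √ε := by ring
    rw [h5] at a3
    linarith
  have c1 : 0 ≤ log ((Y ^ 2 + ε) / (1 / 4 + ε)) / 2 := by
    apply div_nonneg _ (by norm_num)
    apply Real.log_nonneg
    rw [le_div_iff₀ (by positivity)]
    nlinarith
  have c2 : log ((Y ^ 2 + ε) / (1 / 4 + ε)) / 2 ≤ 2 := by
    have h5 : (Y ^ 2 + ε) / (1 / 4 + ε) ≤ 40 := by
      rw [div_le_iff₀ (by positivity)]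
      nlinarith
    have h6 : (40 : ℝ) ≤ exp 4 := by
      have := Real.exp_one_gt_d9
      have e4 : exp (4 : ℝ) = exp 1 ^ 4 := by
        rw [← Real.exp_nat_mul]
        norm_num
      rw [e4]
      have h7 : (2.7 : ℝ) ^ 4 ≤ exp 1 ^ 4 := pow_le_pow_left₀ (by norm_num) (by linarith) 4
      norm_num at h7
      linarith
    have h8 : log ((Y ^ 2 + ε) / (1 / 4 + ε)) ≤ 4 := by
      rw [Real.log_le_iff_le_exp (by positivity)]
      linarith
    linarith
  rw [e1] at key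
  rw [abs_le] at key ⊢
  constructor <;> linarith [key.1, key.2]

end Pool.Agent.T6.H4.Cusp
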