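import Pool.Agent.T6.H4.Cusp.Lim

set_option autoImplicit false

/-! # Stolz angles at the cusp -/

open Complex Metric Set Filter Topology Pool.Agent.H712R2 Pool.Agent.H713R2 N62a1eb23

namespace Pool.Agent.T6.H4.Cusp

variable {ψ : ℂ → ℂ}

/-- Grönwall on vertical segments -/
theorem vert (hψ : IsExteriorMap (multibrotSet 2) ψ) {z w : ℂ} (hre : w.re = z.re)
    (h0 : 0 < z.re) (hp : z.re ≤ Real.pi) :
    ‖deriv (Fe ψ) w‖ ≤ ‖deriv (Fe ψ) z‖ * Real.exp (4 * ‖w - z‖ / z.re) := by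
  have hreu : ∀ u : ℝ, (z + u * (w - z)).re = z.re := by
    intro u
    simp [hre]
  have hd : ∀ u : ℝ, HasDerivAt (fun u : ℝ => deriv (Fe ψ) (z + u * (w - z)))
      (deriv (deriv (Fe ψ)) (z + u * (w - z)) * (w - z)) u := by
    intro u
    have h1 := Fe_d2 hψ (t := z + u * (w - z)) (by rw [hreu]; exact h0)
    have h2 : HasDerivAt (fun v : ℂ => z + v * (w - z)) (w - z) (u : ℂ) := by
      simpa using ((hasDerivAt_id (u : ℂ)).mul_const (w - z)).const_add z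
    exact (h1.comp (u : ℂ) h2).comp_ofReal
  have h1 := norm_le_gronwallBound_of_norm_deriv_right_le (a := 0) (b := 1)
    (f := fun u : ℝ => deriv (Fe ψ) (z + u * (w - z)))
    (f' := fun u : ℝ => deriv (deriv (Fe ψ)) (z + u * (w - z)) * (w - z))
    (δ := ‖deriv (Fe ψ) z‖) (K := 4 * ‖w - z‖ / z.re) (ε := 0)
    (fun u _ => (hd u).continuousAt.continuousWithinAt)
    (fun u _ => (hd u).hasDerivWithinAt) (by simp)
    (fun u _ => by
      have h2 := (koebe hψ (t := z + u * (w - z)) (by rw [hreu]; exact h0)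
        (by rw [hreu]; exact hp)).2
      rw [hreu] at h2
      rw [norm_mul, add_zero, div_mul_eq_mul_div, le_div_iff₀ h0]
      nlinarith [norm_nonneg (w - z)]) 1 (right_mem_Icc.2 zero_le_one)
  rw [gronwallBound_ε0] at h1
  simpa using h1

/-- the exterior map on vertical segments -/
theorem Fe_vert (hψ : IsExteriorMap (multibrotSet 2) ψ) {t : ℂ} {κ : ℝ} (hκ : 0 ≤ κ)
    (h0 : 0 < t.re) (h1 : t.re ≤ Real.exp (-120)) (ht : |t.im| ≤ κ * t.re) :
    ‖Fe ψ t - Fe ψ (t.re : ℂ)‖ ≤ κ * Real.exp (4 * κ) * 100000 / |Real.log t.re| ^ 3 := by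
  have hs1 : t.re ≤ 1 := h1.trans (Real.exp_le_one_iff.2 (by norm_num))
  have hsp : t.re ≤ Real.pi := hs1.trans (by linarith [Real.pi_gt_three])
  have hf := (ff_bounds hψ h0 h1).2
  have hdist : ‖t - (t.re : ℂ)‖ = |t.im| := by
    have : t - (t.re : ℂ) = (t.im : ℂ) * Complex.I := by
      apply Complex.ext <;> simp
    rw [this, norm_mul, Complex.norm_I, mul_one, Complex.norm_real, Real.norm_eq_abs]
  have hb : ∀ z ∈ segment ℝ ((t.re : ℝ) : ℂ) t, z.re = t.re ∧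
      ‖deriv (Fe ψ) z‖ ≤ ff ψ t.re * Real.exp (4 * κ) := by
    intro z hz
    rw [segment_eq_image'] at hz
    obtain ⟨u, hu, rfl⟩ := hz
    have hre : (((t.re : ℝ) : ℂ) + u • (t - (t.re : ℂ))).re = t.re := by simp
    refine ⟨hre, ?_⟩
    have h2 := vert hψ (z := (t.re : ℂ)) (w := ((t.re : ℝ) : ℂ) + u • (t - (t.re : ℂ)))
      (by rw [hre, Complex.ofReal_re]) (by rwa [Complex.ofReal_re]) (by rwa [Complex.ofReal_re])
    rw [norm_d hψ h0 hsp, Complex.ofReal_re] at h2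
    refine h2.trans ?_
    apply mul_le_mul_of_nonneg_left _ (ff_pos hψ h0 hsp).le
    apply Real.exp_le_exp.2
    rw [add_sub_cancel_left, norm_smul, hdist, Real.norm_eq_abs, abs_of_nonneg hu.1,
      div_le_iff₀ h0]
    have h3 : u * |t.im| ≤ |t.im| := mul_le_of_le_one_left (abs_nonneg _) hu.2
    nlinarith
  have h2 := (convex_segment ((t.re : ℝ) : ℂ) t).norm_image_sub_le_of_norm_hasDerivWithin_le
    (f := Fe ψ) (f' := deriv (Fe ψ)) (C := ff ψ t.re * Real.exp (4 * κ))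
    (fun z hz => (Fe_d1 hψ (by rw [(hb z hz).1]; exact h0)).hasDerivWithinAt)
    (fun z hz => (hb z hz).2) (left_mem_segment ℝ _ _) (right_mem_segment ℝ _ _)
  rw [hdist] at h2
  have hfp := ff_pos hψ h0 hsp
  have he := Real.exp_pos (4 * κ)
  calc ‖Fe ψ t - Fe ψ (t.re : ℂ)‖ ≤ ff ψ t.re * Real.exp (4 * κ) * |t.im| := h2
    _ ≤ ff ψ t.re * Real.exp (4 * κ) * (κ * t.re) :=
      mul_le_mul_of_nonneg_left ht (by positivity)
    _ = κ * Real.exp (4 * κ) * (t.re * ff ψ t.re) := by ring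
    _ ≤ κ * Real.exp (4 * κ) * (100000 / |Real.log t.re| ^ 3) :=
      mul_le_mul_of_nonneg_left hf (by positivity)
    _ = _ := by ring

/-- the cusp coordinate -/
noncomputable def xi (ψ : ℂ → ℂ) (t : ℂ) : ℂ := (Real.pi : ℂ) / (Fe ψ t - 1 / 4) ^ (1 / 2 : ℂ)

theorem half_re_pos {z : ℂ} (hz : 0 < z.re) : 0 < (z ^ (1 / 2 : ℂ)).re := by
  have hz0 : z ≠ 0 := fun h => by rw [h] at hz; simp at hz
  rw [Complex.cpow_def_of_ne_zero hz0, Complex.exp_re]
  apply mul_pos (Real.exp_pos _)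
  have h1 : (Complex.log z * (1 / 2 : ℂ)).im = Complex.arg z / 2 := by
    have : Complex.log z * (1 / 2 : ℂ) = Complex.log z / 2 := by ring
    rw [this, show (2 : ℂ) = ((2 : ℝ) : ℂ) by norm_num, Complex.div_ofReal_im, Complex.log_im]
  rw [h1]
  apply Real.cos_pos_of_mem_Ioo
  have h2 := Complex.arg_le_pi z
  have h3 := Complex.neg_pi_lt_arg z
  have h4 := Real.pi_pos
  have h5 : |Complex.arg z| < Real.pi / 2 := Complex.abs_arg_lt_pi_div_two_iff.2 (Or.inl hz)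
  rw [abs_lt] at h5
  constructor <;> linarith [h5.1, h5.2]

theorem half_sq {z : ℂ} (hz : z ≠ 0) : (z ^ (1 / 2 : ℂ)) ^ 2 = z := by
  rw [← Complex.cpow_natCast, ← Complex.cpow_mul]
  · norm_num
  · have h1 : (Complex.log z * (1 / 2 : ℂ)).im = Complex.arg z / 2 := by
      have : Complex.log z * (1 / 2 : ℂ) = Complex.log z / 2 := by ring
      rw [this, show (2 : ℂ) = ((2 : ℝ) : ℂ) by norm_num, Complex.div_ofReal_im, Complex.log_im]
    rw [h1]
    have := Complex.neg_pi_lt_arg z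
    have := Real.pi_pos
    linarith
  · have h1 : (Complex.log z * (1 / 2 : ℂ)).im = Complex.arg z / 2 := by
      have : Complex.log z * (1 / 2 : ℂ) = Complex.log z / 2 := by ring
      rw [this, show (2 : ℂ) = ((2 : ℝ) : ℂ) by norm_num, Complex.div_ofReal_im, Complex.log_im]
    rw [h1]
    have := Complex.arg_le_pi z
    have := Real.pi_pos
    linarith

theorem xi_real (hψ : IsExteriorMap (multibrotSet 2) ψ) {s : ℝ} (hs : 0 < s) :
    xi ψ (s : ℂ) = ((Real.pi / √(Rr ψ s - 1 / 4) : ℝ) : ℂ) := by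
  have h1 := Rr_lt hψ hs
  have h2 : Fe ψ (s : ℂ) - 1 / 4 = ((Rr ψ s - 1 / 4 : ℝ) : ℂ) := by
    rw [Fe_real, Rr_eq hψ hs]; push_cast; rfl
  rw [xi, h2, Real.sqrt_eq_rpow, Complex.ofReal_div, Complex.ofReal_cpow (by linarith)]
  norm_num

/-- the cusp coordinate varies by a bounded amount on the vertical segments of a Stolz angle -/
theorem xi_stolz (hψ : IsExteriorMap (multibrotSet 2) ψ) {κ : ℝ} (hκ : 0 ≤ κ) :
    ∃ ρ C : ℝ, 0 < ρ ∧ ρ ≤ Real.exp (-120) ∧ 0 ≤ C ∧ ∀ t : ℂ, 0 < t.re → t.re ≤ ρ →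
      |t.im| ≤ κ * t.re →
      0 < (Fe ψ t - 1 / 4).re ∧ ‖xi ψ t - xi ψ (t.re : ℂ)‖ ≤ C := by
  obtain ⟨D, hD⟩ : ∃ D, D = κ * Real.exp (4 * κ) * 100000 := ⟨_, rfl⟩
  have hD0 : 0 ≤ D := by rw [hD]; positivity
  refine ⟨Real.exp (-(120 + 2 * D)), 2 * Real.pi * D, Real.exp_pos _,
    Real.exp_le_exp.2 (by linarith), by positivity, ?_⟩
  intro t h0 h1 ht
  have h120 : t.re ≤ Real.exp (-120) := h1.trans (Real.exp_le_exp.2 (by linarith))
  have hl := neg_log_ge h0 h1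
  have h2 := Fe_vert hψ hκ h0 h120 ht
  rw [← hD] at h2
  obtain ⟨l, hld⟩ : ∃ l, l = -Real.log t.re := ⟨_, rfl⟩
  obtain ⟨b1, b2⟩ := eps_bounds hψ h0 (h120.trans (Real.exp_le_exp.2 (by norm_num)))
  rw [← hld] at hl b1 b2
  rw [show |Real.log t.re| = l by
    rw [show Real.log t.re = -l by rw [hld]; ring, abs_neg, abs_of_pos (by linarith)]] at h2
  have hl0 : 0 < l := by linarith
  obtain ⟨e, he⟩ : ∃ e, e = Rr ψ t.re - 1 / 4 := ⟨_, rfl⟩
  rw [← he] at b1 b2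
  have hL0 := LL_gt
  have he1 : 1 / l ^ 2 ≤ e := by
    refine le_trans ?_ b1
    rw [div_le_div_iff₀ (by positivity) (by positivity)]
    have h4 : l + 36 ≤ 1.4 * l := by linarith
    have h5 : (l + 36) ^ 2 ≤ (1.4 * l) ^ 2 := pow_le_pow_left₀ (by linarith) h4 2
    have h6 : 4 ≤ LL ^ 2 := by nlinarith
    nlinarith [sq_nonneg l]
  have he0 : 0 < e := lt_of_lt_of_le (by positivity) he1
  have hee : Fe ψ (t.re : ℂ) - 1 / 4 = ((e : ℝ) : ℂ) := by
    rw [Fe_real, Rr_eq hψ h0, he]; push_cast; rfl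
  obtain ⟨E, hE⟩ : ∃ E, E = Fe ψ t - 1 / 4 := ⟨_, rfl⟩
  have hEe : ‖E - e‖ ≤ D / l ^ 3 := by
    have : E - (e : ℂ) = Fe ψ t - Fe ψ (t.re : ℂ) := by rw [hE, ← hee]; ring
    rw [this]; exact h2
  have hDl : D / l ^ 3 ≤ e / 2 := by
    calc D / l ^ 3 ≤ 1 / l ^ 2 / 2 := by
          rw [div_div, div_le_div_iff₀ (by positivity) (by positivity)]
          have : 2 * D ≤ l := by linarith
          have h4 : 0 < l ^ 2 := by positivity
          nlinarith
      _ ≤ e / 2 := by linarith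
  have hEre : e / 2 ≤ E.re := by
    have h4 := (Complex.abs_re_le_norm (E - e)).trans (hEe.trans hDl)
    rw [Complex.sub_re, Complex.ofReal_re, abs_le] at h4
    linarith [h4.1]
  rw [← hE]
  refine ⟨by linarith, ?_⟩
  have hEre0 : 0 < E.re := by linarith
  have hEne : E ≠ 0 := fun h => by rw [h] at hEre0; simp at hEre0
  rw [xi_real hψ h0, xi, ← hE, ← he]
  obtain ⟨a, ha⟩ : ∃ a, a = E ^ (1 / 2 : ℂ) := ⟨_, rfl⟩
  obtain ⟨b, hb⟩ : ∃ b, b = √e := ⟨_, rfl⟩
  have hb0 : 0 < b := by rw [hb]; exact Real.sqrt_pos.2 he0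
  have hb2 : b ^ 2 = e := by rw [hb]; exact Real.sq_sqrt he0.le
  have ha2 : a ^ 2 = E := by rw [ha]; exact half_sq hEne
  have hare : 0 < a.re := by rw [ha]; exact half_re_pos hEre0
  have hane : a ≠ 0 := fun h => by rw [h] at hare; simp at hare
  have hbne : (b : ℂ) ≠ 0 := by exact_mod_cast hb0.ne'
  have hab : b ≤ ‖a + b‖ := by
    have := Complex.re_le_norm (a + b)
    rw [Complex.add_re, Complex.ofReal_re] at this
    linarith
  have ha3 : b / 2 ≤ ‖a‖ := by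
    have h4 : (b / 2) ^ 2 ≤ ‖a‖ ^ 2 := by
      rw [← norm_pow, ha2]
      have := Complex.re_le_norm E
      nlinarith
    exact le_of_sq_le_sq h4 (norm_nonneg _)
  have hlb : 1 / l ≤ b := by
    have h4 : (1 / l) ^ 2 ≤ b ^ 2 := by rw [hb2, one_div_pow]; exact he1
    exact le_of_sq_le_sq h4 hb0.le
  rw [← ha, ← hb]
  have e1 : (Real.pi : ℂ) / a - ((Real.pi / b : ℝ) : ℂ) =
      -(Real.pi : ℂ) * (E - e) / ((a + b) * a * b) := by
    have hab0 : a + b ≠ 0 := fun h => by rw [h, norm_zero] at hab; linarith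
    have hEe2 : E - e = a ^ 2 - (b : ℂ) ^ 2 := by rw [ha2, ← hb2]; push_cast; ring
    rw [hEe2]
    push_cast
    field_simp
    ring
  rw [e1, norm_div, norm_mul, norm_neg, Complex.norm_real, Real.norm_of_nonneg Real.pi_pos.le,
    norm_mul, norm_mul, Complex.norm_real, Real.norm_of_nonneg hb0.le]
  have hden : b ^ 3 / 2 ≤ ‖a + b‖ * ‖a‖ * b := by
    have h4 : b * (b / 2) ≤ ‖a + b‖ * ‖a‖ := mul_le_mul hab ha3 (by positivity) (by positivity)
    nlinarith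
  have hlb3 : 1 ≤ l ^ 3 * b ^ 3 := by
    have h5 : 1 ≤ l * b := by rw [div_le_iff₀ hl0] at hlb; linarith
    rw [← mul_pow]
    exact one_le_pow₀ h5
  have hden0 : 0 < ‖a + b‖ * ‖a‖ * b := lt_of_lt_of_le (by positivity) hden
  rw [div_le_iff₀ hden0]
  calc Real.pi * ‖E - e‖ ≤ Real.pi * (D / l ^ 3) :=
        mul_le_mul_of_nonneg_left hEe Real.pi_pos.le
    _ ≤ 2 * Real.pi * D * (b ^ 3 / 2) := by
        rw [← mul_div_assoc, div_le_iff₀ (by positivity)]
        have : 0 ≤ Real.pi * D := by positivity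
        nlinarith
    _ ≤ _ := mul_le_mul_of_nonneg_left hden (by positivity)

end Pool.Agent.T6.H4.Cusp
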