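import Pool.Agent.T6.H4.Cusp.Abel

set_option autoImplicit false

/-! # The periodic function -/

open Complex Metric Set Filter Topology Pool.Agent.H712R2 Pool.Agent.H713R2 N62a1eb23

namespace Pool.Agent.T6.H4.Cusp

variable {ψ χ : ℂ → ℂ}

theorem log2_pos : 0 < Real.log 2 := Real.log_pos (by norm_num)

theorem log2_ne : (Real.log 2 : ℂ) ≠ 0 := by exact_mod_cast log2_pos.ne'

/-- the strip -/
def Strip : Set ℂ := {X : ℂ | |X.im| < Real.pi / (2 * Real.log 2)}

theorem isOpen_strip : IsOpen Strip :=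
  isOpen_lt (continuous_abs.comp Complex.continuous_im) continuous_const

/-- the periodic function attached to the limit function -/
noncomputable def Th (χ : ℂ → ℂ) (X : ℂ) : ℂ := -X - χ (Complex.exp (-(X * Real.log 2)))

theorem strip_re {X : ℂ} (hX : X ∈ Strip) : 0 < (Complex.exp (-(X * Real.log 2))).re := by
  rw [Complex.exp_re]
  apply mul_pos (Real.exp_pos _)
  have h1 : (-(X * Real.log 2)).im = -(X.im * Real.log 2) := by
    rw [Complex.neg_im, Complex.im_mul_ofReal]
  rw [h1, Real.cos_neg]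
  apply Real.cos_pos_of_mem_Ioo
  have h2 : |X.im * Real.log 2| < Real.pi / 2 := by
    rw [abs_mul, abs_of_pos log2_pos]
    have h3 : |X.im| < Real.pi / (2 * Real.log 2) := hX
    rw [lt_div_iff₀ (by have := log2_pos; positivity)] at h3
    linarith
  rw [abs_lt] at h2
  constructor <;> linarith [h2.1, h2.2]

theorem real_strip (x : ℝ) : (x : ℂ) ∈ Strip := by
  show |((x : ℂ)).im| < _
  rw [Complex.ofReal_im, abs_zero]
  have := log2_pos
  have := Real.pi_pos
  positivity

theorem Th_hasDeriv (h : Lim ψ χ) {X : ℂ} (hX : X ∈ Strip) :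
    HasDerivAt (Th χ) (-1 + Real.log 2 * (Complex.exp (-(X * Real.log 2)) *
      deriv χ (Complex.exp (-(X * Real.log 2))))) X := by
  have h1 := (h.diffAt (strip_re hX)).hasDerivAt
  have h2 : HasDerivAt (fun X : ℂ => Complex.exp (-(X * Real.log 2)))
      (Complex.exp (-(X * Real.log 2)) * (-(1 * (Real.log 2 : ℂ)))) X :=
    (((hasDerivAt_id X).mul_const (Real.log 2 : ℂ)).neg).cexp
  have h3 := (hasDerivAt_id X).neg.sub (h1.comp X h2)
  refine h3.congr_deriv ?_
  ring

theorem Th_diff (h : Lim ψ χ) : DifferentiableOn ℂ (Th χ) Strip := fun _ hX =>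
  (Th_hasDeriv h hX).differentiableAt.differentiableWithinAt

theorem Th_per (h : Lim ψ χ) {X : ℂ} (hX : X ∈ Strip) : Th χ (X + 1) = Th χ X := by
  have e1 : Complex.exp (-(X * Real.log 2)) = 2 * Complex.exp (-((X + 1) * Real.log 2)) := by
    have e2 : -((X + 1) * Real.log 2) = -(X * Real.log 2) - (Real.log 2 : ℂ) := by ring
    have e3 : Complex.exp (Real.log 2 : ℂ) = 2 := by
      rw [← Complex.ofReal_exp, Real.exp_log (by norm_num)]
      norm_num
    rw [e2, Complex.exp_sub, e3]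
    field_simp
  have hX1 : X + 1 ∈ Strip := by
    show |(X + 1).im| < _
    have e2 : (X + 1).im = X.im := by simp
    rw [e2]
    exact hX
  have h1 := h.fe (strip_re hX1)
  rw [← e1] at h1
  rw [Th, Th, h1]
  ring

theorem exp_real (x : ℝ) : Complex.exp (-((x : ℂ) * Real.log 2)) =
    ((Real.exp (-(x * Real.log 2)) : ℝ) : ℂ) := by
  push_cast; rfl

theorem Th_im (h : Lim ψ χ) (hψ : IsExteriorMap (multibrotSet 2) ψ) (x : ℝ) :
    (Th χ (x : ℂ)).im = 0 := by
  rw [Th, exp_real, (h.real hψ (Real.exp_pos _)).1]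
  simp

theorem Th_deriv_pos (h : Lim ψ χ) (hψ : IsExteriorMap (multibrotSet 2) ψ) (x : ℝ) :
    0 < 1 + (deriv (Th χ) (x : ℂ)).re := by
  obtain ⟨c, hc0, hc⟩ := h.lower hψ
  rw [(Th_hasDeriv h (real_strip x)).deriv, exp_real]
  have h1 := hc _ (Real.exp_pos (-(x * Real.log 2)))
  rw [Complex.add_re, Complex.re_ofReal_mul]
  have h2 : (-1 : ℂ).re = -1 := by simp
  rw [h2]
  have := mul_pos log2_pos (hc0.trans_le h1)
  linarith

theorem Th_log {t : ℂ} (ht : t ≠ 0) :
    Complex.exp (-(-Complex.log t / Real.log 2 * Real.log 2)) = t := by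
  have h1 : -(-Complex.log t / Real.log 2 * Real.log 2) = Complex.log t := by
    rw [div_mul_cancel₀ _ log2_ne, neg_neg]
  rw [h1, Complex.exp_log ht]

theorem log_strip {t : ℂ} (ht : 0 < t.re) : -Complex.log t / Real.log 2 ∈ Strip := by
  show |(-Complex.log t / Real.log 2).im| < _
  rw [Complex.div_ofReal_im, Complex.neg_im, Complex.log_im, abs_div, abs_neg,
    abs_of_pos log2_pos, div_lt_div_iff₀ log2_pos (by have := log2_pos; positivity)]
  have h1 : |Complex.arg t| < Real.pi / 2 := Complex.abs_arg_lt_pi_div_two_iff.2 (Or.inl ht)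
  have := log2_pos
  nlinarith

theorem Th_nonconst (h : Lim ψ χ) (hψ : IsExteriorMap (multibrotSet 2) ψ) :
    ∃ x y : ℝ, Th χ (x : ℂ) ≠ Th χ (y : ℂ) := by
  by_contra hcon
  push Not at hcon
  refine h.osc hψ (-Th χ ((0 : ℝ) : ℂ)) fun τ hτ => ?_
  have h1 := hcon (-Real.log τ / Real.log 2) 0
  rw [← h1, Th]
  have e1 : (((-Real.log τ / Real.log 2 : ℝ)) : ℂ) = -Complex.log τ / Real.log 2 := by
    rw [← Complex.ofReal_log hτ.le]
    push_cast
    rfl
  rw [e1, Th_log (by exact_mod_cast hτ.ne')]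
  ring

/-- (1) -/
theorem stolz1 (h : Lim ψ χ) (κ : ℝ) :
    Tendsto (fun t => (Real.pi : ℂ) / (ψ (Complex.exp t) - 1 / 4) ^ (1 / 2 : ℂ) -
      (-Complex.log t / Real.log 2) - Th χ (-Complex.log t / Real.log 2)) (𝓝[St κ] 0) (𝓝 0) := by
  refine (h.stolz κ).congr' ?_
  filter_upwards [self_mem_nhdsWithin] with t ht
  have ht0 : t ≠ 0 := fun h => by
    have := ht.1
    rw [h] at this
    simp at this
  rw [Th, Th_log ht0, xi, Fe]
  ring

theorem deriv_Fe (hψ : IsExteriorMap (multibrotSet 2) ψ) {t : ℂ} (ht : 0 < t.re) :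
    deriv (Fe ψ) t = deriv ψ (Complex.exp t) * Complex.exp t := by
  have h1 : HasDerivAt ψ (deriv ψ (Complex.exp t)) (Complex.exp t) :=
    (hψ.diff.differentiableAt (isOpen_ext.mem_nhds (exp_mem ht))).hasDerivAt
  exact (h1.comp t (Complex.hasDerivAt_exp t)).deriv

/-- (2) -/
theorem stolz2 (h : Lim ψ χ) (hψ : IsExteriorMap (multibrotSet 2) ψ) {κ : ℝ} (hκ : 0 ≤ κ) :
    Tendsto (fun t => (-Complex.log t) ^ 3 * (t * deriv ψ (Complex.exp t)) -
      2 * (Real.pi * Real.log 2 : ℂ) ^ 2 * (1 + deriv (Th χ) (-Complex.log t / Real.log 2)))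
      (𝓝[St κ] 0) (𝓝 0) := by
  have h1 := h.stolz_psi hψ hκ
  obtain ⟨B, hB0, hB⟩ := h.per2 κ
  have hexp : Tendsto (fun t : ℂ => Complex.exp (-t)) (𝓝[St κ] 0) (𝓝 1) := by
    have : Continuous fun t : ℂ => Complex.exp (-t) := by fun_prop
    have h2 := this.tendsto 0
    rw [neg_zero, Complex.exp_zero] at h2
    exact h2.mono_left nhdsWithin_le_nhds
  -- `u e^{-t}` and `c t χ' (e^{-t} - 1)` tend to zero
  have h2 := h1.mul hexp
  rw [zero_mul] at h2
  have h3 : Tendsto (fun t => (2 * (Real.pi : ℂ) ^ 2 * (Real.log 2 : ℂ) ^ 3) *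
      ((t * deriv χ t) * (Complex.exp (-t) - 1))) (𝓝[St κ] 0) (𝓝 0) := by
    have h4 : Tendsto (fun t => (t * deriv χ t) * (Complex.exp (-t) - 1)) (𝓝[St κ] 0) (𝓝 0) := by
      have h5 : Tendsto (fun t => B * ‖Complex.exp (-t) - 1‖) (𝓝[St κ] 0) (𝓝 0) := by
        have := ((hexp.sub_const 1).norm).const_mul B
        simpa using this
      refine squeeze_zero_norm' ?_ h5
      filter_upwards [St_mem_lt κ one_pos, self_mem_nhdsWithin] with t t1 t2
      rw [norm_mul]
      exact mul_le_mul_of_nonneg_right (hB t t2 t1) (norm_nonneg _)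
    simpa using h4.const_mul (2 * (Real.pi : ℂ) ^ 2 * (Real.log 2 : ℂ) ^ 3)
  have h4 := h2.add h3
  rw [add_zero] at h4
  refine h4.congr' ?_
  filter_upwards [self_mem_nhdsWithin] with t ht
  have ht0 : t ≠ 0 := fun h => by
    have := ht.1
    rw [h] at this
    simp at this
  rw [(Th_hasDeriv h (log_strip ht.1)).deriv, Th_log ht0, deriv_Fe hψ ht.1]
  have e1 : Complex.exp t * Complex.exp (-t) = 1 := by rw [← Complex.exp_add]; simp
  linear_combination ((-Complex.log t) ^ 3 * t * deriv ψ (Complex.exp t)) * e1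

/-- the real ray in the Stolz angle -/
theorem real_St {κ : ℝ} (hκ : 0 ≤ κ) : Tendsto (fun s : ℝ => (s : ℂ)) (𝓝[>] 0) (𝓝[St κ] 0) := by
  apply tendsto_nhdsWithin_of_tendsto_nhds_of_eventually_within
  · have := Complex.continuous_ofReal.tendsto (0 : ℝ)
    rw [Complex.ofReal_zero] at this
    exact this.mono_left nhdsWithin_le_nhds
  · filter_upwards [self_mem_nhdsWithin] with s hs
    have hs' : 0 < s := hs
    refine ⟨by simpa using hs', ?_⟩
    simp only [Complex.ofReal_im, abs_zero, Complex.ofReal_re]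
    positivity

end Pool.Agent.T6.H4.Cusp
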