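import Pool.Agent.T6.H4.Cusp.Osc

set_option autoImplicit false

/-! # Uniform limits in Stolz angles -/

open Complex Metric Set Filter Topology Pool.Agent.H712R2 Pool.Agent.H713R2 N62a1eb23

namespace Pool.Agent.T6.H4.Cusp

variable {ψ : ℂ → ℂ}

/-- Stolz angle -/
def St (κ : ℝ) : Set ℂ := {t : ℂ | 0 < t.re ∧ |t.im| ≤ κ * t.re}

/-- the fundamental domain of a Stolz angle -/
def Kt (κ : ℝ) : Set ℂ := {t : ℂ | 0 ≤ t.re ∧ |t.im| ≤ κ * t.re ∧ 1 ≤ ‖t‖ ∧ ‖t‖ ≤ 2}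

theorem Kt_pos {κ : ℝ} {t : ℂ} (ht : t ∈ Kt κ) : 0 < t.re := by
  obtain ⟨h1, h2, h3, -⟩ := ht
  rcases lt_or_eq_of_le h1 with h | h
  · exact h
  · exfalso
    rw [← h, mul_zero] at h2
    have h4 : t.im = 0 := abs_nonpos_iff.1 h2
    have h5 : t = 0 := Complex.ext h.symm h4
    rw [h5, norm_zero] at h3
    linarith

theorem Kt_compact (κ : ℝ) : IsCompact (Kt κ) := by
  have h1 : IsClosed (Kt κ) := by
    have c1 : IsClosed {t : ℂ | 0 ≤ t.re} := isClosed_le continuous_const Complex.continuous_re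
    have c2 : IsClosed {t : ℂ | |t.im| ≤ κ * t.re} :=
      isClosed_le (continuous_abs.comp Complex.continuous_im)
        (continuous_const.mul Complex.continuous_re)
    have c3 : IsClosed {t : ℂ | 1 ≤ ‖t‖} := isClosed_le continuous_const continuous_norm
    have c4 : IsClosed {t : ℂ | ‖t‖ ≤ 2} := isClosed_le continuous_norm continuous_const
    exact c1.inter (c2.inter (c3.inter c4))
  refine (isCompact_closedBall (0 : ℂ) 2).of_isClosed_subset h1 ?_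
  intro t ht
  rw [mem_closedBall_zero_iff]
  exact ht.2.2.2

/-- rescaling a point of a Stolz angle -/
theorem rescale {κ : ℝ} {t : ℂ} (ht : t ∈ St κ) {n0 : ℕ} (hn : ‖t‖ < 1 / 2 ^ n0) :
    ∃ N : ℕ, n0 ≤ N ∧ 2 ^ N * t ∈ Kt κ := by
  have ht0 : 0 < ‖t‖ := by
    have := Complex.re_le_norm t
    linarith [ht.1]
  have h1 : 1 ≤ 1 / ‖t‖ := by
    rw [le_div_iff₀ ht0, one_mul]
    refine hn.le.trans ?_
    rw [div_le_one (by positivity)]
    exact one_le_pow₀ (by norm_num)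
  obtain ⟨n, hn1, hn2⟩ := exists_nat_pow_near h1 (show (1 : ℝ) < 2 by norm_num)
  rw [le_div_iff₀ ht0] at hn1
  rw [div_lt_iff₀ ht0] at hn2
  refine ⟨n + 1, ?_, ?_⟩
  · by_contra hcon
    push Not at hcon
    have h2 : (2 : ℝ) ^ (n + 1) ≤ 2 ^ n0 := pow_le_pow_right₀ (by norm_num) (by omega)
    rw [lt_div_iff₀ (by positivity)] at hn
    nlinarith
  · have hre := two_re t (n + 1)
    have him : (2 ^ (n + 1) * t).im = 2 ^ (n + 1) * t.im := by
      have : (2 : ℂ) ^ (n + 1) = ((2 ^ (n + 1) : ℝ) : ℂ) := by push_cast; rfl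
      rw [this, Complex.im_ofReal_mul]
    have hnm : ‖(2 : ℂ) ^ (n + 1) * t‖ = 2 ^ (n + 1) * ‖t‖ := by
      rw [norm_mul, norm_pow, Complex.norm_ofNat]
    have hp : (0 : ℝ) < 2 ^ (n + 1) := by positivity
    refine ⟨?_, ?_, ?_, ?_⟩
    · rw [hre]
      exact (mul_pos hp ht.1).le
    · rw [hre, him, abs_mul, abs_of_pos hp]
      calc (2 : ℝ) ^ (n + 1) * |t.im| ≤ 2 ^ (n + 1) * (κ * t.re) :=
            mul_le_mul_of_nonneg_left ht.2 hp.le
        _ = _ := by ring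
    · rw [hnm]; exact hn2.le
    · rw [hnm, pow_succ]
      linarith

/-- a locally uniform limit along the scales gives a limit in the Stolz angle -/
theorem stolz_of_unif {F : ℕ → ℂ → ℂ} {G : ℂ → ℂ}
    (h : TendstoLocallyUniformlyOn F G atTop {τ : ℂ | 0 < τ.re}) {u : ℂ → ℂ}
    (hu : ∀ (N : ℕ) (t : ℂ), 0 < t.re → u t = G (2 ^ N * t) - F N (2 ^ N * t)) (κ : ℝ) :
    Tendsto u (𝓝[St κ] 0) (𝓝 0) := by
  have h1 : TendstoUniformlyOn F G atTop (Kt κ) :=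
    (tendstoLocallyUniformlyOn_iff_forall_isCompact isOpen_re).1 h (Kt κ)
      (fun t ht => Kt_pos ht) (Kt_compact κ)
  rw [Metric.tendsto_nhds]
  intro ε hε
  rw [Metric.tendstoUniformlyOn_iff] at h1
  obtain ⟨n0, hn0⟩ := eventually_atTop.1 (h1 ε hε)
  have h2 : ∀ᶠ t : ℂ in 𝓝 0, ‖t‖ < 1 / 2 ^ n0 := by
    have : ball (0 : ℂ) (1 / 2 ^ n0) ∈ 𝓝 (0 : ℂ) := ball_mem_nhds 0 (by positivity)
    filter_upwards [this] with t ht using mem_ball_zero_iff.1 ht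
  filter_upwards [h2.filter_mono nhdsWithin_le_nhds, self_mem_nhdsWithin] with t ht1 ht2
  obtain ⟨N, hN, hK⟩ := rescale ht2 ht1
  have h3 := hn0 N hN _ hK
  rw [hu N t ht2.1, dist_zero_right, ← dist_eq_norm]
  exact h3

theorem Lim.fe_pow {χ : ℂ → ℂ} (h : Lim ψ χ) {τ : ℂ} (hτ : 0 < τ.re) (N : ℕ) :
    χ (2 ^ N * τ) = χ τ + N := by
  induction N with
  | zero => simp
  | succ N ih =>
    have : (2 : ℂ) ^ (N + 1) * τ = 2 * (2 ^ N * τ) := by rw [pow_succ]; ring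
    rw [this, h.fe (by rw [two_re]; positivity), ih]
    push_cast
    ring

/-- **the limit in Stolz angles** -/
theorem Lim.stolz {χ : ℂ → ℂ} (h : Lim ψ χ) (κ : ℝ) :
    Tendsto (fun t => xi ψ t + χ t) (𝓝[St κ] 0) (𝓝 0) := by
  refine stolz_of_unif h.lim (fun N t ht => ?_) κ
  rw [h.fe_pow ht, SN]
  have : (2 : ℂ) ^ N * t / 2 ^ N = t := by field_simp
  rw [this]
  ring

theorem Lim.deriv_lim {χ : ℂ → ℂ} (h : Lim ψ χ) (hψ : IsExteriorMap (multibrotSet 2) ψ) :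
    TendstoLocallyUniformlyOn (fun N => deriv (SN ψ N)) (deriv χ) atTop {τ : ℂ | 0 < τ.re} := by
  intro u hu τ hτ
  obtain ⟨a, r, hr, hra, hm⟩ := exists_ball hτ
  obtain ⟨N0, B, hB⟩ := SN_ball hψ hr hra
  have h1 : TendstoLocallyUniformlyOn (SN ψ) χ atTop (ball (a : ℂ) r) := h.lim.mono (ball_sub' hra)
  have h2 := h1.deriv (eventually_atTop.2 ⟨N0, fun N hN => (hB N hN).1⟩) isOpen_ball
  obtain ⟨t, ht, h3⟩ := h2 u hu τ hm
  refine ⟨t, ?_, h3⟩
  rw [isOpen_ball.nhdsWithin_eq hm] at ht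
  exact mem_nhdsWithin_of_mem_nhds ht

theorem Lim.diffAt {χ : ℂ → ℂ} (h : Lim ψ χ) {τ : ℂ} (hτ : 0 < τ.re) :
    DifferentiableAt ℂ χ τ := h.diff.differentiableAt (isOpen_re.mem_nhds hτ)

theorem Lim.deriv_fe {χ : ℂ → ℂ} (h : Lim ψ χ) {τ : ℂ} (hτ : 0 < τ.re) (N : ℕ) :
    2 ^ N * deriv χ (2 ^ N * τ) = deriv χ τ := by
  have h1 : (fun z => χ (2 ^ N * z)) =ᶠ[𝓝 τ] fun z => χ z + N := by
    filter_upwards [isOpen_re.mem_nhds hτ] with z hz using h.fe_pow hz N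
  have h2 : HasDerivAt (fun z => χ (2 ^ N * z)) (deriv χ (2 ^ N * τ) * 2 ^ N) τ := by
    have h3 := (h.diffAt (τ := 2 ^ N * τ) (by rw [two_re]; positivity)).hasDerivAt
    have h4 : HasDerivAt (fun z : ℂ => 2 ^ N * z) (2 ^ N) τ := by
      simpa using (hasDerivAt_id τ).const_mul ((2 : ℂ) ^ N)
    exact h3.comp τ h4
  have h3 : HasDerivAt (fun z => χ z + N) (deriv χ τ) τ := (h.diffAt hτ).hasDerivAt.add_const _
  have h5 := h2.unique (h3.congr_of_eventuallyEq h1)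
  rw [← h5]
  ring

/-- the limit of the derivatives in Stolz angles -/
theorem Lim.stolz_deriv {χ : ℂ → ℂ} (h : Lim ψ χ) (hψ : IsExteriorMap (multibrotSet 2) ψ) (κ : ℝ) :
    Tendsto (fun t => t * deriv (xi ψ) t + t * deriv χ t) (𝓝[St κ] 0) (𝓝 0) := by
  have hcont : ContinuousOn (deriv χ) {τ : ℂ | 0 < τ.re} :=
    (h.diff.deriv isOpen_re).continuousOn
  have h1 : TendstoLocallyUniformlyOn (fun N τ => τ * deriv (SN ψ N) τ) (fun τ => τ * deriv χ τ)
      atTop {τ : ℂ | 0 < τ.re} := by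
    rw [tendstoLocallyUniformlyOn_iff_forall_isCompact isOpen_re]
    intro K hK hKc
    have h2 := (tendstoLocallyUniformlyOn_iff_forall_isCompact isOpen_re).1
      (h.deriv_lim hψ) K hK hKc
    rw [Metric.tendstoUniformlyOn_iff] at h2 ⊢
    intro ε hε
    obtain ⟨M, hM⟩ := hKc.isBounded.exists_norm_le
    have hM1 : 0 < |M| + 1 := by positivity
    filter_upwards [h2 (ε / (|M| + 1)) (by positivity)] with N hN z hz
    have h3 := hN z hz
    rw [dist_eq_norm] at h3 ⊢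
    rw [← mul_sub, norm_mul]
    have h4 : ‖z‖ ≤ |M| := (hM z hz).trans (le_abs_self M)
    calc ‖z‖ * ‖deriv χ z - deriv (SN ψ N) z‖ ≤ |M| * ‖deriv χ z - deriv (SN ψ N) z‖ :=
          mul_le_mul_of_nonneg_right h4 (norm_nonneg _)
      _ ≤ |M| * (ε / (|M| + 1)) := mul_le_mul_of_nonneg_left h3.le (abs_nonneg _)
      _ < (|M| + 1) * (ε / (|M| + 1)) := by
          apply mul_lt_mul_of_pos_right (by linarith) (by positivity)
      _ = ε := by field_simp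
  refine stolz_of_unif h1 (fun N t ht => ?_) κ
  have e1 : deriv (SN ψ N) (2 ^ N * t) = -(deriv (xi ψ) t) / 2 ^ N := by
    have e2 : SN ψ N = fun τ => (N : ℂ) - xi ψ ((2 ^ N)⁻¹ * τ) := by
      funext τ
      rw [SN, div_eq_inv_mul]
    rw [e2, deriv_const_sub, deriv_comp_mul_left]
    have e3 : ((2 : ℂ) ^ N)⁻¹ * (2 ^ N * t) = t := by field_simp
    rw [e3, smul_eq_mul]
    field_simp
  have e4 := h.deriv_fe ht N
  rw [e1, ← e4]
  field_simp
  ring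

end Pool.Agent.T6.H4.Cusp
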